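import Mathlib

/-! # Gaussian binomial coefficients -/

namespace Pool.Agent.helper15.Sub

/-- Gaussian binomial coefficients, defined by the Pascal recursion. -/
def gb (q : ℕ) : ℕ → ℕ → ℕ
  | _, 0 => 1
  | 0, _ + 1 => 0
  | n + 1, k + 1 => gb q n k + q ^ (k + 1) * gb q n (k + 1)

@[simp] theorem gb_zero (q n : ℕ) : gb q n 0 = 1 := by cases n <;> rfl
@[simp] theorem gb_zero_succ (q k : ℕ) : gb q 0 (k + 1) = 0 := rfl
theorem gb_succ (q n k : ℕ) :
    gb q (n + 1) (k + 1) = gb q n k + q ^ (k + 1) * gb q n (k + 1) := rfl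

theorem gb_eq_zero (q : ℕ) {n k : ℕ} (h : n < k) : gb q n k = 0 := by
  induction n generalizing k with
  | zero => obtain ⟨k, rfl⟩ : ∃ j, k = j + 1 := ⟨k - 1, by omega⟩; rfl
  | succ n ih =>
    obtain ⟨k, rfl⟩ : ∃ j, k = j + 1 := ⟨k - 1, by omega⟩
    rw [gb_succ, ih (by omega), ih (by omega)]; simp

@[simp] theorem gb_self (q n : ℕ) : gb q n n = 1 := by
  induction n with
  | zero => rfl
  | succ n ih => rw [gb_succ, ih, gb_eq_zero q (Nat.lt_succ_self n)]; simp

theorem gb_pos (q : ℕ) {n k : ℕ} (h : k ≤ n) : 0 < gb q n k := by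
  induction n generalizing k with
  | zero => obtain rfl : k = 0 := by omega
            simp
  | succ n ih =>
    cases k with
    | zero => simp
    | succ k => rw [gb_succ]; have := @ih k (by omega); omega

/-- The `q`-factorial-like product `(q - 1)(q^2 - 1) ... (q^n - 1)`. -/
def qf (q n : ℕ) : ℤ := ∏ i ∈ Finset.range n, ((q : ℤ) ^ (i + 1) - 1)

theorem qf_succ (q n : ℕ) : qf q (n + 1) = qf q n * ((q : ℤ) ^ (n + 1) - 1) :=
  Finset.prod_range_succ _ _

theorem pow_sub_one_pos {q : ℕ} (hq : 2 ≤ q) (n : ℕ) : (0 : ℤ) < (q : ℤ) ^ (n + 1) - 1 := by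
  have : (1 : ℤ) < (q : ℤ) ^ (n + 1) := by
    apply one_lt_pow₀ _ (by omega)
    exact_mod_cast hq
  omega

theorem qf_pos {q : ℕ} (hq : 2 ≤ q) (n : ℕ) : 0 < qf q n :=
  Finset.prod_pos fun i _ => pow_sub_one_pos hq i

theorem gb_mul_qf (q : ℕ) (n : ℕ) : ∀ k, k ≤ n →
    (gb q n k : ℤ) * (qf q k * qf q (n - k)) = qf q n := by
  induction n with
  | zero => intro k hk; obtain rfl : k = 0 := by omega
            simp [qf]
  | succ n ih =>
    intro k hk
    cases k with
    | zero => simp [qf]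
    | succ k =>
      rw [gb_succ]
      rcases Nat.eq_or_lt_of_le hk with h | h
      · obtain rfl : k = n := by omega
        have := ih k le_rfl
        rw [gb_eq_zero q (Nat.lt_succ_self k)]
        simp only [Nat.sub_self] at this ⊢
        rw [qf_succ]
        push_cast
        linear_combination ((q : ℤ) ^ (k + 1) - 1) * this
      · have h1 := ih k (by omega)
        have h2 := ih (k + 1) (by omega)
        obtain ⟨m, hm⟩ : ∃ m, n = k + 1 + m := ⟨n - (k + 1), by omega⟩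
        subst hm
        rw [show k + 1 + m - k = m + 1 by omega] at h1
        rw [show k + 1 + m - (k + 1) = m by omega] at h2
        rw [show k + 1 + m + 1 - (k + 1) = m + 1 by omega]
        rw [qf_succ q (k + 1 + m), qf_succ q k, qf_succ q m] at *
        push_cast
        have e : (q : ℤ) ^ (k + 1 + m + 1) = (q : ℤ) ^ (k + 1) * (q : ℤ) ^ (m + 1) := by
          rw [← pow_add]; congr 1
        rw [e]
        linear_combination ((q : ℤ) ^ (k + 1) - 1) * h1 +
          (q : ℤ) ^ (k + 1) * ((q : ℤ) ^ (m + 1) - 1) * h2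

theorem gb_symm {q : ℕ} (hq : 2 ≤ q) {n k : ℕ} (h : k ≤ n) : gb q n (n - k) = gb q n k := by
  have h1 := gb_mul_qf q n k h
  have h2 := gb_mul_qf q n (n - k) (by omega)
  rw [show n - (n - k) = k by omega] at h2
  have hp := mul_pos (qf_pos hq k) (qf_pos hq (n - k))
  have : (gb q n (n - k) : ℤ) = gb q n k := by
    apply mul_right_cancel₀ hp.ne'
    rw [h1, mul_comm (qf q k), h2]
  exact_mod_cast this

/-- Absorption: `[n, k+1](q^(k+1) - 1) = [n, k](q^(n-k) - 1)`. -/
theorem gb_absorb {q : ℕ} (hq : 2 ≤ q) (n k : ℕ) (h : k ≤ n) :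
    (gb q n (k + 1) : ℤ) * ((q : ℤ) ^ (k + 1) - 1) = gb q n k * ((q : ℤ) ^ (n - k) - 1) := by
  rcases Nat.eq_or_lt_of_le h with h | h
  · subst h
    rw [gb_eq_zero q (Nat.lt_succ_self k)]; simp
  · have h1 := gb_mul_qf q n k (by omega)
    have h2 := gb_mul_qf q n (k + 1) (by omega)
    obtain ⟨m, rfl⟩ : ∃ m, n = k + 1 + m := ⟨n - (k + 1), by omega⟩
    rw [show k + 1 + m - k = m + 1 by omega] at *
    rw [show k + 1 + m - (k + 1) = m by omega] at h2
    rw [qf_succ] at h1 h2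
    have hp := mul_pos (qf_pos hq k) (qf_pos hq m)
    apply mul_right_cancel₀ hp.ne'
    linear_combination h2 - h1

/-- `[n+1, k+1](q^(k+1) - 1) = [n, k](q^(n+1) - 1)`. -/
theorem gb_absorb' {q : ℕ} (hq : 2 ≤ q) (n k : ℕ) :
    (gb q (n + 1) (k + 1) : ℤ) * ((q : ℤ) ^ (k + 1) - 1) = gb q n k * ((q : ℤ) ^ (n + 1) - 1) := by
  rcases Nat.lt_or_ge n k with h | h
  · rw [gb_eq_zero q h, gb_eq_zero q (by omega : n + 1 < k + 1)]; simp
  · rw [gb_succ]
    have := gb_absorb hq n k h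
    push_cast
    have e : (q : ℤ) ^ (n + 1) = (q : ℤ) ^ (k + 1) * (q : ℤ) ^ (n - k) := by
      rw [← pow_add]; congr 1; omega
    rw [e]
    linear_combination (q : ℤ) ^ (k + 1) * this

end Pool.Agent.helper15.Sub
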