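import Mathlib
import Pool.Agent.helper15.Sub.Gauss

/-! # Counting subspaces -/

namespace Pool.Agent.helper15.Sub

open Module

variable {K V : Type} [Field K] [Finite K] [AddCommGroup V] [Module K V] [Finite V]

theorem two_le_card (K : Type) [Field K] [Finite K] : 2 ≤ Nat.card K := by
  have := Finite.one_lt_card (α := K); omega

theorem card_li {W : Type} [AddCommGroup W] [Module K W] [Finite W] {k : ℕ} (hk : k ≤ finrank K W) :
    Nat.card {s : Fin k → W // LinearIndependent K s} =
      ∏ i : Fin k, ((Nat.card K) ^ (finrank K W) - (Nat.card K) ^ i.val) := by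
  letI := Fintype.ofFinite K
  rw [card_linearIndependent hk, Nat.card_eq_fintype_card]

theorem prod_pow_sub (q n k : ℕ) (hq : 2 ≤ q) (hk : k ≤ n) :
    ((∏ i : Fin k, (q ^ n - q ^ i.val) : ℕ) : ℤ) * qf q (n - k) =
      (q : ℤ) ^ (k * (k - 1) / 2) * qf q n := by
  induction k with
  | zero => simp
  | succ k ih =>
    have h1 := ih (by omega)
    rw [Fin.prod_univ_castSucc]
    simp only [Fin.val_castSucc, Fin.val_last]
    obtain ⟨m, rfl⟩ : ∃ m, n = k + 1 + m := ⟨n - (k + 1), by omega⟩
    rw [show k + 1 + m - k = m + 1 by omega, qf_succ] at h1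
    rw [show k + 1 + m - (k + 1) = m by omega]
    have hle : q ^ k ≤ q ^ (k + 1 + m) := Nat.pow_le_pow_right (by omega) (by omega)
    push_cast [Nat.cast_sub hle]
    have e : (q : ℤ) ^ (k + 1 + m) - (q : ℤ) ^ k = (q : ℤ) ^ k * ((q : ℤ) ^ (m + 1) - 1) := by
      rw [show k + 1 + m = k + (m + 1) by omega, pow_add]; ring
    rw [e]
    have e2 : (q : ℤ) ^ ((k + 1) * k / 2) = (q : ℤ) ^ k * (q : ℤ) ^ (k * (k - 1) / 2) := by
      rw [← pow_add]; congr 1
      have : (k + 1) * k = k * (k - 1) + 2 * k := by
        cases k with
        | zero => rfl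
        | succ k => simp; ring
      rw [this, Nat.add_mul_div_left _ _ (by norm_num)]; ring
    rw [e2]
    push_cast at h1
    linear_combination (q : ℤ) ^ k * h1

theorem gb_prod (q n k : ℕ) (hq : 2 ≤ q) (hk : k ≤ n) :
    gb q n k * ∏ i : Fin k, (q ^ k - q ^ i.val) = ∏ i : Fin k, (q ^ n - q ^ i.val) := by
  have h1 := prod_pow_sub q n k hq hk
  have h2 := prod_pow_sub q k k hq le_rfl
  have h3 := gb_mul_qf q n k hk
  have hp := qf_pos hq (n - k)
  simp only [Nat.sub_self] at h2
  have e0 : qf q 0 = 1 := by simp [qf]
  rw [e0, mul_one] at h2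
  have : ((gb q n k * ∏ i : Fin k, (q ^ k - q ^ i.val) : ℕ) : ℤ) =
      ((∏ i : Fin k, (q ^ n - q ^ i.val) : ℕ) : ℤ) := by
    apply mul_right_cancel₀ hp.ne'
    rw [h1, Nat.cast_mul, h2]
    linear_combination (q : ℤ) ^ (k * (k - 1) / 2) * h3
  exact_mod_cast this

theorem prod_pos (q k : ℕ) (hq : 2 ≤ q) : 0 < ∏ i : Fin k, (q ^ k - q ^ i.val) := by
  apply Finset.prod_pos
  intro i _
  have : q ^ i.val < q ^ k := Nat.pow_lt_pow_right (by omega) i.2
  omega

/-- tuples independent modulo `W` -/
theorem card_tuples (W : Submodule K V) (k : ℕ) :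
    Nat.card {s : Fin k → V // LinearIndependent K (W.mkQ ∘ s)} =
      Nat.card {s : Fin k → V ⧸ W // LinearIndependent K s} * (Nat.card K) ^ (finrank K W * k) := by
  have hs := W.mkQ_surjective
  let σ : V ⧸ W → V := Function.surjInv hs
  have hσ : ∀ x, W.mkQ (σ x) = x := Function.surjInv_eq hs
  have hmem : ∀ v : V, v - σ (W.mkQ v) ∈ W := by
    intro v
    have : W.mkQ (v - σ (W.mkQ v)) = 0 := by rw [map_sub, hσ, sub_self]
    exact (Submodule.Quotient.mk_eq_zero W).1 this
  let e : {s : Fin k → V // LinearIndependent K (W.mkQ ∘ s)} ≃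
      {s : Fin k → V ⧸ W // LinearIndependent K s} × (Fin k → W) :=
    { toFun := fun s => (⟨W.mkQ ∘ s.1, s.2⟩, fun i => ⟨s.1 i - σ (W.mkQ (s.1 i)), hmem _⟩)
      invFun := fun p => ⟨fun i => σ (p.1.1 i) + (p.2 i : V), by
        have : W.mkQ ∘ (fun i => σ (p.1.1 i) + (p.2 i : V)) = p.1.1 := by
          funext i
          simp only [Function.comp_apply, map_add, hσ]
          have : W.mkQ (p.2 i : V) = 0 := by simp
          rw [this, add_zero]
        rw [this]; exact p.1.2⟩
      left_inv := by
        intro s
        apply Subtype.ext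
        funext i
        simp
      right_inv := by
        intro p
        have h0 : ∀ i, W.mkQ (σ (p.1.1 i) + (p.2 i : V)) = p.1.1 i := by
          intro i
          have : W.mkQ (p.2 i : V) = 0 := by simp
          rw [map_add, hσ, this, add_zero]
        apply Prod.ext
        · apply Subtype.ext
          funext i
          exact h0 i
        · funext i
          apply Subtype.ext
          show (σ (p.1.1 i) + (p.2 i : V)) - σ (W.mkQ (σ (p.1.1 i) + (p.2 i : V))) = p.2 i
          rw [h0]; abel }
  rw [Nat.card_congr e, Nat.card_prod, Nat.card_fun, Module.natCard_eq_pow_finrank (K := K) (V := W)]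
  simp [pow_mul]

instance finite_quot (W : Submodule K V) : Finite (V ⧸ W) :=
  Finite.of_surjective W.mkQ W.mkQ_surjective

/-- The number of `k`-dimensional subspaces that meet `W` trivially. -/
theorem card_disjoint (W : Submodule K V) (k : ℕ) :
    Nat.card {U : Submodule K V // finrank K U = k ∧ U ⊓ W = ⊥} =
      (Nat.card K) ^ (finrank K W * k) * gb (Nat.card K) (finrank K V - finrank K W) k := by
  classical
  have hq := two_le_card K
  have hn : finrank K (V ⧸ W) = finrank K V - finrank K W := by
    have := W.finrank_quotient_add_finrank; omega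
  rcases Nat.lt_or_ge (finrank K (V ⧸ W)) k with h | h
  · rw [gb_eq_zero _ (by omega), mul_zero]
    have : IsEmpty {U : Submodule K V // finrank K U = k ∧ U ⊓ W = ⊥} := by
      constructor
      rintro ⟨U, hU, hUW⟩
      have h1 := Submodule.finrank_sup_add_finrank_inf_eq U W
      rw [hUW] at h1
      have h2 := Submodule.finrank_le (U ⊔ W)
      simp at h1
      omega
    exact Nat.card_of_isEmpty
  · let T := {s : Fin k → V // LinearIndependent K (W.mkQ ∘ s)}
    let S := {U : Submodule K V // finrank K U = k ∧ U ⊓ W = ⊥}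
    have hT : ∀ s : T, LinearIndependent K s.1 := fun s => s.2.of_comp
    let f : T → S := fun s => ⟨Submodule.span K (Set.range s.1), by
      rw [finrank_span_eq_card (hT s)]; simp, by
      have := Submodule.range_ker_disjoint s.2
      rw [Submodule.ker_mkQ] at this
      exact this.eq_bot⟩
    have hf : ∀ U : S, Nat.card {s : T // f s = U} = ∏ i : Fin k, ((Nat.card K) ^ k -
        (Nat.card K) ^ i.val) := by
      intro U
      have := card_li (K := K) (W := U.1) (k := k) (by rw [U.2.1])
      rw [U.2.1] at this
      rw [← this]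
      refine Nat.card_congr
        { toFun := fun s => ⟨fun i => ⟨s.1.1 i, by
            have h1 : Submodule.span K (Set.range s.1.1) = U.1 := congrArg Subtype.val s.2
            rw [← h1]
            exact Submodule.subset_span ⟨i, rfl⟩⟩, by
              have := hT s.1
              apply LinearIndependent.of_comp U.1.subtype
              exact this⟩
          invFun := fun s => ⟨⟨fun i => (s.1 i : V), by
              have h1 : LinearIndependent K (fun i => (s.1 i : V)) :=
                s.2.map' U.1.subtype (by simp)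
              apply h1.map
              rw [Submodule.ker_mkQ]
              apply Disjoint.mono_left (b := U.1)
              · rw [Submodule.span_le]
                rintro _ ⟨i, rfl⟩
                exact (s.1 i).2
              · exact disjoint_iff.2 U.2.2⟩, by
              apply Subtype.ext
              show Submodule.span K (Set.range fun i => (s.1 i : V)) = U.1
              have h1 : LinearIndependent K (fun i => (s.1 i : V)) :=
                s.2.map' U.1.subtype (by simp)
              apply Submodule.eq_of_le_of_finrank_eq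
              · rw [Submodule.span_le]
                rintro _ ⟨i, rfl⟩
                exact (s.1 i).2
              · rw [finrank_span_eq_card h1, U.2.1]; simp⟩
          left_inv := fun s => rfl
          right_inv := fun s => rfl }
    have hcard : Nat.card T = Nat.card S * ∏ i : Fin k, ((Nat.card K) ^ k -
        (Nat.card K) ^ i.val) := by
      letI : Fintype S := Fintype.ofFinite S
      rw [← Nat.card_congr (Equiv.sigmaFiberEquiv f), Nat.card_sigma]
      rw [Finset.sum_congr rfl (fun U _ => hf U)]
      simp [Nat.card_eq_fintype_card]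
    have h2 := card_tuples W k
    have h3 := card_li (K := K) (W := V ⧸ W) (k := k) h
    have h4 := gb_prod (Nat.card K) (finrank K (V ⧸ W)) k hq h
    have hp := prod_pos (Nat.card K) k hq
    apply Nat.eq_of_mul_eq_mul_right hp
    show Nat.card S * _ = _
    rw [← hcard]
    show Nat.card {s : Fin k → V // LinearIndependent K (W.mkQ ∘ s)} = _
    rw [h2, h3, ← h4, hn]
    ring

theorem finrank_comap_mkQ (I : Submodule K V) (U' : Submodule K (V ⧸ I)) :
    finrank K (U'.comap I.mkQ) = finrank K U' + finrank K I := by
  have h := LinearMap.finrank_range_add_finrank_ker (I.mkQ.domRestrict (U'.comap I.mkQ))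
  have h1 : LinearMap.range (I.mkQ.domRestrict (U'.comap I.mkQ)) = U' := by
    rw [LinearMap.range_domRestrict, Submodule.map_comap_eq_of_surjective I.mkQ_surjective]
  have hle : I ≤ U'.comap I.mkQ := by
    intro x hx
    rw [Submodule.mem_comap]
    have : I.mkQ x = 0 := by simpa using hx
    rw [this]; exact U'.zero_mem
  have h2 : finrank K (LinearMap.ker (I.mkQ.domRestrict (U'.comap I.mkQ))) = finrank K I := by
    have e : LinearMap.ker (I.mkQ.domRestrict (U'.comap I.mkQ)) = I.comap (U'.comap I.mkQ).subtype := by
      ext x; simp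
    rw [e]
    exact (Submodule.comapSubtypeEquivOfLe hle).finrank_eq
  rw [h1, h2] at h
  exact h.symm

/-- The number of `k`-dimensional subspaces that meet `W` exactly in `I`. -/
theorem card_inf_eq (W I : Submodule K V) (hI : I ≤ W) (k : ℕ) (hk : finrank K I ≤ k) :
    Nat.card {U : Submodule K V // finrank K U = k ∧ U ⊓ W = I} =
      (Nat.card K) ^ ((finrank K W - finrank K I) * (k - finrank K I)) *
        gb (Nat.card K) (finrank K V - finrank K W) (k - finrank K I) := by
  have hW' : (W.map I.mkQ).comap I.mkQ = W := by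
    rw [Submodule.comap_map_mkQ]; exact sup_eq_right.2 hI
  have hfW : finrank K (W.map I.mkQ) = finrank K W - finrank K I := by
    have := finrank_comap_mkQ I (W.map I.mkQ)
    rw [hW'] at this; omega
  have hV : finrank K (V ⧸ I) - finrank K (W.map I.mkQ) = finrank K V - finrank K W := by
    have h1 := I.finrank_quotient_add_finrank
    have h2 := Submodule.finrank_mono hI
    have h3 := Submodule.finrank_le W
    omega
  have hc := card_disjoint (K := K) (V := V ⧸ I) (W.map I.mkQ) (k - finrank K I)
  rw [hV, hfW] at hc
  rw [← hc]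
  symm
  have hcm : ∀ U' : Submodule K (V ⧸ I), U' ⊓ W.map I.mkQ = ⊥ ↔ U'.comap I.mkQ ⊓ W = I := by
    intro U'
    have e : (U' ⊓ W.map I.mkQ).comap I.mkQ = U'.comap I.mkQ ⊓ W := by
      rw [Submodule.comap_inf, hW']
    have eb : (⊥ : Submodule K (V ⧸ I)).comap I.mkQ = I := by
      show LinearMap.ker I.mkQ = I
      exact Submodule.ker_mkQ I
    constructor
    · intro h; rw [← e, h, eb]
    · intro h
      apply Submodule.comap_injective_of_surjective I.mkQ_surjective
      rw [e, h, eb]
  refine Nat.card_eq_of_bijective (fun U' => ⟨U'.1.comap I.mkQ, ?_, ?_⟩) ⟨?_, ?_⟩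
  · rw [finrank_comap_mkQ, U'.2.1]; omega
  · exact (hcm _).1 U'.2.2
  · intro U' U'' h
    apply Subtype.ext
    exact Submodule.comap_injective_of_surjective I.mkQ_surjective (congrArg Subtype.val h)
  · rintro ⟨U, hU, hUW⟩
    have hIU : I ≤ U := by rw [← hUW]; exact inf_le_left
    have hm : (U.map I.mkQ).comap I.mkQ = U := by
      rw [Submodule.comap_map_mkQ]; exact sup_eq_right.2 hIU
    refine ⟨⟨U.map I.mkQ, ?_, ?_⟩, ?_⟩
    · have := finrank_comap_mkQ I (U.map I.mkQ)
      rw [hm] at this; omega
    · rw [hcm, hm]; exact hUW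
    · exact Subtype.ext hm

/-- The number of `i`-dimensional subspaces of `W`. -/
theorem card_le (W : Submodule K V) (i : ℕ) :
    Nat.card {I : Submodule K V // finrank K I = i ∧ I ≤ W} = gb (Nat.card K) (finrank K W) i := by
  have h := card_disjoint (K := K) (V := W) ⊥ i
  simp only [inf_bot_eq, and_true, finrank_bot, zero_mul, pow_zero, one_mul, Nat.sub_zero] at h
  rw [← h]
  symm
  refine Nat.card_eq_of_bijective (fun U' => ⟨U'.1.map W.subtype, ?_, ?_⟩) ⟨?_, ?_⟩
  · exact (Submodule.finrank_map_subtype_eq W U'.1).trans U'.2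
  · exact Submodule.map_subtype_le W U'.1
  · intro a b hab
    apply Subtype.ext
    exact Submodule.map_injective_of_injective W.injective_subtype (congrArg Subtype.val hab)
  · rintro ⟨I, hI, hIW⟩
    have e : (I.comap W.subtype).map W.subtype = I := by
      rw [Submodule.map_comap_subtype]; exact inf_eq_right.2 hIW
    refine ⟨⟨I.comap W.subtype, ?_⟩, Subtype.ext e⟩
    have := Submodule.finrank_map_subtype_eq W (I.comap W.subtype)
    rw [e, hI] at this
    exact this.symm

/-- The number of `k`-dimensional subspaces containing `I`. -/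
theorem card_ge (I : Submodule K V) (k : ℕ) (hk : finrank K I ≤ k) :
    Nat.card {U : Submodule K V // finrank K U = k ∧ I ≤ U} =
      gb (Nat.card K) (finrank K V - finrank K I) (k - finrank K I) := by
  have h := card_inf_eq I I le_rfl k hk
  simp only [inf_eq_right, Nat.sub_self, zero_mul, pow_zero, one_mul] at h
  exact h

/-- The number of `k`-dimensional subspaces. -/
theorem card_lev (k : ℕ) :
    Nat.card {U : Submodule K V // finrank K U = k} = gb (Nat.card K) (finrank K V) k := by
  have h := card_disjoint (K := K) (V := V) ⊥ k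
  simpa using h

/-- The number of `k`-dimensional subspaces meeting `W` in dimension `i`. -/
theorem card_finrank_inf (W : Submodule K V) (k i : ℕ) (hi : i ≤ k) :
    Nat.card {U : Submodule K V // finrank K U = k ∧ finrank K (U ⊓ W : Submodule K V) = i} =
      gb (Nat.card K) (finrank K W) i * ((Nat.card K) ^ ((finrank K W - i) * (k - i)) *
        gb (Nat.card K) (finrank K V - finrank K W) (k - i)) := by
  classical
  rw [← card_le W i]
  letI : Fintype {I : Submodule K V // finrank K I = i ∧ I ≤ W} := Fintype.ofFinite _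
  let f : {U : Submodule K V // finrank K U = k ∧ finrank K (U ⊓ W : Submodule K V) = i} →
    {I : Submodule K V // finrank K I = i ∧ I ≤ W} := fun U => ⟨U.1 ⊓ W, U.2.2, inf_le_right⟩
  rw [← Nat.card_congr (Equiv.sigmaFiberEquiv f), Nat.card_sigma]
  have hf : ∀ I : {I : Submodule K V // finrank K I = i ∧ I ≤ W}, Nat.card {U // f U = I} =
      (Nat.card K) ^ ((finrank K W - i) * (k - i)) *
        gb (Nat.card K) (finrank K V - finrank K W) (k - i) := by
    intro I
    have := card_inf_eq W I.1 I.2.2 k (by rw [I.2.1]; exact hi)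
    rw [I.2.1] at this
    rw [← this]
    refine Nat.card_eq_of_bijective (fun U => ⟨U.1.1, U.1.2.1, ?_⟩) ⟨?_, ?_⟩
    · exact congrArg Subtype.val U.2
    · intro a b hab
      apply Subtype.ext
      apply Subtype.ext
      have h3 := congrArg Subtype.val hab
      exact h3
    · rintro ⟨U, hU, hUI⟩
      refine ⟨⟨⟨U, hU, by rw [hUI]; exact I.2.1⟩, Subtype.ext hUI⟩, rfl⟩
  rw [Finset.sum_congr rfl (fun I _ => hf I)]
  simp [Nat.card_eq_fintype_card]

end Pool.Agent.helper15.Sub
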