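import Mathlib
import Pool.Agent.helper15.Sub.Count

/-! # Levels, biregular double counting -/

namespace Pool.Agent.helper15.Sub

open Module
open scoped Classical

variable {K V : Type} [Field K] [Finite K] [AddCommGroup V] [Module K V] [Finite V]

noncomputable instance fintypeSub : Fintype (Submodule K V) := Fintype.ofFinite _

variable (K V) in
/-- The `k`-dimensional subspaces. -/
noncomputable def lev (k : ℕ) : Finset (Submodule K V) :=
  Finset.univ.filter (fun U => finrank K U = k)

@[simp] theorem mem_lev {k : ℕ} {U : Submodule K V} : U ∈ lev K V k ↔ finrank K U = k := by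
  simp [lev]

theorem card_filter_eq (P : Submodule K V → Prop) [DecidablePred P] :
    (Finset.univ.filter P).card = Nat.card {U : Submodule K V // P U} := by
  rw [Nat.card_eq_fintype_card, Fintype.card_subtype]

theorem lev_card (k : ℕ) : (lev K V k).card = gb (Nat.card K) (finrank K V) k := by
  rw [lev, card_filter_eq, card_lev]

theorem double_count {S : Type} (P Q : Finset S) (R : S → S → Prop) [DecidableRel R]
    (a b : ℕ) (ha : 0 < a)
    (hP : ∀ x ∈ P, (Q.filter (fun y => R x y)).card = a)
    (hQ : ∀ y ∈ Q, (P.filter (fun x => R x y)).card = b)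
    (F G : Finset S) (hF : F ⊆ P) (hG : G ⊆ Q) (h : ∀ x ∈ F, ∀ y ∈ G, ¬ R x y) :
    F.card * Q.card + G.card * P.card ≤ P.card * Q.card := by
  have h1 : P.card * a = Q.card * b := Finset.card_mul_eq_card_mul R hP hQ
  have h2 : F.card * a ≤ (Q \ G).card * b := by
    apply Finset.card_mul_le_card_mul (s := F) (t := Q \ G) R
    · intro x hx
      rw [← hP x (hF hx)]
      apply Finset.card_le_card
      intro y hy
      rw [Finset.mem_filter] at hy
      rw [Finset.mem_bipartiteAbove, Finset.mem_sdiff]
      exact ⟨⟨hy.1, fun hyG => h x hx y hyG hy.2⟩, hy.2⟩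
    · intro y hy
      rw [Finset.mem_sdiff] at hy
      rw [← hQ y hy.1]
      apply Finset.card_le_card
      intro x hx
      rw [Finset.mem_bipartiteBelow] at hx
      rw [Finset.mem_filter]
      exact ⟨hF hx.1, hx.2⟩
  have h3 : (Q \ G).card = Q.card - G.card := Finset.card_sdiff_of_subset hG
  have h4 : G.card ≤ Q.card := Finset.card_le_card hG
  rw [h3] at h2
  obtain ⟨c, hc⟩ : ∃ c, Q.card = G.card + c := ⟨Q.card - G.card, by omega⟩
  rw [hc, Nat.add_sub_cancel_left] at h2
  have h5 : F.card * Q.card * a ≤ c * P.card * a := by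
    calc F.card * Q.card * a = F.card * a * Q.card := by ring
      _ ≤ c * b * Q.card := Nat.mul_le_mul_right _ h2
      _ = c * P.card * a := by rw [mul_assoc c P.card a, h1]; ring
  have h6 : F.card * Q.card ≤ c * P.card := Nat.le_of_mul_le_mul_right h5 ha
  calc F.card * Q.card + G.card * P.card ≤ c * P.card + G.card * P.card := Nat.add_le_add_right h6 _
    _ = P.card * Q.card := by rw [hc]; ring

/-- Number of members of `A` of dimension `k`. -/
noncomputable def cnt (A : Finset (Submodule K V)) (k : ℕ) : ℕ := (A ∩ lev K V k).card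

theorem cnt_le (A : Finset (Submodule K V)) (k : ℕ) :
    cnt A k ≤ gb (Nat.card K) (finrank K V) k := by
  rw [← lev_card]; exact Finset.card_le_card Finset.inter_subset_right

theorem card_eq_sum_cnt (A : Finset (Submodule K V)) :
    A.card = ∑ k ∈ Finset.range (finrank K V + 1), cnt A k := by
  rw [Finset.card_eq_sum_card_fiberwise (f := fun U : Submodule K V => finrank K U)
    (t := Finset.range (finrank K V + 1))]
  · apply Finset.sum_congr rfl
    intro k _
    unfold cnt
    congr 1
    ext U
    simp
  · intro U _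
    simp only [Finset.coe_range, Set.mem_Iio]
    exact Nat.lt_succ_of_le (Submodule.finrank_le U)

/-- Cross `t`-intersecting. -/
def Cross (t : ℕ) (A B : Finset (Submodule K V)) : Prop :=
  ∀ X ∈ A, ∀ Y ∈ B, t ≤ finrank K (X ⊓ Y : Submodule K V)

theorem Cross.symm {t : ℕ} {A B : Finset (Submodule K V)} (h : Cross t A B) : Cross t B A := by
  intro X hX Y hY
  rw [inf_comm]; exact h Y hY X hX

/-- degree in the graph in which two subspaces are joined when they meet in dimension `t - 1` -/
theorem degree (t : ℕ) (ht : 1 ≤ t) (k k' : ℕ) (hk : k ≤ finrank K V) (hk' : k' ≤ finrank K V)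
    (hkk : k + k' + 1 = finrank K V + t) (X : Submodule K V) (hX : finrank K X = k) :
    ((lev K V k').filter (fun Y => finrank K (Y ⊓ X : Submodule K V) = t - 1)).card =
      gb (Nat.card K) k (t - 1) * (Nat.card K) ^ ((k - (t - 1)) * (k' - (t - 1))) := by
  have h := card_finrank_inf X k' (t - 1) (by omega)
  rw [hX, show finrank K V - k = k' - (t - 1) by omega, gb_self, mul_one] at h
  rw [← h, ← card_filter_eq, lev, Finset.filter_filter]

theorem cross_pair (t : ℕ) (ht : 1 ≤ t) (A B : Finset (Submodule K V)) (h : Cross t A B)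
    (k k' : ℕ) (hk : k ≤ finrank K V) (hk' : k' ≤ finrank K V)
    (hkk : k + k' + 1 = finrank K V + t) :
    cnt A k * gb (Nat.card K) (finrank K V) k' + cnt B k' * gb (Nat.card K) (finrank K V) k ≤
      gb (Nat.card K) (finrank K V) k * gb (Nat.card K) (finrank K V) k' := by
  rw [← lev_card (K := K) (V := V) k, ← lev_card (K := K) (V := V) k']
  apply double_count (lev K V k) (lev K V k')
    (fun X Y => finrank K (Y ⊓ X : Submodule K V) = t - 1)
    (gb (Nat.card K) k (t - 1) * (Nat.card K) ^ ((k - (t - 1)) * (k' - (t - 1))))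
    (gb (Nat.card K) k' (t - 1) * (Nat.card K) ^ ((k' - (t - 1)) * (k - (t - 1))))
  · have := two_le_card K
    exact Nat.mul_pos (gb_pos _ (by omega)) (Nat.pow_pos (by omega))
  · intro X hX
    exact degree t ht k k' hk hk' hkk X (mem_lev.1 hX)
  · intro Y hY
    have := degree t ht k' k hk' hk (by omega) Y (mem_lev.1 hY)
    rw [← this]
    congr 1
    ext X
    simp only [Finset.mem_filter]
    rw [inf_comm]
  · exact Finset.inter_subset_right
  · exact Finset.inter_subset_right
  · intro X hX Y hY hXY
    have := h X (Finset.mem_inter.1 hX).1 Y (Finset.mem_inter.1 hY).1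
    rw [inf_comm] at this
    omega

/-- Up-closed families. -/
def Up (A : Finset (Submodule K V)) : Prop := ∀ X ∈ A, ∀ Y, X ≤ Y → Y ∈ A

theorem up_pair (A : Finset (Submodule K V)) (h : Up A) (k : ℕ) (hk : k + 1 ≤ finrank K V) :
    cnt A k * gb (Nat.card K) (finrank K V) (k + 1) ≤
      cnt A (k + 1) * gb (Nat.card K) (finrank K V) k := by
  rw [← lev_card (K := K) (V := V) k, ← lev_card (K := K) (V := V) (k + 1)]
  have := double_count (lev K V k) (lev K V (k + 1))
    (fun X Y => X ≤ Y)
    (gb (Nat.card K) (finrank K V - k) 1)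
    (gb (Nat.card K) (k + 1) k)
    (gb_pos _ (by omega)) ?_ ?_ (A ∩ lev K V k) (lev K V (k + 1) \ A)
    Finset.inter_subset_right Finset.sdiff_subset ?_
  · have e : (lev K V (k + 1)).card = cnt A (k + 1) + (lev K V (k + 1) \ A).card := by
      unfold cnt
      rw [Finset.inter_comm, Finset.card_inter_add_card_sdiff]
    unfold cnt at *
    nlinarith [this, e]
  · intro X hX
    rw [mem_lev] at hX
    have := card_ge X (k + 1) (by omega)
    rw [hX, show k + 1 - k = 1 by omega] at this
    rw [← this, ← card_filter_eq, lev, Finset.filter_filter]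
  · intro Y hY
    rw [mem_lev] at hY
    have := card_le Y k
    rw [hY] at this
    rw [← this, ← card_filter_eq, lev, Finset.filter_filter]
  · intro X hX Y hY hXY
    rw [Finset.mem_sdiff] at hY
    exact hY.2 (h X (Finset.mem_inter.1 hX).1 Y hXY)

end Pool.Agent.helper15.Sub
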