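import Mathlib
import Pool.Agent.helper15.Sub.Level

/-! # The weight argument -/

namespace Pool.Agent.helper15.Sub

open Module
open scoped Classical

theorem step_bound (t d : ℕ) (α g : ℕ → ℚ) (h1 : ∀ k, t ≤ k → k < d → α k ≤ 1)
    (h0 : ∀ k, t ≤ k → k < d → 0 ≤ α k)
    (hm : ∀ k, t ≤ k → k + 1 < d → α k ≤ α (k + 1))
    (hg : ∀ k, t ≤ k → k + 1 < d → g k < 0 → g (k + 1) < 0) :
    ∑ k ∈ Finset.Ico t d, α k * g k ≤ max 0 (∑ k ∈ Finset.Ico t d, g k) := by
  by_cases h : ∃ k, t ≤ k ∧ k < d ∧ g k < 0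
  · obtain ⟨ht, hd, hk⟩ := Nat.find_spec h
    have hmin := fun m hm => @Nat.find_min _ _ h m hm
    set k0 := Nat.find h
    have hneg : ∀ j, k0 + j < d → g (k0 + j) < 0 := by
      intro j
      induction j with
      | zero => intro _; exact hk
      | succ j ih => intro hj; exact hg (k0 + j) (by omega) (by omega) (ih (by omega))
    have hmono : ∀ i j, t ≤ i → i + j < d → α i ≤ α (i + j) := by
      intro i j hi
      induction j with
      | zero => intro _; exact le_rfl
      | succ j ih => intro hj; exact (ih (by omega)).trans (hm (i + j) (by omega) (by omega))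
    have hsum : ∑ k ∈ Finset.Ico t d, α k * g k ≤ ∑ k ∈ Finset.Ico t d, α k0 * g k := by
      apply Finset.sum_le_sum
      intro k hk'
      rw [Finset.mem_Ico] at hk'
      rcases Nat.lt_or_ge k k0 with h2 | h2
      · have h3 : 0 ≤ g k := by
          by_contra h4
          exact hmin k h2 ⟨hk'.1, hk'.2, by linarith⟩
        have h4 := hmono k (k0 - k) hk'.1 (by omega)
        rw [show k + (k0 - k) = k0 by omega] at h4
        exact mul_le_mul_of_nonneg_right h4 h3
      · have h3 := hneg (k - k0) (by omega)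
        have h4 := hmono k0 (k - k0) ht (by omega)
        rw [show k0 + (k - k0) = k by omega] at h3 h4
        exact mul_le_mul_of_nonpos_right h4 h3.le
    refine hsum.trans ?_
    rw [← Finset.mul_sum]
    have ha0 := h0 k0 ht hd
    have ha1 := h1 k0 ht hd
    rcases le_or_gt 0 (∑ k ∈ Finset.Ico t d, g k) with h2 | h2
    · exact (mul_le_of_le_one_left h2 ha1).trans (le_max_right _ _)
    · exact (mul_nonpos_of_nonneg_of_nonpos ha0 h2.le).trans (le_max_left _ _)
  · push Not at h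
    refine le_trans ?_ (le_max_right _ _)
    apply Finset.sum_le_sum
    intro k hk
    rw [Finset.mem_Ico] at hk
    exact mul_le_of_le_one_left (h k hk.1 hk.2) (h1 k hk.1 hk.2)

/-- The number of subspaces of dimension at least `s`. -/
def tail (q n s : ℕ) : ℕ := ∑ k ∈ Finset.Ico s (n + 1), gb q n k

theorem ratio_mono {q : ℕ} (hq : 2 ≤ q) (n t k c : ℕ) (ht : 1 ≤ t) (htk : t ≤ k) (hk : k + 1 ≤ n)
    (h : (gb q n k : ℚ) - c * gb q n (n + t - 1 - k) < 0) :
    (gb q n (k + 1) : ℚ) - c * gb q n (n + t - 1 - (k + 1)) < 0 := by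
  obtain ⟨m, rfl⟩ : ∃ m, n = k + 1 + m := ⟨n - (k + 1), by omega⟩
  obtain ⟨s, rfl⟩ : ∃ s, t = s + 1 := ⟨t - 1, by omega⟩
  obtain ⟨l, rfl⟩ : ∃ l, k = s + 1 + l := ⟨k - (s + 1), by omega⟩
  have h1 := gb_absorb hq (s + 1 + l + 1 + m) (s + 1 + l) (by omega)
  have h2 := gb_absorb hq (s + 1 + l + 1 + m) (m + s) (by omega)
  rw [show s + 1 + l + 1 + m - (s + 1 + l) = m + 1 by omega] at h1
  rw [show s + 1 + l + 1 + m + (s + 1) - 1 - (s + 1 + l) = m + s + 1 by omega] at h
  rw [show s + 1 + l + 1 + m + (s + 1) - 1 - (s + 1 + l + 1) = m + s by omega]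
  rw [show s + 1 + l + 1 + m - (m + s) = l + 1 + 1 by omega] at h2
  set N := s + 1 + l + 1 + m
  have hqq : (2 : ℚ) ≤ q := by exact_mod_cast hq
  have h1' : (gb q N (s + 1 + l + 1) : ℚ) * ((q : ℚ) ^ (s + 1 + l + 1) - 1) =
    gb q N (s + 1 + l) * ((q : ℚ) ^ (m + 1) - 1) := by exact_mod_cast h1
  have h2' : (gb q N (m + s + 1) : ℚ) * ((q : ℚ) ^ (m + s + 1) - 1) =
    gb q N (m + s) * ((q : ℚ) ^ (l + 1 + 1) - 1) := by exact_mod_cast h2
  have pos : ∀ j : ℕ, (0 : ℚ) < (q : ℚ) ^ (j + 1) - 1 := by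
    intro j
    have : (1 : ℚ) < (q : ℚ) ^ (j + 1) := one_lt_pow₀ (by linarith) (by omega)
    linarith
  have m1 : (q : ℚ) ^ (l + 1 + 1) - 1 ≤ (q : ℚ) ^ (s + 1 + l + 1) - 1 := by
    have : (q : ℚ) ^ (l + 1 + 1) ≤ (q : ℚ) ^ (s + 1 + l + 1) :=
      pow_le_pow_right₀ (by linarith) (by omega)
    linarith
  have m2 : (q : ℚ) ^ (m + 1) - 1 ≤ (q : ℚ) ^ (m + s + 1) - 1 := by
    have : (q : ℚ) ^ (m + 1) ≤ (q : ℚ) ^ (m + s + 1) := pow_le_pow_right₀ (by linarith) (by omega)
    linarith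
  have p1 := pos (s + 1 + l)
  have p2 := pos (l + 1)
  have p3 := pos m
  have p4 := pos (m + s)
  have hc : (0 : ℚ) ≤ c := by positivity
  have g1 : (0 : ℚ) ≤ gb q N (m + s + 1) := by positivity
  have g2 : (0 : ℚ) ≤ gb q N (m + s) := by positivity
  have step1 : (gb q N (s + 1 + l + 1) : ℚ) * ((q : ℚ) ^ (s + 1 + l + 1) - 1) <
      (c * gb q N (m + s)) * ((q : ℚ) ^ (s + 1 + l + 1) - 1) := by
    calc (gb q N (s + 1 + l + 1) : ℚ) * ((q : ℚ) ^ (s + 1 + l + 1) - 1)
        = gb q N (s + 1 + l) * ((q : ℚ) ^ (m + 1) - 1) := h1'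
      _ < (c * gb q N (m + s + 1)) * ((q : ℚ) ^ (m + 1) - 1) := by
          apply mul_lt_mul_of_pos_right _ p3; linarith
      _ ≤ (c * gb q N (m + s + 1)) * ((q : ℚ) ^ (m + s + 1) - 1) :=
          mul_le_mul_of_nonneg_left m2 (mul_nonneg hc g1)
      _ = (c * gb q N (m + s)) * ((q : ℚ) ^ (l + 1 + 1) - 1) := by
          rw [mul_assoc, h2', mul_assoc]
      _ ≤ (c * gb q N (m + s)) * ((q : ℚ) ^ (s + 1 + l + 1) - 1) :=
          mul_le_mul_of_nonneg_left m1 (mul_nonneg hc g2)
  have := lt_of_mul_lt_mul_right step1 p1.le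
  linarith

variable {K V : Type} [Field K] [Finite K] [AddCommGroup V] [Module K V] [Finite V]

theorem cnt_eq_zero {A : Finset (Submodule K V)} {k : ℕ} (h : ∀ X ∈ A, finrank K X ≠ k) :
    cnt A k = 0 := by
  unfold cnt
  rw [Finset.card_eq_zero, Finset.eq_empty_iff_forall_notMem]
  intro X hX
  rw [Finset.mem_inter, mem_lev] at hX
  exact h X hX.1 hX.2

theorem Cross.le_finrank {t : ℕ} {A B : Finset (Submodule K V)} (h : Cross t A B)
    (hB : B.Nonempty) : ∀ X ∈ A, t ≤ finrank K X := by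
  intro X hX
  obtain ⟨Y, hY⟩ := hB
  exact (h X hX Y hY).trans (Submodule.finrank_mono inf_le_left)

theorem card_eq_sum_Ico (A : Finset (Submodule K V)) (s : ℕ) (hs : s ≤ finrank K V + 1)
    (h : ∀ X ∈ A, s ≤ finrank K X) :
    A.card = ∑ k ∈ Finset.Ico s (finrank K V + 1), cnt A k := by
  rw [card_eq_sum_cnt, Finset.range_eq_Ico, ← Finset.sum_Ico_consecutive _ (Nat.zero_le s) hs,
    Finset.sum_eq_zero, zero_add]
  intro k hk
  rw [Finset.mem_Ico] at hk
  exact cnt_eq_zero fun X hX h' => by have := h X hX; omega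

theorem weight_bound (t d c : ℕ) (ht : 1 ≤ t) (htd : t ≤ d) (hd : d ≤ finrank K V)
    (A B : Finset (Submodule K V)) (hUp : Up A) (hA : A.Nonempty) (hB : B.Nonempty)
    (hX : Cross t A B) (hBd : ∀ Y ∈ B, finrank K V + t - d ≤ finrank K Y) :
    A.card + c * B.card ≤
      max (tail (Nat.card K) (finrank K V) d +
          c * tail (Nat.card K) (finrank K V) (finrank K V + t - d))
        (tail (Nat.card K) (finrank K V) t + c) := by
  have hq := two_le_card K
  set n := finrank K V with hn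
  set q := Nat.card K with hqd
  have hAt := hX.le_finrank hB
  have hcA := card_eq_sum_Ico A t (by omega) hAt
  have hcB := card_eq_sum_Ico B (n + t - d) (by omega) hBd
  rw [← hn] at hcA hcB
  let N : ℕ → ℚ := fun k => (gb q n k : ℚ)
  have hN : ∀ k, k ≤ n → 0 < N k := fun k hk => by
    have := gb_pos q hk
    show (0 : ℚ) < (gb q n k : ℚ)
    exact_mod_cast this
  let α : ℕ → ℚ := fun k => (cnt A k : ℚ) / N k
  have hα : ∀ k, k ≤ n → α k * N k = cnt A k := fun k hk => div_mul_cancel₀ _ (hN k hk).ne'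
  have hα1 : ∀ k, k ≤ n → α k ≤ 1 := by
    intro k hk
    show (cnt A k : ℚ) / N k ≤ 1
    rw [div_le_one (hN k hk)]
    show (cnt A k : ℚ) ≤ (gb q n k : ℚ)
    exact_mod_cast cnt_le A k
  have hα0 : ∀ k, k ≤ n → 0 ≤ α k := fun k hk => div_nonneg (by positivity) (hN k hk).le
  have hαm : ∀ k, k + 1 ≤ n → α k ≤ α (k + 1) := by
    intro k hk
    show (cnt A k : ℚ) / N k ≤ (cnt A (k + 1) : ℚ) / N (k + 1)
    rw [div_le_div_iff₀ (hN k (by omega)) (hN (k + 1) hk)]
    show (cnt A k : ℚ) * (gb q n (k + 1) : ℚ) ≤ (cnt A (k + 1) : ℚ) * (gb q n k : ℚ)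
    exact_mod_cast up_pair A hUp k hk
  have hstep := step_bound t d α (fun k => N k - c * N (n + t - 1 - k))
    (fun k _ hk => hα1 k (by omega)) (fun k _ hk => hα0 k (by omega))
    (fun k _ hk => hαm k (by omega))
    (fun k h1 h2 h3 => ratio_mono hq n t k c ht h1 (by omega) h3)
  -- bound for A
  have bA : (A.card : ℚ) ≤ ∑ k ∈ Finset.Ico t d, α k * N k + tail q n d := by
    rw [hcA, ← Finset.sum_Ico_consecutive _ htd (by omega : d ≤ n + 1)]
    push_cast
    apply add_le_add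
    · apply Finset.sum_le_sum
      intro k hk
      rw [Finset.mem_Ico] at hk
      rw [hα k (by omega)]
    · unfold tail
      push_cast
      apply Finset.sum_le_sum
      intro k _
      exact_mod_cast cnt_le A k
  have hrefl : ∀ f : ℕ → ℚ, ∑ k ∈ Finset.Ico (n + t - d) n, f k =
      ∑ k ∈ Finset.Ico t d, f (n + t - 1 - k) := by
    intro f
    rw [Finset.sum_Ico_reflect f t (by omega : d ≤ n + t - 1 + 1)]
    rw [show n + t - 1 + 1 - d = n + t - d by omega, show n + t - 1 + 1 - t = n by omega]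
  have hn1 : gb q n n = 1 := gb_self q n
  have bB : (B.card : ℚ) ≤ ∑ k ∈ Finset.Ico t d, (1 - α k) * N (n + t - 1 - k) + 1 := by
    rw [hcB, Finset.sum_Ico_succ_top (by omega : n + t - d ≤ n)]
    push_cast
    apply add_le_add
    · rw [hrefl (fun k => (cnt B k : ℚ))]
      apply Finset.sum_le_sum
      intro k hk
      rw [Finset.mem_Ico] at hk
      have h1 := cross_pair t ht A B hX k (n + t - 1 - k) (by omega) (by omega) (by omega)
      have h2 : (cnt A k : ℚ) * N (n + t - 1 - k) + (cnt B (n + t - 1 - k) : ℚ) * N k ≤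
          N k * N (n + t - 1 - k) := by
        show (cnt A k : ℚ) * (gb q n (n + t - 1 - k) : ℚ) +
          (cnt B (n + t - 1 - k) : ℚ) * (gb q n k : ℚ) ≤
          (gb q n k : ℚ) * (gb q n (n + t - 1 - k) : ℚ)
        exact_mod_cast h1
      have hp := hN k (by omega)
      rw [← hα k (by omega)] at h2
      have : (cnt B (n + t - 1 - k) : ℚ) * N k ≤ ((1 - α k) * N (n + t - 1 - k)) * N k := by
        linarith
      exact le_of_mul_le_mul_right this hp
    · have h := cnt_le B n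
      rw [← hn, hn1] at h
      exact_mod_cast h
  have hT : (tail q n (n + t - d) : ℚ) = ∑ k ∈ Finset.Ico t d, N (n + t - 1 - k) + 1 := by
    unfold tail
    rw [Finset.sum_Ico_succ_top (by omega : n + t - d ≤ n)]
    push_cast
    rw [hn1, hrefl (fun k => (gb q n k : ℚ))]
    simp [N]
  have hTt : (tail q n t : ℚ) = ∑ k ∈ Finset.Ico t d, N k + tail q n d := by
    unfold tail
    rw [← Finset.sum_Ico_consecutive _ htd (by omega : d ≤ n + 1)]
    push_cast
    rfl
  have hc : (0 : ℚ) ≤ c := by positivity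
  have key : (A.card : ℚ) + c * B.card ≤ tail q n d + c * tail q n (n + t - d) +
      ∑ k ∈ Finset.Ico t d, α k * (N k - c * N (n + t - 1 - k)) := by
    have e1 : ∑ k ∈ Finset.Ico t d, α k * (N k - c * N (n + t - 1 - k)) =
        ∑ k ∈ Finset.Ico t d, α k * N k - c * ∑ k ∈ Finset.Ico t d, α k * N (n + t - 1 - k) := by
      rw [Finset.mul_sum, ← Finset.sum_sub_distrib]
      apply Finset.sum_congr rfl; intro k _; ring
    have e2 : ∑ k ∈ Finset.Ico t d, (1 - α k) * N (n + t - 1 - k) =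
        ∑ k ∈ Finset.Ico t d, N (n + t - 1 - k) - ∑ k ∈ Finset.Ico t d, α k * N (n + t - 1 - k) := by
      rw [← Finset.sum_sub_distrib]
      apply Finset.sum_congr rfl; intro k _; ring
    rw [e1, hT]
    rw [e2] at bB
    have := mul_le_mul_of_nonneg_left bB hc
    linarith
  have final : (A.card : ℚ) + c * B.card ≤
      max ((tail q n d : ℚ) + c * tail q n (n + t - d)) (tail q n t + c) := by
    rcases le_max_iff.1 hstep with h | h
    · apply le_max_of_le_left; linarith
    · apply le_max_of_le_right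
      rw [Finset.sum_sub_distrib, ← Finset.mul_sum] at h
      have e3 : (c : ℚ) * tail q n (n + t - d) = c * ∑ k ∈ Finset.Ico t d, N (n + t - 1 - k) + c := by
        rw [hT]; ring
      linarith
  exact_mod_cast final

end Pool.Agent.helper15.Sub
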