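import Mathlib
import Pool.Agent.helper15.Sub.Weight

/-! # Bounds for families all of whose members meet a fixed subspace in dimension at least `t` -/

namespace Pool.Agent.helper15.Sub

open Module
open scoped Classical

variable {K V : Type} [Field K] [Finite K] [AddCommGroup V] [Module K V] [Finite V]

theorem exists_sup (X : Submodule K V) (k : ℕ) (h1 : finrank K X ≤ k) (h2 : k ≤ finrank K V) :
    ∃ Y : Submodule K V, X ≤ Y ∧ finrank K Y = k := by
  have h := card_ge X k h1
  have hp := gb_pos (Nat.card K) (n := finrank K V - finrank K X) (k := k - finrank K X) (by omega)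
  rw [← h] at hp
  have := (Nat.card_pos_iff.1 hp).1
  obtain ⟨Y, hY⟩ := this
  exact ⟨Y, hY.2, hY.1⟩

theorem exists_sub (W : Submodule K V) (i : ℕ) (h1 : i ≤ finrank K W) :
    ∃ I : Submodule K V, I ≤ W ∧ finrank K I = i := by
  have h := card_le W i
  have hp := gb_pos (Nat.card K) h1
  rw [← h] at hp
  have := (Nat.card_pos_iff.1 hp).1
  obtain ⟨Y, hY⟩ := this
  exact ⟨Y, hY.2, hY.1⟩

/-- `A` consists of subspaces meeting `W` in dimension at least `t`. -/
def Hits (t : ℕ) (W : Submodule K V) (A : Finset (Submodule K V)) : Prop :=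
  ∀ U ∈ A, t ≤ finrank K (U ⊓ W : Submodule K V)

theorem Cross.hits {t : ℕ} {A B : Finset (Submodule K V)} (h : Cross t A B) {W : Submodule K V}
    (hW : W ∈ B) : Hits t W A := fun U hU => h U hU W hW

theorem cnt_union (t : ℕ) (W : Submodule K V) (A : Finset (Submodule K V)) (h : Hits t W A)
    (k : ℕ) (hk : t ≤ k) :
    cnt A k ≤ gb (Nat.card K) (finrank K W) t * gb (Nat.card K) (finrank K V - t) (k - t) := by
  let T : Finset (Submodule K V) := Finset.univ.filter (fun I => finrank K I = t ∧ I ≤ W)
  have hT : T.card = gb (Nat.card K) (finrank K W) t := by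
    rw [card_filter_eq, card_le]
  have hsub : A ∩ lev K V k ⊆ T.biUnion (fun I => Finset.univ.filter
      (fun U => finrank K U = k ∧ I ≤ U)) := by
    intro U hU
    rw [Finset.mem_inter, mem_lev] at hU
    obtain ⟨I, hI, hIt⟩ := exists_sub (U ⊓ W) t (h U hU.1)
    rw [Finset.mem_biUnion]
    refine ⟨I, ?_, ?_⟩
    · simp only [T, Finset.mem_filter, Finset.mem_univ, true_and]
      exact ⟨hIt, hI.trans inf_le_right⟩
    · simp only [Finset.mem_filter, Finset.mem_univ, true_and]
      exact ⟨hU.2, hI.trans inf_le_left⟩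
  unfold cnt
  refine (Finset.card_le_card hsub).trans ?_
  refine Finset.card_biUnion_le.trans ?_
  rw [← hT]
  have : ∀ I ∈ T, (Finset.univ.filter (fun U : Submodule K V => finrank K U = k ∧ I ≤ U)).card ≤
      gb (Nat.card K) (finrank K V - t) (k - t) := by
    intro I hI
    simp only [T, Finset.mem_filter, Finset.mem_univ, true_and] at hI
    rw [card_filter_eq, card_ge I k (by omega), hI.1]
  exact (Finset.sum_le_sum this).trans (by simp)

theorem cnt_compl (t : ℕ) (ht : 1 ≤ t) (W : Submodule K V) (A : Finset (Submodule K V))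
    (h : Hits t W A) (k : ℕ) (hk : k ≤ finrank K V)
    (hkk : finrank K W + k + 1 = finrank K V + t) :
    cnt A k + gb (Nat.card K) (finrank K W) (t - 1) *
      (Nat.card K) ^ ((finrank K W - (t - 1)) * (k - (t - 1))) ≤
      gb (Nat.card K) (finrank K V) k := by
  have hd := degree t ht (finrank K W) k (Submodule.finrank_le W) hk hkk W rfl
  rw [← hd, ← lev_card (K := K) (V := V) k]
  unfold cnt
  rw [← Finset.card_union_of_disjoint]
  · apply Finset.card_le_card
    apply Finset.union_subset Finset.inter_subset_right (Finset.filter_subset _ _)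
  · rw [Finset.disjoint_left]
    intro U hU hU'
    rw [Finset.mem_inter] at hU
    rw [Finset.mem_filter] at hU'
    have := h U hU.1
    omega

theorem sum_shift (f : ℕ → ℕ) (t m : ℕ) :
    ∑ k ∈ Finset.Ico t (t + m), f (k - t) = ∑ j ∈ Finset.range m, f j := by
  rw [Finset.sum_Ico_eq_sum_range, Nat.add_sub_cancel_left]
  apply Finset.sum_congr rfl
  intro j _
  rw [Nat.add_sub_cancel_left]

theorem tail_succ (q n s : ℕ) (h : s ≤ n) : tail q n s = gb q n s + tail q n (s + 1) := by
  unfold tail
  rw [Finset.sum_eq_sum_Ico_succ_bot (by omega)]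

theorem sum_cnt_le_tail (A : Finset (Submodule K V)) (s : ℕ) :
    ∑ k ∈ Finset.Ico s (finrank K V + 1), cnt A k ≤ tail (Nat.card K) (finrank K V) s :=
  Finset.sum_le_sum fun k _ => cnt_le A k

/-- Summary bound: union bound for dimensions below `p`, complement bound in dimension `p`. -/
theorem hits_bound (t : ℕ) (ht : 1 ≤ t) (W : Submodule K V) (A : Finset (Submodule K V))
    (h : Hits t W A) (p : ℕ) (hp : p ≤ finrank K V) (htp : t ≤ p)
    (hkk : finrank K W + p + 1 = finrank K V + t) :
    A.card + gb (Nat.card K) (finrank K W) (t - 1) *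
      (Nat.card K) ^ ((finrank K W - (t - 1)) * (p - (t - 1))) ≤
      gb (Nat.card K) (finrank K W) t *
        ∑ j ∈ Finset.range (p - t), gb (Nat.card K) (finrank K V - t) j +
      tail (Nat.card K) (finrank K V) p := by
  have hA : ∀ X ∈ A, t ≤ finrank K X := fun X hX =>
    (h X hX).trans (Submodule.finrank_mono inf_le_left)
  rw [card_eq_sum_Ico A t (by omega) hA, ← Finset.sum_Ico_consecutive _ htp (by omega),
    tail_succ _ _ _ hp, Finset.sum_eq_sum_Ico_succ_bot (by omega : p < finrank K V + 1)]
  have h1 := cnt_compl t ht W A h p hp hkk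
  have h2 := sum_cnt_le_tail A (p + 1)
  have h3 : ∑ k ∈ Finset.Ico t p, cnt A k ≤ gb (Nat.card K) (finrank K W) t *
        ∑ j ∈ Finset.range (p - t), gb (Nat.card K) (finrank K V - t) j := by
    rw [← sum_shift _ t (p - t), show t + (p - t) = p by omega, Finset.mul_sum]
    apply Finset.sum_le_sum
    intro k hk
    rw [Finset.mem_Ico] at hk
    exact cnt_union t W A h k hk.1
  omega

end Pool.Agent.helper15.Sub
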