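import Mathlib
import Pool.Agent.helper15.Sub.Level

/-! # Eigenvalues of the disjointness matrix on `r`-dimensional subspaces -/

namespace Pool.Agent.helper15.Sub

open Module
open scoped Classical

/-! ## Linear algebra -/

theorem exists_decomp {m n : Type} [Fintype m] [Fintype n] (A : Matrix m n ℝ) (g : m → ℝ) :
    ∃ (e : n → ℝ) (h : m → ℝ), g = A.mulVec e + h ∧ A.transpose.mulVec h = 0 := by
  have h1 : LinearMap.range (A.transpose * A).mulVecLin = LinearMap.range A.transpose.mulVecLin := by
    apply Submodule.eq_of_le_of_finrank_eq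
    · rw [Matrix.mulVecLin_mul]
      exact LinearMap.range_comp_le_range _ _
    · have := Matrix.rank_transpose_mul_self A
      have h2 := Matrix.rank_transpose A
      unfold Matrix.rank at this h2
      rw [this, h2]
  have h2 : A.transpose.mulVec g ∈ LinearMap.range (A.transpose * A).mulVecLin := by
    rw [h1]; exact ⟨g, rfl⟩
  obtain ⟨e, he⟩ := h2
  refine ⟨e, g - A.mulVec e, by simp, ?_⟩
  rw [Matrix.mulVec_sub, Matrix.mulVec_mulVec]
  rw [Matrix.mulVecLin_apply] at he
  rw [he, sub_self]

/-! ## q-binomial theorem at `-1` -/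

theorem tri_succ (i : ℕ) : (i + 1) * (i + 1 - 1) / 2 = i * (i - 1) / 2 + i := by
  have : (i + 1) * (i + 1 - 1) = i * (i - 1) + 2 * i := by
    cases i with
    | zero => rfl
    | succ k => simp; ring
  rw [this, Nat.add_mul_div_left _ _ (by norm_num)]

/-- Moebius numbers -/
def mob (q i : ℕ) : ℤ := (-1) ^ i * (q : ℤ) ^ (i * (i - 1) / 2)

theorem mob_succ (q i : ℕ) : mob q (i + 1) = - mob q i * (q : ℤ) ^ i := by
  unfold mob
  rw [tri_succ, pow_add, pow_succ]; ring

theorem sum_mob (q m : ℕ) :
    ∑ i ∈ Finset.range (m + 1), mob q i * gb q m i = if m = 0 then 1 else 0 := by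
  cases m with
  | zero => simp [mob]
  | succ m =>
    rw [if_neg (by omega), Finset.sum_range_succ']
    have h1 : ∀ i, mob q (i + 1) * (gb q (m + 1) (i + 1) : ℤ) =
        - (mob q i * (q : ℤ) ^ i * gb q m i) + mob q (i + 1) * (q : ℤ) ^ (i + 1) * gb q m (i + 1) := by
      intro i
      rw [gb_succ, mob_succ]; push_cast; ring
    rw [Finset.sum_congr rfl (fun i _ => h1 i), Finset.sum_add_distrib, Finset.sum_neg_distrib]
    have h2 : ∑ i ∈ Finset.range (m + 1), mob q (i + 1) * (q : ℤ) ^ (i + 1) * (gb q m (i + 1) : ℤ) =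
        ∑ i ∈ Finset.range (m + 1), mob q i * (q : ℤ) ^ i * gb q m i -
          mob q 0 * (q : ℤ) ^ 0 * gb q m 0 := by
      have h3 := Finset.sum_range_succ' (fun i => mob q i * (q : ℤ) ^ i * (gb q m i : ℤ)) (m + 1)
      have h4 := Finset.sum_range_succ (fun i => mob q i * (q : ℤ) ^ i * (gb q m i : ℤ)) (m + 1)
      rw [gb_eq_zero q (Nat.lt_succ_self m)] at h4
      simp only [Nat.cast_zero, mul_zero, add_zero] at h4
      rw [h4] at h3
      linarith
    rw [h2]
    simp only [mob, pow_zero, Nat.zero_sub, mul_zero, Nat.zero_div, gb_zero, Nat.cast_one, mul_one]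
    ring

variable {K V : Type} [Field K] [Finite K] [AddCommGroup V] [Module K V] [Finite V]

theorem sum_mob_le (I : Submodule K V) :
    ∑ U ∈ Finset.univ.filter (fun U : Submodule K V => U ≤ I), mob (Nat.card K) (finrank K U) =
      if I = ⊥ then 1 else 0 := by
  have h1 : ∀ U ∈ Finset.univ.filter (fun U : Submodule K V => U ≤ I),
      finrank K U ∈ Finset.range (finrank K I + 1) := by
    intro U hU
    rw [Finset.mem_filter] at hU
    rw [Finset.mem_range]
    exact Nat.lt_succ_of_le (Submodule.finrank_mono hU.2)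
  rw [← Finset.sum_fiberwise_of_maps_to h1]
  have h2 : ∀ i ∈ Finset.range (finrank K I + 1),
      ∑ U ∈ (Finset.univ.filter (fun U : Submodule K V => U ≤ I)).filter
        (fun U : Submodule K V => finrank K U = i), mob (Nat.card K) (finrank K U) =
      mob (Nat.card K) i * gb (Nat.card K) (finrank K I) i := by
    intro i _
    rw [Finset.sum_congr rfl (g := fun _ => mob (Nat.card K) i)
      (fun U hU => by rw [(Finset.mem_filter.1 hU).2])]
    have e : Nat.card {U : Submodule K V // U ≤ I ∧ finrank K U = i} =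
        Nat.card {U : Submodule K V // finrank K U = i ∧ U ≤ I} :=
      Nat.card_congr (Equiv.subtypeEquivRight fun U => And.comm)
    rw [Finset.sum_const, Finset.filter_filter, card_filter_eq, ← card_le I i, nsmul_eq_mul, mul_comm,
      e]
  rw [Finset.sum_congr rfl h2, sum_mob]
  congr 1
  rw [Submodule.finrank_eq_zero]

/-! ## The operators -/

/-- The disjointness matrix on `r`-dimensional subspaces. -/
noncomputable def dm (K V : Type) [Field K] [AddCommGroup V] [Module K V] (r : ℕ) :
    Matrix (Submodule K V) (Submodule K V) ℝ :=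
  Matrix.of fun X Y => if finrank K X = r ∧ finrank K Y = r ∧ X ⊓ Y = ⊥ then 1 else 0

/-- `(up r j g)(X)`: the sum of `g` over the `j`-dimensional subspaces of `X`. -/
noncomputable def up (r j : ℕ) (g : Submodule K V → ℝ) : Submodule K V → ℝ := fun X =>
  if finrank K X = r then ∑ Z ∈ Finset.univ.filter (fun Z : Submodule K V =>
    finrank K Z = j ∧ Z ≤ X), g Z else 0

/-- Harmonic functions on the `j`-dimensional subspaces. -/
def Harm (j : ℕ) (h : Submodule K V → ℝ) : Prop := ∀ Y : Submodule K V, finrank K Y < j →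
  ∑ Z ∈ Finset.univ.filter (fun Z : Submodule K V => finrank K Z = j ∧ Y ≤ Z), h Z = 0

theorem harm_sum (j : ℕ) (h : Submodule K V → ℝ) (hh : Harm j h) (X : Submodule K V) :
    ∑ Z ∈ Finset.univ.filter (fun Z : Submodule K V => finrank K Z = j ∧ Z ⊓ X = ⊥), h Z =
      (mob (Nat.card K) j : ℝ) *
        ∑ Z ∈ Finset.univ.filter (fun Z : Submodule K V => finrank K Z = j ∧ Z ≤ X), h Z := by
  have h1 : ∑ Z ∈ Finset.univ.filter (fun Z : Submodule K V => finrank K Z = j ∧ Z ⊓ X = ⊥), h Z =
      ∑ Z ∈ Finset.univ.filter (fun Z : Submodule K V => finrank K Z = j),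
        ∑ U ∈ Finset.univ.filter (fun U : Submodule K V => U ≤ X),
          (if U ≤ Z then (mob (Nat.card K) (finrank K U) : ℝ) * h Z else 0) := by
    rw [← Finset.filter_filter, Finset.sum_filter]
    apply Finset.sum_congr rfl
    intro Z _
    have h2 := sum_mob_le (K := K) (V := V) (Z ⊓ X)
    rw [← Finset.sum_filter, Finset.filter_filter, ← Finset.sum_mul]
    have h3 : (Finset.univ.filter (fun U : Submodule K V => U ≤ X ∧ U ≤ Z)) =
        Finset.univ.filter (fun U : Submodule K V => U ≤ Z ⊓ X) := by
      ext U; simp only [Finset.mem_filter, Finset.mem_univ, true_and, le_inf_iff]; tauto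
    rw [h3]
    have h4 : ∑ U ∈ Finset.univ.filter (fun U : Submodule K V => U ≤ Z ⊓ X),
        (mob (Nat.card K) (finrank K U) : ℝ) = if Z ⊓ X = ⊥ then 1 else 0 := by
      have := congrArg (fun z : ℤ => (z : ℝ)) h2
      push_cast at this
      exact this
    rw [h4]
    split_ifs <;> simp
  rw [h1, Finset.sum_comm]
  have h5 : ∀ U ∈ Finset.univ.filter (fun U : Submodule K V => U ≤ X),
      ∑ Z ∈ Finset.univ.filter (fun Z : Submodule K V => finrank K Z = j),
        (if U ≤ Z then (mob (Nat.card K) (finrank K U) : ℝ) * h Z else 0) =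
      if finrank K U = j then (mob (Nat.card K) j : ℝ) * h U else 0 := by
    intro U _
    rw [← Finset.sum_filter, Finset.filter_filter, ← Finset.mul_sum]
    rcases lt_trichotomy (finrank K U) j with hlt | heq | hgt
    · rw [hh U hlt, mul_zero, if_neg hlt.ne]
    · rw [if_pos heq, heq]
      congr 1
      have : (Finset.univ.filter (fun Z : Submodule K V => finrank K Z = j ∧ U ≤ Z)) = {U} := by
        ext Z
        simp only [Finset.mem_filter, Finset.mem_univ, true_and, Finset.mem_singleton]
        constructor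
        · rintro ⟨h6, h7⟩
          exact (Submodule.eq_of_le_of_finrank_eq h7 (by rw [heq, h6])).symm
        · rintro rfl; exact ⟨heq, le_rfl⟩
      rw [this, Finset.sum_singleton]
    · rw [if_neg hgt.ne']
      have : (Finset.univ.filter (fun Z : Submodule K V => finrank K Z = j ∧ U ≤ Z)) = ∅ := by
        rw [Finset.filter_eq_empty_iff]
        rintro Z - ⟨h6, h7⟩
        have := Submodule.finrank_mono h7
        omega
      rw [this, Finset.sum_empty, mul_zero]
  rw [Finset.sum_congr rfl h5, ← Finset.sum_filter, Finset.filter_filter, Finset.mul_sum]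
  apply Finset.sum_congr _ (fun _ _ => rfl)
  ext U
  simp only [Finset.mem_filter, Finset.mem_univ, true_and]
  tauto

/-- number of `r`-spaces through `Z` disjoint from `X` -/
theorem card_through (X Z : Submodule K V) (r j : ℕ) (hX : finrank K X = r) (hZ : finrank K Z = j)
    (hj : j ≤ r) (h : Z ⊓ X = ⊥) :
    (Finset.univ.filter (fun Y : Submodule K V => finrank K Y = r ∧ X ⊓ Y = ⊥ ∧ Z ≤ Y)).card =
      (Nat.card K) ^ (r * (r - j)) * gb (Nat.card K) (finrank K V - r - j) (r - j) := by
  have hW : finrank K (X ⊔ Z : Submodule K V) = r + j := by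
    have := Submodule.finrank_sup_add_finrank_inf_eq X Z
    rw [inf_comm, h] at this
    simp at this
    omega
  have hc := card_inf_eq (X ⊔ Z) Z le_sup_right r (by omega)
  rw [hW, hZ, show r + j - j = r by omega, show finrank K V - (r + j) = finrank K V - r - j by omega]
    at hc
  rw [card_filter_eq, ← hc]
  apply Nat.card_congr
  apply Equiv.subtypeEquivRight
  intro Y
  constructor
  · rintro ⟨h1, h2, h3⟩
    refine ⟨h1, ?_⟩
    apply le_antisymm
    · rw [inf_comm, sup_comm]
      have h4 : (Z ⊔ X) ⊓ Y = Z ⊔ X ⊓ Y := sup_inf_assoc_of_le X h3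
      rw [h4, h2]; simp
    · exact le_inf h3 le_sup_right
  · rintro ⟨h1, h2⟩
    have h3 : Z ≤ Y := by rw [← h2]; exact inf_le_left
    refine ⟨h1, ?_, h3⟩
    rw [eq_bot_iff, ← h]
    apply le_inf _ inf_le_left
    rw [← h2]
    exact le_inf inf_le_right (inf_le_left.trans le_sup_left)

/-- absolute values of the eigenvalues -/
def lam (q n r j : ℕ) : ℕ := q ^ (j * (j - 1) / 2 + r * (r - j)) * gb q (n - r - j) (r - j)

theorem eigen (r j : ℕ) (hj : j ≤ r) (h : Submodule K V → ℝ) (hh : Harm j h) :
    (dm K V r).mulVec (up r j h) =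
      ((-1) ^ j * (lam (Nat.card K) (finrank K V) r j : ℝ)) • up r j h := by
  funext X
  rw [Pi.smul_apply, smul_eq_mul]
  by_cases hX : finrank K X = r
  · have h1 : (dm K V r).mulVec (up r j h) X = ∑ Y ∈ Finset.univ.filter
        (fun Y : Submodule K V => finrank K Y = r ∧ X ⊓ Y = ⊥),
          ∑ Z ∈ Finset.univ.filter (fun Z : Submodule K V => finrank K Z = j),
            (if Z ≤ Y then h Z else 0) := by
      unfold Matrix.mulVec dotProduct dm
      rw [Finset.sum_filter]
      apply Finset.sum_congr rfl
      intro Y _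
      simp only [Matrix.of_apply, hX, true_and]
      split_ifs with hY
      · unfold up
        rw [if_pos hY.1, one_mul, ← Finset.filter_filter, Finset.sum_filter]
      · rw [zero_mul]
    rw [h1, Finset.sum_comm]
    have h2 : ∀ Z ∈ Finset.univ.filter (fun Z : Submodule K V => finrank K Z = j),
        ∑ Y ∈ Finset.univ.filter (fun Y : Submodule K V => finrank K Y = r ∧ X ⊓ Y = ⊥),
          (if Z ≤ Y then h Z else 0) =
        if Z ⊓ X = ⊥ then (((Nat.card K) ^ (r * (r - j)) *
          gb (Nat.card K) (finrank K V - r - j) (r - j) : ℕ) : ℝ) * h Z else 0 := by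
      intro Z hZ
      rw [Finset.mem_filter] at hZ
      rw [← Finset.sum_filter, Finset.filter_filter, Finset.sum_const, nsmul_eq_mul]
      split_ifs with hZX
      · rw [← card_through X Z r j hX hZ.2 hj hZX]
        congr 3
        ext Y; simp only [Finset.mem_filter, Finset.mem_univ, true_and]; tauto
      · have : (Finset.univ.filter (fun Y : Submodule K V => (finrank K Y = r ∧ X ⊓ Y = ⊥) ∧ Z ≤ Y))
            = ∅ := by
          rw [Finset.filter_eq_empty_iff]
          rintro Y - ⟨⟨_, h6⟩, h7⟩
          apply hZX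
          rw [eq_bot_iff, ← h6]
          exact le_inf inf_le_right (inf_le_left.trans h7)
        rw [this]; simp
    rw [Finset.sum_congr rfl h2, ← Finset.sum_filter, Finset.filter_filter, ← Finset.mul_sum,
      harm_sum j h hh X]
    unfold up lam mob
    rw [if_pos hX]
    push_cast
    rw [pow_add]
    ring
  · have h1 : (dm K V r).mulVec (up r j h) X = 0 := by
      unfold Matrix.mulVec dotProduct dm
      apply Finset.sum_eq_zero
      intro Y _
      simp [hX]
    rw [h1]
    unfold up
    rw [if_neg hX, mul_zero]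

end Pool.Agent.helper15.Sub
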