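import Mathlib
import Pool.Agent.helper15.Sub.Hoffman

/-! # Spectral decomposition and the resulting bound -/

namespace Pool.Agent.helper15.Sub

open Module
open scoped Classical

variable {K V : Type} [Field K] [Finite K] [AddCommGroup V] [Module K V] [Finite V]

theorem card_interval (Y X : Submodule K V) (hYX : Y ≤ X) (i j r : ℕ) (hY : finrank K Y = i)
    (hX : finrank K X = r) (hij : i ≤ j) :
    (Finset.univ.filter (fun Z : Submodule K V => (finrank K Z = j ∧ Z ≤ X) ∧ Y ≤ Z)).card =
      gb (Nat.card K) (r - i) (j - i) := by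
  have hY' : finrank K (Y.comap X.subtype) = i := by
    rw [← hY]; exact (Submodule.comapSubtypeEquivOfLe hYX).finrank_eq
  have h := card_ge (K := K) (V := X) (Y.comap X.subtype) j (by omega)
  rw [hX, hY'] at h
  rw [card_filter_eq, ← h]
  symm
  refine Nat.card_eq_of_bijective (fun U' => ⟨U'.1.map X.subtype, ⟨?_, ?_⟩, ?_⟩) ⟨?_, ?_⟩
  · exact (Submodule.finrank_map_subtype_eq X U'.1).trans U'.2.1
  · exact Submodule.map_subtype_le X U'.1
  · have h2 := Submodule.map_mono (f := X.subtype) U'.2.2
    rw [Submodule.map_comap_subtype, inf_eq_right.2 hYX] at h2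
    exact h2
  · intro a b hab
    apply Subtype.ext
    exact Submodule.map_injective_of_injective X.injective_subtype (congrArg Subtype.val hab)
  · rintro ⟨Z, ⟨hZ, hZX⟩, hYZ⟩
    have e : (Z.comap X.subtype).map X.subtype = Z := by
      rw [Submodule.map_comap_subtype]; exact inf_eq_right.2 hZX
    refine ⟨⟨Z.comap X.subtype, ?_, Submodule.comap_mono hYZ⟩, Subtype.ext e⟩
    rw [← hZ]; exact (Submodule.comapSubtypeEquivOfLe hZX).finrank_eq

variable (K V) in
/-- indicator function of the `r`-dimensional subspaces -/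
noncomputable def ind (r : ℕ) : Submodule K V → ℝ := fun X => if finrank K X = r then 1 else 0

variable (K V) in
/-- eigenvalues -/
noncomputable def ev (r i : ℕ) : ℝ := (-1) ^ i * (lam (Nat.card K) (finrank K V) r i : ℝ)

variable (K V) in
/-- the components -/
noncomputable def comp (r i : ℕ) : Submodule ℝ (Submodule K V → ℝ) :=
  if i = 0 then Submodule.span ℝ {ind K V r}
  else LinearMap.ker ((dm K V r).mulVecLin - ev K V r i • LinearMap.id)

theorem mem_comp {r i : ℕ} (hi : i ≠ 0) {f : Submodule K V → ℝ} :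
    f ∈ comp K V r i ↔ (dm K V r).mulVec f = ev K V r i • f := by
  unfold comp
  rw [if_neg hi, LinearMap.mem_ker]
  simp [sub_eq_zero]

theorem comp_zero {r : ℕ} {f : Submodule K V → ℝ} (h : f ∈ comp K V r 0) :
    ∃ a : ℝ, a • ind K V r = f := by
  unfold comp at h
  rw [if_pos rfl, Submodule.mem_span_singleton] at h
  exact h

variable (K V) in
/-- the sum of the components -/
noncomputable def dec (r : ℕ) : Submodule ℝ (Submodule K V → ℝ) :=
  ⨆ i ∈ Finset.range (r + 1), comp K V r i

theorem comp_le_dec {r i : ℕ} (hi : i ≤ r) : comp K V r i ≤ dec K V r :=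
  le_iSup₂_of_le i (Finset.mem_range.2 (by omega)) le_rfl

theorem up_zero (r : ℕ) (g : Submodule K V → ℝ) : up r 0 g = g ⊥ • ind K V r := by
  funext X
  rw [Pi.smul_apply, smul_eq_mul]
  unfold up ind
  split_ifs with h
  · have : (Finset.univ.filter (fun Z : Submodule K V => finrank K Z = 0 ∧ Z ≤ X)) = {⊥} := by
      ext Z
      simp only [Finset.mem_filter, Finset.mem_univ, true_and, Finset.mem_singleton]
      rw [Submodule.finrank_eq_zero]
      constructor
      · exact fun h => h.1
      · rintro rfl; exact ⟨rfl, bot_le⟩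
    rw [this, Finset.sum_singleton, mul_one]
  · rw [mul_zero]

theorem up_add (r j : ℕ) (f g : Submodule K V → ℝ) : up r j (f + g) = up r j f + up r j g := by
  funext X
  rw [Pi.add_apply]
  unfold up
  split_ifs
  · rw [← Finset.sum_add_distrib]; rfl
  · simp

theorem up_self (r : ℕ) (f : Submodule K V → ℝ) (hf : ∀ X : Submodule K V, finrank K X ≠ r → f X = 0) :
    up r r f = f := by
  funext X
  unfold up
  split_ifs with h
  · have : (Finset.univ.filter (fun Z : Submodule K V => finrank K Z = r ∧ Z ≤ X)) = {X} := by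
      ext Z
      simp only [Finset.mem_filter, Finset.mem_univ, true_and, Finset.mem_singleton]
      constructor
      · rintro ⟨h1, h2⟩
        exact Submodule.eq_of_le_of_finrank_eq h2 (by rw [h1, h])
      · rintro rfl; exact ⟨h, le_rfl⟩
    rw [this, Finset.sum_singleton]
  · rw [hf X h]

/-- lower-order functions -/
theorem up_lower (r j : ℕ) (e : Submodule K V → ℝ) :
    up r j (fun Z => ∑ Y ∈ Finset.univ.filter (fun Y : Submodule K V => finrank K Y < j ∧ Y ≤ Z), e Y) =
      ∑ i ∈ Finset.range j, (gb (Nat.card K) (r - i) (j - i) : ℝ) • up r i e := by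
  funext X
  rw [Finset.sum_apply]
  by_cases hX : finrank K X = r
  · have h1 : ∀ i ∈ Finset.range j,
        ((gb (Nat.card K) (r - i) (j - i) : ℝ) • up r i e) X =
        ∑ Y ∈ Finset.univ.filter (fun Y : Submodule K V => finrank K Y = i ∧ Y ≤ X),
          ∑ Z ∈ Finset.univ.filter (fun Z : Submodule K V => finrank K Z = j ∧ Z ≤ X),
            (if Y ≤ Z then e Y else 0) := by
      intro i hi
      rw [Finset.mem_range] at hi
      rw [Pi.smul_apply, smul_eq_mul]
      unfold up
      rw [if_pos hX, Finset.mul_sum]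
      apply Finset.sum_congr rfl
      intro Y hY
      rw [Finset.mem_filter] at hY
      rw [← Finset.sum_filter, Finset.filter_filter, Finset.sum_const, nsmul_eq_mul,
        card_interval Y X hY.2.2 i j r hY.2.1 hX hi.le]
    rw [Finset.sum_congr rfl h1]
    unfold up
    rw [if_pos hX]
    have h2 : ∀ Z ∈ Finset.univ.filter (fun Z : Submodule K V => finrank K Z = j ∧ Z ≤ X),
        ∑ Y ∈ Finset.univ.filter (fun Y : Submodule K V => finrank K Y < j ∧ Y ≤ Z), e Y =
        ∑ i ∈ Finset.range j,
          ∑ Y ∈ Finset.univ.filter (fun Y : Submodule K V => finrank K Y = i ∧ Y ≤ X),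
            (if Y ≤ Z then e Y else 0) := by
      intro Z hZ
      rw [Finset.mem_filter] at hZ
      have h3 : ∀ Y ∈ Finset.univ.filter (fun Y : Submodule K V => finrank K Y < j ∧ Y ≤ Z),
          finrank K Y ∈ Finset.range j := by
        intro Y hY
        rw [Finset.mem_filter] at hY
        exact Finset.mem_range.2 hY.2.1
      rw [← Finset.sum_fiberwise_of_maps_to h3]
      apply Finset.sum_congr rfl
      intro i hi
      rw [Finset.mem_range] at hi
      rw [← Finset.sum_filter, Finset.filter_filter, Finset.filter_filter]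
      apply Finset.sum_congr _ (fun _ _ => rfl)
      ext Y
      simp only [Finset.mem_filter, Finset.mem_univ, true_and]
      constructor
      · rintro ⟨⟨_, h5⟩, h6⟩
        exact ⟨⟨h6, h5.trans hZ.2.2⟩, h5⟩
      · rintro ⟨⟨h4, h5⟩, h6⟩
        exact ⟨⟨by omega, h6⟩, h4⟩
    rw [Finset.sum_congr rfl h2, Finset.sum_comm]
    apply Finset.sum_congr rfl
    intro i _
    rw [Finset.sum_comm]
  · have h1 : ∀ i ∈ Finset.range j,
        ((gb (Nat.card K) (r - i) (j - i) : ℝ) • up r i e) X = 0 := by
      intro i _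
      rw [Pi.smul_apply, smul_eq_mul]
      unfold up
      rw [if_neg hX, mul_zero]
    rw [Finset.sum_congr rfl h1, Finset.sum_const_zero]
    unfold up
    rw [if_neg hX]

theorem up_mem_dec (r : ℕ) : ∀ (j : ℕ), j ≤ r → ∀ g : Submodule K V → ℝ, up r j g ∈ dec K V r := by
  intro j
  induction j using Nat.strong_induction_on with
  | _ j ih =>
    intro hj g
    rcases Nat.eq_zero_or_pos j with h0 | h0
    · subst h0
      rw [up_zero]
      apply comp_le_dec (i := 0) (by omega)
      unfold comp
      rw [if_pos rfl]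
      exact Submodule.smul_mem _ _ (Submodule.mem_span_singleton_self _)
    · let A : Matrix (Submodule K V) (Submodule K V) ℝ := Matrix.of fun Z Y =>
        if finrank K Z = j ∧ (finrank K Y < j ∧ Y ≤ Z) then 1 else 0
      obtain ⟨e, h, hg, hh⟩ := exists_decomp A g
      have hH : Harm j h := by
        intro Y hY
        have h1 : ∑ Z, A.transpose Y Z * h Z = 0 := congrFun hh Y
        refine Eq.trans ?_ h1
        rw [Finset.sum_filter]
        apply Finset.sum_congr rfl
        intro Z _
        simp only [Matrix.transpose_apply, A, Matrix.of_apply, hY, true_and]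
        split_ifs <;> simp
      have hA : up r j (A.mulVec e) = up r j (fun Z => ∑ Y ∈ Finset.univ.filter
          (fun Y : Submodule K V => finrank K Y < j ∧ Y ≤ Z), e Y) := by
        funext X
        unfold up
        split_ifs with hX
        · apply Finset.sum_congr rfl
          intro Z hZ
          rw [Finset.mem_filter] at hZ
          show ∑ Y, A Z Y * e Y = ∑ Y ∈ Finset.univ.filter
            (fun Y : Submodule K V => finrank K Y < j ∧ Y ≤ Z), e Y
          rw [Finset.sum_filter]
          apply Finset.sum_congr rfl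
          intro Y _
          simp only [A, Matrix.of_apply, hZ.2.1, true_and]
          split_ifs <;> simp
        · rfl
      rw [hg, up_add, hA, up_lower]
      apply Submodule.add_mem
      · apply Submodule.sum_mem
        intro i hi
        rw [Finset.mem_range] at hi
        exact Submodule.smul_mem _ _ (ih i hi (by omega) e)
      · apply comp_le_dec (i := j) hj
        rw [mem_comp (by omega)]
        exact eigen r j hj h hH

theorem dm_symm (r : ℕ) : (dm K V r).transpose = dm K V r := by
  ext X Y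
  rw [Matrix.transpose_apply]
  unfold dm
  simp only [Matrix.of_apply]
  congr 1
  rw [inf_comm]
  apply propext
  tauto

theorem dm_dot (r : ℕ) (f g : Submodule K V → ℝ) :
    (dm K V r).mulVec f ⬝ᵥ g = f ⬝ᵥ (dm K V r).mulVec g := by
  rw [Matrix.dotProduct_mulVec, ← Matrix.mulVec_transpose, dm_symm]

theorem dm_ind (r : ℕ) : (dm K V r).mulVec (ind K V r) = ev K V r 0 • ind K V r := by
  have h := eigen (K := K) (V := V) r 0 (by omega) (fun _ => 1) (by
    intro Y hY; omega)
  rw [up_zero] at h
  simpa [ev] using h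

theorem lam_lt {q : ℕ} (hq : 2 ≤ q) (n r j : ℕ) (hr : 2 * r ≤ n) (hj : j + 1 ≤ r) :
    lam q n r (j + 1) < lam q n r j := by
  unfold lam
  obtain ⟨b, rfl⟩ : ∃ b, r = j + 1 + b := ⟨r - (j + 1), by omega⟩
  obtain ⟨a, rfl⟩ : ∃ a, n = j + 1 + b + j + 1 + a := ⟨n - (j + 1 + b + j + 1), by omega⟩
  rw [show j + 1 + b - (j + 1) = b by omega, show j + 1 + b - j = b + 1 by omega,
    show j + 1 + b + j + 1 + a - (j + 1 + b) - (j + 1) = a by omega,
    show j + 1 + b + j + 1 + a - (j + 1 + b) - j = a + 1 by omega]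
  have h1 : gb q a b ≤ gb q (a + 1) (b + 1) := by rw [gb_succ]; omega
  have h2 : 0 < gb q a b := gb_pos q (by omega)
  have h3 : q ^ ((j + 1) * (j + 1 - 1) / 2 + (j + 1 + b) * b) <
      q ^ (j * (j - 1) / 2 + (j + 1 + b) * (b + 1)) := by
    apply Nat.pow_lt_pow_right (by omega)
    rw [tri_succ, mul_add, mul_one]
    omega
  calc _ < q ^ (j * (j - 1) / 2 + (j + 1 + b) * (b + 1)) * gb q a b :=
        Nat.mul_lt_mul_of_pos_right h3 h2
    _ ≤ _ := Nat.mul_le_mul_left _ h1

theorem lam_anti {q : ℕ} (hq : 2 ≤ q) (n r : ℕ) (hr : 2 * r ≤ n) (i j : ℕ) (hij : i < j)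
    (hj : j ≤ r) : lam q n r j < lam q n r i := by
  obtain ⟨k, rfl⟩ : ∃ k, j = i + 1 + k := ⟨j - (i + 1), by omega⟩
  clear hij
  induction k with
  | zero => exact lam_lt hq n r i hr hj
  | succ k ih => exact (lam_lt hq n r (i + 1 + k) hr hj).trans (ih (by omega))

theorem ev_ne (r : ℕ) (hr : 2 * r ≤ finrank K V) (i j : ℕ) (hi : i ≤ r) (hj : j ≤ r)
    (hij : i ≠ j) : ev K V r i ≠ ev K V r j := by
  intro h
  have h1 : |ev K V r i| = |ev K V r j| := by rw [h]
  unfold ev at h1
  rw [abs_mul, abs_mul, abs_pow, abs_pow] at h1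
  simp only [abs_neg, abs_one, one_pow, one_mul, Nat.abs_cast] at h1
  have h2 : lam (Nat.card K) (finrank K V) r i = lam (Nat.card K) (finrank K V) r j := by
    exact_mod_cast h1
  rcases Nat.lt_or_gt_of_ne hij with h3 | h3
  · have := lam_anti (two_le_card K) (finrank K V) r hr i j h3 hj; omega
  · have := lam_anti (two_le_card K) (finrank K V) r hr j i h3 hi; omega

/-- The norm bound on the orthogonal complement of the constants. -/
theorem norm_bound (r : ℕ) (h1r : 1 ≤ r) (hr : 2 * r ≤ finrank K V) (f : Submodule K V → ℝ)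
    (hf : ∀ X : Submodule K V, finrank K X ≠ r → f X = 0) (h0 : f ⬝ᵥ ind K V r = 0) :
    (dm K V r).mulVec f ⬝ᵥ (dm K V r).mulVec f ≤
      (lam (Nat.card K) (finrank K V) r 1 : ℝ) ^ 2 * (f ⬝ᵥ f) := by
  have hmem : f ∈ dec K V r := by
    rw [← up_self r f hf]; exact up_mem_dec r r le_rfl f
  unfold dec at hmem
  rw [Submodule.mem_iSup_finset_iff_exists_sum] at hmem
  obtain ⟨μ, hμ⟩ := hmem
  have hev : ∀ i, (dm K V r).mulVec (μ i : Submodule K V → ℝ) = ev K V r i • (μ i : _ → ℝ) := by
    intro i
    by_cases hi : i = 0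
    · subst hi
      obtain ⟨a, ha⟩ := comp_zero (μ 0).2
      rw [← ha, Matrix.mulVec_smul, dm_ind, smul_comm]
    · exact (mem_comp hi).1 (μ i).2
  have horth : ∀ i ∈ Finset.range (r + 1), ∀ j ∈ Finset.range (r + 1), i ≠ j →
      (μ i : Submodule K V → ℝ) ⬝ᵥ (μ j : Submodule K V → ℝ) = 0 := by
    intro i hi j hj hij
    rw [Finset.mem_range] at hi hj
    have h1 := dm_dot (K := K) (V := V) r (μ i) (μ j)
    rw [hev i, hev j, smul_dotProduct, dotProduct_smul, smul_eq_mul, smul_eq_mul] at h1
    have h2 := ev_ne (K := K) (V := V) r hr i j (by omega) (by omega) hij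
    have h3 : (ev K V r i - ev K V r j) * ((μ i : Submodule K V → ℝ) ⬝ᵥ (μ j : _ → ℝ)) = 0 := by
      linarith
    rcases mul_eq_zero.1 h3 with h4 | h4
    · exact absurd (sub_eq_zero.1 h4) h2
    · exact h4
  -- the zeroth component vanishes
  obtain ⟨a, ha⟩ : ∃ a : ℝ, a • ind K V r = (μ 0 : Submodule K V → ℝ) := comp_zero (μ 0).2
  have hff : ∀ c : ℕ → ℝ, (∑ i ∈ Finset.range (r + 1), c i • (μ i : Submodule K V → ℝ)) ⬝ᵥ
      (∑ i ∈ Finset.range (r + 1), c i • (μ i : Submodule K V → ℝ)) =
      ∑ i ∈ Finset.range (r + 1), c i ^ 2 * ((μ i : Submodule K V → ℝ) ⬝ᵥ (μ i : _ → ℝ)) := by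
    intro c
    rw [sum_dotProduct]
    apply Finset.sum_congr rfl
    intro i hi
    rw [dotProduct_sum, Finset.sum_eq_single_of_mem i hi]
    · rw [smul_dotProduct, dotProduct_smul, smul_eq_mul, smul_eq_mul]; ring
    · intro j hj hji
      rw [smul_dotProduct, dotProduct_smul, horth i hi j hj (Ne.symm hji)]; simp
  have h00 : (μ 0 : Submodule K V → ℝ) ⬝ᵥ (μ 0 : _ → ℝ) = 0 := by
    have h1 : f ⬝ᵥ (μ 0 : Submodule K V → ℝ) = 0 := by
      rw [← ha, dotProduct_smul, h0]; simp
    rw [← hμ, sum_dotProduct, Finset.sum_eq_single_of_mem 0 (by simp)] at h1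
    · exact h1
    · intro j hj hj0
      exact horth j hj 0 (by simp) hj0
  have hDf : (dm K V r).mulVec f = ∑ i ∈ Finset.range (r + 1), ev K V r i • (μ i : _ → ℝ) := by
    rw [← hμ]
    rw [← Matrix.mulVecLin_apply, map_sum]
    apply Finset.sum_congr rfl
    intro i _
    rw [Matrix.mulVecLin_apply, hev i]
  have hf1 : f ⬝ᵥ f = ∑ i ∈ Finset.range (r + 1),
      ((μ i : Submodule K V → ℝ) ⬝ᵥ (μ i : _ → ℝ)) := by
    have := hff (fun _ => 1)
    simp only [one_smul, one_pow, one_mul] at this
    rw [hμ] at this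
    exact this
  rw [hDf, hff, hf1, Finset.mul_sum]
  apply Finset.sum_le_sum
  intro i hi
  rw [Finset.mem_range] at hi
  by_cases hi0 : i = 0
  · subst hi0
    rw [h00]; simp
  · apply mul_le_mul_of_nonneg_right
    · have h1 : ev K V r i ^ 2 = (lam (Nat.card K) (finrank K V) r i : ℝ) ^ 2 := by
        unfold ev
        rw [mul_pow, ← pow_mul, mul_comm i 2, pow_mul]; simp
      rw [h1]
      apply pow_le_pow_left₀ (by positivity)
      have : lam (Nat.card K) (finrank K V) r i ≤ lam (Nat.card K) (finrank K V) r 1 := by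
        rcases Nat.eq_or_lt_of_le (Nat.one_le_iff_ne_zero.2 hi0) with h2 | h2
        · rw [← h2]
        · exact (lam_anti (two_le_card K) _ r hr 1 i h2 (by omega)).le
      exact_mod_cast this
    · exact Finset.sum_nonneg fun X _ => mul_self_nonneg _

end Pool.Agent.helper15.Sub
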