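import Mathlib
import Pool.Agent.helper15.Sub.Hoffman2
import Pool.Agent.helper15.Sub.Bound

/-! # Cross-intersecting families of subspaces of one dimension -/

namespace Pool.Agent.helper15.Sub

open Module
open scoped Classical

variable {K V : Type} [Field K] [Finite K] [AddCommGroup V] [Module K V] [Finite V]

theorem lam_ratio {q : ℕ} (hq : 2 ≤ q) (n r : ℕ) (h1r : 1 ≤ r) (hr : 2 * r ≤ n) :
    (lam q n r 1 : ℤ) * ((gb q n r : ℤ) - gb q (n - 1) (r - 1)) =
      lam q n r 0 * gb q (n - 1) (r - 1) := by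
  obtain ⟨s, rfl⟩ : ∃ s, r = s + 1 := ⟨r - 1, by omega⟩
  obtain ⟨a, rfl⟩ : ∃ a, n = s + 1 + (s + 1) + a := ⟨n - (s + 1 + (s + 1)), by omega⟩
  unfold lam
  have e1 : s + 1 + (s + 1) + a = (s + 1 + s + a) + 1 := by ring
  have h1 := gb_absorb hq (s + 1 + s + a) s (by omega)
  have h2 := gb_absorb' hq (s + a) s
  rw [show s + 1 + s + a - s = s + a + 1 by omega] at h1
  rw [show s + 1 + (s + 1) + a - (s + 1) - 1 = s + a by omega,
    show s + 1 + (s + 1) + a - (s + 1) - 0 = s + a + 1 by omega,
    show s + 1 - 0 = s + 1 by omega, show s + 1 - 1 = s by omega,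
    show s + 1 + (s + 1) + a - 1 = s + 1 + s + a by omega]
  rw [e1, gb_succ]
  have hp := pow_sub_one_pos hq s
  apply mul_right_cancel₀ hp.ne'
  push_cast
  simp only [zero_add]
  have e2 : (q : ℤ) ^ ((s + 1) * (s + 1)) = (q : ℤ) ^ ((s + 1) * s) * (q : ℤ) ^ (s + 1) := by
    rw [← pow_add]; congr 1
  rw [e2]
  linear_combination ((q : ℤ) ^ ((s + 1) * s) * (q : ℤ) ^ (s + 1) * gb q (s + a) s) * h1 -
    ((q : ℤ) ^ ((s + 1) * s) * (q : ℤ) ^ (s + 1) * gb q (s + 1 + s + a) s) * h2

theorem gb_sub {q : ℕ} (hq : 2 ≤ q) (n r : ℕ) (h1r : 1 ≤ r) (hr : 2 * r ≤ n) :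
    2 * gb q (n - 1) (r - 1) ≤ gb q n r ∧ gb q (n - 1) (r - 1) < gb q n r := by
  obtain ⟨s, rfl⟩ : ∃ s, r = s + 1 := ⟨r - 1, by omega⟩
  obtain ⟨a, rfl⟩ : ∃ a, n = s + 1 + (s + 1) + a := ⟨n - (s + 1 + (s + 1)), by omega⟩
  have e1 : s + 1 + (s + 1) + a = (s + 1 + s + a) + 1 := by ring
  have h1 := gb_absorb hq (s + 1 + s + a) s (by omega)
  rw [show s + 1 + s + a - s = s + a + 1 by omega] at h1
  rw [show s + 1 + (s + 1) + a - 1 = s + 1 + s + a by omega, show s + 1 - 1 = s by omega, e1,
    gb_succ]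
  have h2 : gb q (s + 1 + s + a) s ≤ gb q (s + 1 + s + a) (s + 1) := by
    have hp := pow_sub_one_pos hq s
    have hqq : (1 : ℤ) ≤ q := by exact_mod_cast (by omega : 1 ≤ q)
    have h3 : (q : ℤ) ^ (s + 1) ≤ (q : ℤ) ^ (s + a + 1) := pow_le_pow_right₀ hqq (by omega)
    have h4 : (gb q (s + 1 + s + a) s : ℤ) * ((q : ℤ) ^ (s + 1) - 1) ≤
        gb q (s + 1 + s + a) (s + 1) * ((q : ℤ) ^ (s + 1) - 1) := by
      rw [h1]
      exact mul_le_mul_of_nonneg_left (by linarith) (by positivity)
    exact_mod_cast le_of_mul_le_mul_right h4 hp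
  have h5 : gb q (s + 1 + s + a) (s + 1) ≤ q ^ (s + 1) * gb q (s + 1 + s + a) (s + 1) :=
    Nat.le_mul_of_pos_left _ (Nat.pow_pos (by omega))
  have h6 := gb_pos q (n := s + 1 + s + a) (k := s + 1) (by omega)
  omega

/-- indicator function of a family -/
noncomputable def chi (F : Finset (Submodule K V)) : Submodule K V → ℝ := fun X =>
  if X ∈ F then 1 else 0

theorem ind_eq_chi (r : ℕ) : ind K V r = chi (lev K V r) := by
  funext X
  unfold ind chi
  simp

theorem chi_dot (F G : Finset (Submodule K V)) (h : F ⊆ G) : chi F ⬝ᵥ chi G = F.card := by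
  unfold dotProduct chi
  have : ∀ X : Submodule K V, (if X ∈ F then (1 : ℝ) else 0) * (if X ∈ G then 1 else 0) =
      if X ∈ F then 1 else 0 := by
    intro X
    by_cases hX : X ∈ F
    · simp [hX, h hX]
    · simp [hX]
  rw [Finset.sum_congr rfl (fun X _ => this X)]
  simp

theorem hoffman_cross (r : ℕ) (h1r : 1 ≤ r) (hr : 2 * r ≤ finrank K V)
    (F G : Finset (Submodule K V)) (hF : F ⊆ lev K V r) (hG : G ⊆ lev K V r)
    (h : ∀ X ∈ F, ∀ Y ∈ G, X ⊓ Y ≠ ⊥) :
    (F.card : ℝ) * G.card * ((gb (Nat.card K) (finrank K V) r : ℝ) -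
        gb (Nat.card K) (finrank K V - 1) (r - 1)) ^ 2 ≤
      (gb (Nat.card K) (finrank K V - 1) (r - 1) : ℝ) ^ 2 *
        (gb (Nat.card K) (finrank K V) r - F.card) * (gb (Nat.card K) (finrank K V) r - G.card) := by
  have hq := two_le_card K
  have hFN : (F.card : ℝ) ≤ gb (Nat.card K) (finrank K V) r := by
    rw [← lev_card]; exact_mod_cast Finset.card_le_card hF
  have hGN : (G.card : ℝ) ≤ gb (Nat.card K) (finrank K V) r := by
    rw [← lev_card]; exact_mod_cast Finset.card_le_card hG
  have hNpos : (0 : ℝ) < gb (Nat.card K) (finrank K V) r := by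
    exact_mod_cast gb_pos _ (by omega)
  have hratio := lam_ratio hq (finrank K V) r h1r hr
  have hratio' : (lam (Nat.card K) (finrank K V) r 1 : ℝ) *
      ((gb (Nat.card K) (finrank K V) r : ℝ) - gb (Nat.card K) (finrank K V - 1) (r - 1)) =
      lam (Nat.card K) (finrank K V) r 0 * gb (Nat.card K) (finrank K V - 1) (r - 1) := by
    exact_mod_cast hratio
  have hlam0 : (0 : ℝ) < lam (Nat.card K) (finrank K V) r 0 := by
    have : 0 < lam (Nat.card K) (finrank K V) r 0 := by
      unfold lam
      exact Nat.mul_pos (Nat.pow_pos (by omega)) (gb_pos _ (by omega))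
    exact_mod_cast this
  set N : ℝ := (gb (Nat.card K) (finrank K V) r : ℝ) with hN
  set M : ℝ := (gb (Nat.card K) (finrank K V - 1) (r - 1) : ℝ) with hM
  set L0 : ℝ := (lam (Nat.card K) (finrank K V) r 0 : ℝ) with hL0
  set L1 : ℝ := (lam (Nat.card K) (finrank K V) r 1 : ℝ) with hL1
  set a : ℝ := (F.card : ℝ) with ha
  set b : ℝ := (G.card : ℝ) with hb
  have ha0 : 0 ≤ a := by positivity
  have hb0 : 0 ≤ b := by positivity
  rcases (mul_nonneg ha0 hb0).eq_or_lt with h0 | h0
  · rw [← h0, zero_mul]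
    apply mul_nonneg (mul_nonneg (by positivity) (by linarith)) (by linarith)
  · let f : Submodule K V → ℝ := chi F - (a / N) • ind K V r
    let g : Submodule K V → ℝ := chi G - (b / N) • ind K V r
    have hff : f ⬝ᵥ f = a - a ^ 2 / N := by
      show (chi F - (a / N) • ind K V r) ⬝ᵥ (chi F - (a / N) • ind K V r) = _
      rw [sub_dotProduct, dotProduct_sub, dotProduct_sub, smul_dotProduct, dotProduct_smul,
        smul_dotProduct, dotProduct_smul, ind_eq_chi, chi_dot F F (Finset.Subset.refl _),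
        chi_dot F _ hF, dotProduct_comm _ (chi F), chi_dot F _ hF,
        chi_dot _ _ (Finset.Subset.refl _), lev_card]
      simp only [smul_eq_mul]
      rw [← hN, ← ha]
      field_simp
      ring
    have hgg : g ⬝ᵥ g = b - b ^ 2 / N := by
      show (chi G - (b / N) • ind K V r) ⬝ᵥ (chi G - (b / N) • ind K V r) = _
      rw [sub_dotProduct, dotProduct_sub, dotProduct_sub, smul_dotProduct, dotProduct_smul,
        smul_dotProduct, dotProduct_smul, ind_eq_chi, chi_dot G G (Finset.Subset.refl _),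
        chi_dot G _ hG, dotProduct_comm _ (chi G), chi_dot G _ hG,
        chi_dot _ _ (Finset.Subset.refl _), lev_card]
      simp only [smul_eq_mul]
      rw [← hN, ← hb]
      field_simp
      ring
    have hf1 : f ⬝ᵥ ind K V r = 0 := by
      show (chi F - (a / N) • ind K V r) ⬝ᵥ ind K V r = 0
      rw [sub_dotProduct, smul_dotProduct, ind_eq_chi, chi_dot F _ hF,
        chi_dot _ _ (Finset.Subset.refl _), lev_card, smul_eq_mul, ← hN, ← ha]
      field_simp
      ring
    have hfs : ∀ X : Submodule K V, finrank K X ≠ r → f X = 0 := by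
      intro X hX
      show chi F X - (a / N) * ind K V r X = 0
      have h1 : X ∉ F := fun hXF => hX (mem_lev.1 (hF hXF))
      unfold chi ind
      rw [if_neg h1, if_neg hX]; simp
    have hFG : (dm K V r).mulVec (chi F) ⬝ᵥ chi G = 0 := by
      unfold dotProduct
      apply Finset.sum_eq_zero
      intro X _
      by_cases hX : X ∈ G
      · have : (dm K V r).mulVec (chi F) X = 0 := by
          show ∑ Y, dm K V r X Y * chi F Y = 0
          apply Finset.sum_eq_zero
          intro Y _
          by_cases hY : Y ∈ F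
          · have h2 : ¬ (finrank K X = r ∧ finrank K Y = r ∧ X ⊓ Y = ⊥) := by
              rintro ⟨_, _, h3⟩
              exact h Y hY X hX (by rw [inf_comm]; exact h3)
            show (if finrank K X = r ∧ finrank K Y = r ∧ X ⊓ Y = ⊥ then (1 : ℝ) else 0) * chi F Y = 0
            rw [if_neg h2, zero_mul]
          · have : chi F Y = 0 := if_neg hY
            rw [this, mul_zero]
        rw [this, zero_mul]
      · unfold chi
        rw [if_neg hX, mul_zero]
    have hev0 : ev K V r 0 = L0 := by simp [ev, hL0]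
    have hFi : (dm K V r).mulVec (chi F) ⬝ᵥ ind K V r = L0 * a := by
      rw [dm_dot, dm_ind, dotProduct_smul, hev0, ind_eq_chi, chi_dot F _ hF, smul_eq_mul]
    have hiG : (dm K V r).mulVec (ind K V r) ⬝ᵥ chi G = L0 * b := by
      rw [dm_ind, smul_dotProduct, hev0, ind_eq_chi, dotProduct_comm, chi_dot G _ hG, smul_eq_mul]
    have hii : (dm K V r).mulVec (ind K V r) ⬝ᵥ ind K V r = L0 * N := by
      rw [dm_ind, smul_dotProduct, hev0, ind_eq_chi, chi_dot _ _ (Finset.Subset.refl _), lev_card,
        smul_eq_mul]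
    have hDfg : (dm K V r).mulVec f ⬝ᵥ g = - (L0 * a * b / N) := by
      show (dm K V r).mulVec (chi F - (a / N) • ind K V r) ⬝ᵥ (chi G - (b / N) • ind K V r) = _
      rw [Matrix.mulVec_sub, Matrix.mulVec_smul, sub_dotProduct, dotProduct_sub, dotProduct_sub,
        smul_dotProduct, dotProduct_smul, smul_dotProduct, dotProduct_smul, hFG, hFi, hiG, hii]
      simp only [smul_eq_mul]
      field_simp
      ring
    have hcs : ((dm K V r).mulVec f ⬝ᵥ g) ^ 2 ≤
        ((dm K V r).mulVec f ⬝ᵥ (dm K V r).mulVec f) * (g ⬝ᵥ g) := by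
      have := Finset.sum_mul_sq_le_sq_mul_sq Finset.univ ((dm K V r).mulVec f) g
      unfold dotProduct
      simpa [sq] using this
    have hnb := norm_bound r h1r hr f hfs hf1
    have hgg0 : 0 ≤ g ⬝ᵥ g := Finset.sum_nonneg fun X _ => mul_self_nonneg _
    have h5 : (L0 * a * b / N) ^ 2 ≤ L1 ^ 2 * (a - a ^ 2 / N) * (b - b ^ 2 / N) := by
      have h6 := hcs.trans (mul_le_mul_of_nonneg_right hnb hgg0)
      rw [hDfg, hff, hgg, neg_sq] at h6
      exact h6
    have h7 : (L0 * a * b / N) ^ 2 = (a * b) * (L0 ^ 2 * (a * b)) / N ^ 2 := by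
      field_simp
    have h8 : L1 ^ 2 * (a - a ^ 2 / N) * (b - b ^ 2 / N) =
        (a * b) * (L1 ^ 2 * ((N - a) * (N - b))) / N ^ 2 := by
      field_simp
    rw [h7, h8, div_le_div_iff_of_pos_right (by positivity)] at h5
    have h9 := le_of_mul_le_mul_left h5 h0
    -- multiply by (N - M)^2
    have h10 : L0 ^ 2 * (a * b * (N - M) ^ 2) ≤ L0 ^ 2 * (M ^ 2 * (N - a) * (N - b)) := by
      calc L0 ^ 2 * (a * b * (N - M) ^ 2) = (L0 ^ 2 * (a * b)) * (N - M) ^ 2 := by ring
        _ ≤ (L1 ^ 2 * ((N - a) * (N - b))) * (N - M) ^ 2 :=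
            mul_le_mul_of_nonneg_right h9 (by positivity)
        _ = (L1 * (N - M)) ^ 2 * ((N - a) * (N - b)) := by ring
        _ = (L0 * M) ^ 2 * ((N - a) * (N - b)) := by rw [hratio']
        _ = _ := by ring
    exact le_of_mul_le_mul_left h10 (by positivity)

theorem algebra_step (N M a b : ℝ) (hM : 0 < M) (hNM : 2 * M ≤ N)
    (hb : 0 ≤ b) (hba : b ≤ a) (haN : a ≤ N)
    (h : a * b * (N - M) ^ 2 ≤ M ^ 2 * (N - a) * (N - b)) :
    b * (N - M) ≤ M * (N - a) := by
  by_contra hc
  push Not at hc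
  have hNM' : 0 < N - M := by linarith
  rcases le_or_gt (M * (N - b)) (a * (N - M)) with h1 | h1
  · have hMa : 0 ≤ M * (N - a) := mul_nonneg hM.le (by linarith)
    have hMb : 0 ≤ M * (N - b) := mul_nonneg hM.le (by linarith)
    rcases hMb.eq_or_lt with h2 | h2
    · have h3 : N = b := by
        rcases mul_eq_zero.1 h2.symm with h4 | h4 <;> linarith
      have h4 : a = N := by linarith
      rw [h4, ← h3, sub_self] at h
      have : (0 : ℝ) < N * N * (N - M) ^ 2 := by
        have : 0 < N := by linarith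
        positivity
      nlinarith
    · have h3 : (M * (N - b)) * (M * (N - a)) < (a * (N - M)) * (b * (N - M)) := by
        calc (M * (N - b)) * (M * (N - a)) < (M * (N - b)) * (b * (N - M)) :=
              mul_lt_mul_of_pos_left hc h2
          _ ≤ (a * (N - M)) * (b * (N - M)) :=
              mul_le_mul_of_nonneg_right h1 (mul_nonneg hb hNM'.le)
      nlinarith
  · nlinarith

theorem ekr_cross (r : ℕ) (h1r : 1 ≤ r) (hr : 2 * r ≤ finrank K V)
    (F G : Finset (Submodule K V)) (hF : F ⊆ lev K V r) (hG : G ⊆ lev K V r)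
    (h : ∀ X ∈ F, ∀ Y ∈ G, X ⊓ Y ≠ ⊥) (hGF : G.card ≤ F.card) :
    (G.card : ℝ) * ((gb (Nat.card K) (finrank K V) r : ℝ) -
        gb (Nat.card K) (finrank K V - 1) (r - 1)) ≤
      (gb (Nat.card K) (finrank K V - 1) (r - 1) : ℝ) *
        (gb (Nat.card K) (finrank K V) r - F.card) := by
  have hq := two_le_card K
  have h1 := hoffman_cross r h1r hr F G hF hG h
  have h2 := (gb_sub hq (finrank K V) r h1r hr).1
  apply algebra_step
  · exact_mod_cast gb_pos (Nat.card K) (n := finrank K V - 1) (k := r - 1) (by omega)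
  · exact_mod_cast h2
  · positivity
  · exact_mod_cast hGF
  · rw [← lev_card]; exact_mod_cast Finset.card_le_card hF
  · exact h1

/-- Erdős–Ko–Rado for subspaces. -/
theorem ekr (r : ℕ) (h1r : 1 ≤ r) (hr : 2 * r ≤ finrank K V)
    (F : Finset (Submodule K V)) (hF : F ⊆ lev K V r) (h : ∀ X ∈ F, ∀ Y ∈ F, X ⊓ Y ≠ ⊥) :
    F.card ≤ gb (Nat.card K) (finrank K V - 1) (r - 1) := by
  have h1 := ekr_cross r h1r hr F F hF hF h le_rfl
  have hNpos : (0 : ℝ) < gb (Nat.card K) (finrank K V) r := by
    exact_mod_cast gb_pos _ (by omega)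
  have h2 : (F.card : ℝ) * (gb (Nat.card K) (finrank K V) r : ℝ) ≤
      (gb (Nat.card K) (finrank K V - 1) (r - 1) : ℝ) * gb (Nat.card K) (finrank K V) r := by
    linarith
  exact_mod_cast le_of_mul_le_mul_right h2 hNpos

instance finite_dual : Finite (Dual K V) := DFunLike.finite _

/-- The same in dual form. -/
theorem lemmaY (t d c : ℕ) (ht : 1 ≤ t) (htn : t ≤ finrank K V) (hd : finrank K V + t = 2 * d + 1)
    (A B : Finset (Submodule K V)) (hA : A ⊆ lev K V d) (hB : B ⊆ lev K V d) (h : Cross t A B)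
    (hBA : B.card ≤ A.card) :
    A.card + c * B.card ≤ max (gb (Nat.card K) (finrank K V) d)
      ((1 + c) * gb (Nat.card K) (finrank K V - 1) d) ∧
    B.card ≤ gb (Nat.card K) (finrank K V - 1) d := by
  have hq := two_le_card K
  have hdn : d < finrank K V := by omega
  have hdual : finrank K (Dual K V) = finrank K V := Subspace.dual_finrank_eq
  let φ : Submodule K V → Submodule K (Dual K V) := fun X => X.dualAnnihilator
  have hφ : Function.Injective φ := fun X Y hXY => Subspace.dualAnnihilator_inj.1 hXY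
  have hfr : ∀ X : Submodule K V, finrank K X = d → finrank K (φ X) = finrank K V - d := by
    intro X hX
    have := Subspace.finrank_add_finrank_dualAnnihilator_eq X
    show finrank K X.dualAnnihilator = _
    omega
  have key := ekr_cross (K := K) (V := Dual K V) (finrank K V - d) (by omega) (by rw [hdual]; omega)
    (A.image φ) (B.image φ)
    (by
      intro X hX
      rw [Finset.mem_image] at hX
      obtain ⟨Y, hY, rfl⟩ := hX
      rw [mem_lev]; exact hfr Y (mem_lev.1 (hA hY)))
    (by
      intro X hX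
      rw [Finset.mem_image] at hX
      obtain ⟨Y, hY, rfl⟩ := hX
      rw [mem_lev]; exact hfr Y (mem_lev.1 (hB hY)))
    (by
      intro X hX Y hY
      rw [Finset.mem_image] at hX hY
      obtain ⟨X, hX, rfl⟩ := hX
      obtain ⟨Y, hY, rfl⟩ := hY
      show X.dualAnnihilator ⊓ Y.dualAnnihilator ≠ ⊥
      rw [← Submodule.dualAnnihilator_sup_eq]
      intro h1
      have h2 := Subspace.finrank_add_finrank_dualAnnihilator_eq (X ⊔ Y)
      rw [h1, finrank_bot] at h2
      have h3 := Submodule.finrank_sup_add_finrank_inf_eq X Y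
      have h4 := h X hX Y hY
      rw [mem_lev.1 (hA hX), mem_lev.1 (hB hY)] at h3
      omega)
    (by rw [Finset.card_image_of_injective _ hφ, Finset.card_image_of_injective _ hφ]; exact hBA)
  rw [Finset.card_image_of_injective _ hφ, Finset.card_image_of_injective _ hφ, hdual] at key
  have s1 : gb (Nat.card K) (finrank K V) (finrank K V - d) = gb (Nat.card K) (finrank K V) d :=
    gb_symm hq (by omega)
  have s2 : gb (Nat.card K) (finrank K V - 1) (finrank K V - d - 1) =
      gb (Nat.card K) (finrank K V - 1) d := by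
    have := gb_symm hq (n := finrank K V - 1) (k := d) (by omega)
    rwa [show finrank K V - 1 - d = finrank K V - d - 1 by omega] at this
  have hlt := (gb_sub hq (finrank K V) (finrank K V - d) (by omega) (by omega)).2
  rw [s1, s2] at key hlt
  have hN : (A.card : ℝ) ≤ gb (Nat.card K) (finrank K V) d := by
    rw [← lev_card]; exact_mod_cast Finset.card_le_card hA
  have hMN : (gb (Nat.card K) (finrank K V - 1) d : ℝ) < gb (Nat.card K) (finrank K V) d := by
    exact_mod_cast hlt
  have hBA' : (B.card : ℝ) ≤ A.card := by exact_mod_cast hBA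
  have hc : (0 : ℝ) ≤ c := by positivity
  have hM0 : (0 : ℝ) ≤ gb (Nat.card K) (finrank K V - 1) d := by positivity
  have hb0 : (0 : ℝ) ≤ B.card := by positivity
  have hmin : (B.card : ℝ) ≤ gb (Nat.card K) (finrank K V - 1) d := by
    have hNpos : (0 : ℝ) < gb (Nat.card K) (finrank K V) d := by linarith
    have h2 : (B.card : ℝ) * (gb (Nat.card K) (finrank K V) d : ℝ) ≤
        (gb (Nat.card K) (finrank K V - 1) d : ℝ) * gb (Nat.card K) (finrank K V) d := by
      nlinarith
    exact le_of_mul_le_mul_right h2 hNpos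
  have final : (A.card : ℝ) + c * B.card ≤ max (gb (Nat.card K) (finrank K V) d : ℝ)
      ((1 + c) * gb (Nat.card K) (finrank K V - 1) d) := by
    set N : ℝ := (gb (Nat.card K) (finrank K V) d : ℝ)
    set M : ℝ := (gb (Nat.card K) (finrank K V - 1) d : ℝ)
    set a : ℝ := (A.card : ℝ)
    set b : ℝ := (B.card : ℝ)
    rcases le_or_gt M a with h1 | h1
    · -- convex combination
      have hNM : 0 < N - M := by linarith
      have h2 : (a + c * b) * (N - M) ≤ max N ((1 + c) * M) * (N - M) := by
        calc (a + c * b) * (N - M) = a * (N - M) + c * (b * (N - M)) := by ring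
          _ ≤ a * (N - M) + c * (M * (N - a)) := by
              have := mul_le_mul_of_nonneg_left key hc; linarith
          _ = N * (a - M) + ((1 + c) * M) * (N - a) := by ring
          _ ≤ max N ((1 + c) * M) * (a - M) + max N ((1 + c) * M) * (N - a) := by
              apply add_le_add
              · exact mul_le_mul_of_nonneg_right (le_max_left _ _) (by linarith)
              · exact mul_le_mul_of_nonneg_right (le_max_right _ _) (by linarith)
          _ = _ := by ring
      exact le_of_mul_le_mul_right h2 hNM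
    · apply le_max_of_le_right
      have : c * b ≤ c * M := mul_le_mul_of_nonneg_left (by linarith) hc
      linarith
  exact ⟨by exact_mod_cast final, by exact_mod_cast hmin⟩

end Pool.Agent.helper15.Sub
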