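import Mathlib
import Pool.Agent.helper15.Sub.Gauss

/-! # Numerical estimates for Gaussian binomial coefficients -/

namespace Pool.Agent.helper15.Sub

/-- `(1 - 1/q) (1 - 1/q^2) ... (1 - 1/q^k)` -/
def Pq (q k : ℕ) : ℚ := ∏ i ∈ Finset.range k, (1 - 1 / (q : ℚ) ^ (i + 1))

theorem Pq_succ (q k : ℕ) : Pq q (k + 1) = Pq q k * (1 - 1 / (q : ℚ) ^ (k + 1)) :=
  Finset.prod_range_succ _ _

theorem Pq_two_ge (j : ℕ) : (315 / 1024 : ℚ) * (15 / 16 + 1 / 2 ^ (j + 4)) ≤ Pq 2 (j + 4) := by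
  induction j with
  | zero => norm_num [Pq, Finset.prod_range_succ]
  | succ j ih =>
    rw [show j + 1 + 4 = j + 4 + 1 by ring, Pq_succ]
    set y : ℚ := 1 / 2 ^ (j + 4 + 1) with hy
    have e : (1 : ℚ) / 2 ^ (j + 4) = 2 * y := by rw [hy, pow_succ 2 (j + 4)]; field_simp
    rw [e] at ih
    have hy0 : 0 < y := by positivity
    have hy1 : y ≤ 1 / 32 := by
      rw [hy]
      apply one_div_le_one_div_of_le (by norm_num)
      calc (32 : ℚ) = 2 ^ 5 := by norm_num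
        _ ≤ 2 ^ (j + 4 + 1) := pow_le_pow_right₀ (by norm_num) (by omega)
    push_cast
    rw [← hy]
    have : (315 / 1024 : ℚ) * (15 / 16 + y) ≤ (315 / 1024 : ℚ) * (15 / 16 + 2 * y) * (1 - y) := by
      nlinarith
    exact this.trans (mul_le_mul_of_nonneg_right ih (by linarith))

theorem Pq_two_ge' (k : ℕ) : (4725 / 16384 : ℚ) ≤ Pq 2 k := by
  rcases Nat.lt_or_ge k 4 with h | h
  · interval_cases k <;> norm_num [Pq, Finset.prod_range_succ]
  · obtain ⟨j, rfl⟩ : ∃ j, k = j + 4 := ⟨k - 4, by omega⟩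
    refine le_trans ?_ (Pq_two_ge j)
    have : (0 : ℚ) < 1 / 2 ^ (j + 4) := by positivity
    linarith

theorem Pq_ge {q : ℕ} (hq : 2 ≤ q) (k : ℕ) : (4725 / 16384 : ℚ) ≤ Pq q k := by
  refine (Pq_two_ge' k).trans ?_
  unfold Pq
  apply Finset.prod_le_prod
  · intro i _
    have : (1 : ℚ) / ((2 : ℕ) : ℚ) ^ (i + 1) ≤ 1 := by
      rw [div_le_one (by positivity)]
      exact one_le_pow₀ (by norm_num)
    linarith
  · intro i _
    have : (1 : ℚ) / (q : ℚ) ^ (i + 1) ≤ 1 / ((2 : ℕ) : ℚ) ^ (i + 1) := by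
      apply one_div_le_one_div_of_le (by positivity)
      exact pow_le_pow_left₀ (by positivity) (by exact_mod_cast hq) _
    linarith

theorem gb_Pq {q : ℕ} (hq : 2 ≤ q) (n : ℕ) (k : ℕ) (hk : k ≤ n) :
    (gb q n k : ℚ) * Pq q k * (q : ℚ) ^ (k * k) ≤ (q : ℚ) ^ (k * n) := by
  have hq0 : (0 : ℚ) < q := by exact_mod_cast (by omega : 0 < q)
  induction k with
  | zero => simp [Pq]
  | succ k ih =>
    have ih := ih (by omega)
    have h := gb_absorb hq n k (by omega)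
    have h' : (gb q n (k + 1) : ℚ) * ((q : ℚ) ^ (k + 1) - 1) =
      gb q n k * ((q : ℚ) ^ (n - k) - 1) := by exact_mod_cast h
    have e1 : (gb q n (k + 1) : ℚ) * Pq q (k + 1) * (q : ℚ) ^ ((k + 1) * (k + 1)) =
        (gb q n (k + 1) : ℚ) * ((q : ℚ) ^ (k + 1) - 1) * Pq q k * (q : ℚ) ^ (k * k) * (q : ℚ) ^ k := by
      rw [Pq_succ]
      have : (q : ℚ) ^ ((k + 1) * (k + 1)) = (q : ℚ) ^ (k + 1) * (q : ℚ) ^ (k * k) * (q : ℚ) ^ k := by
        rw [← pow_add, ← pow_add]; congr 1; ring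
      rw [this]
      have h2 : (1 - 1 / (q : ℚ) ^ (k + 1)) * (q : ℚ) ^ (k + 1) = (q : ℚ) ^ (k + 1) - 1 := by
        field_simp
      rw [← h2]; ring
    have hP : (0 : ℚ) ≤ Pq q k := by have := Pq_ge hq k; linarith
    rw [e1, h']
    calc (gb q n k : ℚ) * ((q : ℚ) ^ (n - k) - 1) * Pq q k * (q : ℚ) ^ (k * k) * (q : ℚ) ^ k
        = ((gb q n k : ℚ) * Pq q k * (q : ℚ) ^ (k * k)) * ((q : ℚ) ^ (n - k) - 1) * (q : ℚ) ^ k := by
          ring
      _ ≤ ((gb q n k : ℚ) * Pq q k * (q : ℚ) ^ (k * k)) * (q : ℚ) ^ (n - k) * (q : ℚ) ^ k := by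
          apply mul_le_mul_of_nonneg_right _ (by positivity)
          apply mul_le_mul_of_nonneg_left (by linarith) (by positivity)
      _ ≤ (q : ℚ) ^ (k * n) * (q : ℚ) ^ (n - k) * (q : ℚ) ^ k := by
          apply mul_le_mul_of_nonneg_right _ (by positivity)
          apply mul_le_mul_of_nonneg_right ih (by positivity)
      _ = (q : ℚ) ^ ((k + 1) * n) := by
          rw [← pow_add, ← pow_add]; congr 1
          rw [add_assoc, show n - k + k = n by omega]; ring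

theorem gb_le {q : ℕ} (hq : 2 ≤ q) (n k : ℕ) (hk : k ≤ n) :
    (gb q n k : ℚ) ≤ 16384 / 4725 * (q : ℚ) ^ (k * (n - k)) := by
  have hq0 : (0 : ℚ) < q := by exact_mod_cast (by omega : 0 < q)
  have h := gb_Pq hq n k hk
  have hP := Pq_ge hq k
  have e : (q : ℚ) ^ (k * n) = (q : ℚ) ^ (k * (n - k)) * (q : ℚ) ^ (k * k) := by
    rw [← pow_add, ← mul_add, show n - k + k = n by omega]
  rw [e] at h
  have h1 : (gb q n k : ℚ) * Pq q k ≤ (q : ℚ) ^ (k * (n - k)) :=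
    le_of_mul_le_mul_right h (by positivity)
  have h2 : (gb q n k : ℚ) * (4725 / 16384) ≤ (gb q n k : ℚ) * Pq q k :=
    mul_le_mul_of_nonneg_left hP (by positivity)
  linarith

/-- geometric bound for sums -/
theorem geom_bound {q : ℕ} (hq : 2 ≤ q) (n r : ℕ) : ∀ m, 2 * m + r ≤ n + 1 →
    ((q : ℚ) ^ r - 1) * ∑ j ∈ Finset.range (m + 1), (q : ℚ) ^ (j * (n - j)) ≤
      (q : ℚ) ^ r * (q : ℚ) ^ (m * (n - m)) := by
  have hq1 : (1 : ℚ) ≤ q := by exact_mod_cast (by omega : 1 ≤ q)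
  intro m
  induction m with
  | zero => intro _; simp
  | succ m ih =>
    intro h
    have ih := ih (by omega)
    rw [Finset.sum_range_succ, mul_add]
    have e : (q : ℚ) ^ r * (q : ℚ) ^ (m * (n - m)) ≤ (q : ℚ) ^ ((m + 1) * (n - (m + 1))) := by
      rw [← pow_add]
      apply pow_le_pow_right₀ hq1
      obtain ⟨l, hl⟩ : ∃ l, n = 2 * m + 1 + l := ⟨n - (2 * m + 1), by omega⟩
      subst hl
      rw [show 2 * m + 1 + l - m = m + 1 + l by omega, show 2 * m + 1 + l - (m + 1) = m + l by omega]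
      have : r ≤ l := by omega
      nlinarith
    linarith

theorem sum_gb_le {q : ℕ} (hq : 2 ≤ q) (n r m : ℕ) (h : 2 * m + r ≤ n + 1) (hr : 1 ≤ r) :
    (∑ j ∈ Finset.range (m + 1), gb q n j : ℚ) * ((q : ℚ) ^ r - 1) ≤
      16384 / 4725 * ((q : ℚ) ^ r * (q : ℚ) ^ (m * (n - m))) := by
  have hq1 : (1 : ℚ) ≤ q := by exact_mod_cast (by omega : 1 ≤ q)
  have h1 := geom_bound hq n r m h
  have h2 : (∑ j ∈ Finset.range (m + 1), gb q n j : ℚ) ≤
      16384 / 4725 * ∑ j ∈ Finset.range (m + 1), (q : ℚ) ^ (j * (n - j)) := by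
    rw [Finset.mul_sum]
    apply Finset.sum_le_sum
    intro j hj
    rw [Finset.mem_range] at hj
    exact gb_le hq n j (by omega)
  have h3 : (0 : ℚ) ≤ (q : ℚ) ^ r - 1 := by
    have := one_le_pow₀ hq1 (n := r); linarith
  have h4 := mul_le_mul_of_nonneg_right h2 h3
  nlinarith

/-- `Σ_{j<e} [2e, j] ≤ (8/7) C q^(e²-1)`. -/
theorem S1 {q : ℕ} (hq : 2 ≤ q) (e : ℕ) (he : 1 ≤ e) :
    (∑ j ∈ Finset.range e, gb q (2 * e) j : ℚ) * q ≤ 16384 / 4725 * (8 / 7) * (q : ℚ) ^ (e * e) := by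
  obtain ⟨m, rfl⟩ : ∃ m, e = m + 1 := ⟨e - 1, by omega⟩
  have h := sum_gb_le hq (2 * (m + 1)) 3 m (by omega) (by norm_num)
  have hqq : (2 : ℚ) ≤ q := by exact_mod_cast hq
  have e1 : (q : ℚ) ^ ((m + 1) * (m + 1)) = (q : ℚ) ^ (m * (2 * (m + 1) - m)) * q := by
    rw [← pow_succ]; congr 1
    rw [show 2 * (m + 1) - m = m + 2 by omega]; ring
  rw [e1]
  set X := (q : ℚ) ^ (m * (2 * (m + 1) - m)) with hX
  have hX0 : 0 < X := by positivity
  set S : ℚ := (∑ j ∈ Finset.range (m + 1), gb q (2 * (m + 1)) j : ℚ) with hS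
  have hS0 : 0 ≤ S := by positivity
  have q3 : (8 : ℚ) ≤ (q : ℚ) ^ 3 := by
    calc (8 : ℚ) = 2 ^ 3 := by norm_num
      _ ≤ (q : ℚ) ^ 3 := pow_le_pow_left₀ (by norm_num) hqq 3
  have h5 : S * 7 ≤ 16384 / 4725 * 8 * X := by
    have h6 : S * (7 * (q : ℚ) ^ 3) ≤ 16384 / 4725 * 8 * X * (q : ℚ) ^ 3 := by
      have h7 : S * (7 * (q : ℚ) ^ 3) ≤ S * (8 * ((q : ℚ) ^ 3 - 1)) :=
        mul_le_mul_of_nonneg_left (by linarith) hS0
      nlinarith
    have : (S * 7) * (q : ℚ) ^ 3 ≤ (16384 / 4725 * 8 * X) * (q : ℚ) ^ 3 := by linarith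
    exact le_of_mul_le_mul_right this (by positivity)
  have : S ≤ 16384 / 4725 * (8 / 7) * X := by linarith
  calc S * q ≤ (16384 / 4725 * (8 / 7) * X) * q := mul_le_mul_of_nonneg_right this (by linarith)
    _ = 16384 / 4725 * (8 / 7) * (X * q) := by ring

/-- `Σ_{j≤e} [2e+1, j] ≤ (19/15) C q^(e(e+1))`. -/
theorem S2 {q : ℕ} (hq : 2 ≤ q) (e : ℕ) :
    (∑ j ∈ Finset.range (e + 1), gb q (2 * e + 1) j : ℚ) ≤
      16384 / 4725 * (19 / 15) * (q : ℚ) ^ (e * (e + 1)) := by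
  have hqq : (2 : ℚ) ≤ q := by exact_mod_cast hq
  have hlast := gb_le hq (2 * e + 1) e (by omega)
  rw [show 2 * e + 1 - e = e + 1 by omega] at hlast
  rw [Finset.sum_range_succ]
  cases e with
  | zero =>
    simp
    norm_num
  | succ m =>
    have h := sum_gb_le hq (2 * (m + 1) + 1) 4 m (by omega) (by norm_num)
    have e1 : (q : ℚ) ^ ((m + 1) * (m + 1 + 1)) =
        (q : ℚ) ^ (m * (2 * (m + 1) + 1 - m)) * (q : ℚ) ^ 2 := by
      rw [← pow_add]; congr 1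
      rw [show 2 * (m + 1) + 1 - m = m + 3 by omega]; ring
    rw [e1] at hlast ⊢
    set X := (q : ℚ) ^ (m * (2 * (m + 1) + 1 - m)) with hX
    have hX0 : 0 < X := by positivity
    set S : ℚ := (∑ j ∈ Finset.range (m + 1), gb q (2 * (m + 1) + 1) j : ℚ) with hS
    have hS0 : 0 ≤ S := by positivity
    have q2 : (4 : ℚ) ≤ (q : ℚ) ^ 2 := by
      calc (4 : ℚ) = 2 ^ 2 := by norm_num
        _ ≤ (q : ℚ) ^ 2 := pow_le_pow_left₀ (by norm_num) hqq 2
    have q4 : (16 : ℚ) ≤ (q : ℚ) ^ 4 := by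
      calc (16 : ℚ) = 2 ^ 4 := by norm_num
        _ ≤ (q : ℚ) ^ 4 := pow_le_pow_left₀ (by norm_num) hqq 4
    have h5 : S * 15 ≤ 16384 / 4725 * 16 * X := by
      have h7 : S * (15 * (q : ℚ) ^ 4) ≤ S * (16 * ((q : ℚ) ^ 4 - 1)) :=
        mul_le_mul_of_nonneg_left (by linarith) hS0
      have : (S * 15) * (q : ℚ) ^ 4 ≤ (16384 / 4725 * 16 * X) * (q : ℚ) ^ 4 := by nlinarith
      exact le_of_mul_le_mul_right this (by positivity)
    have h6 : X ≤ X * (q : ℚ) ^ 2 / 4 := by nlinarith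
    linarith

end Pool.Agent.helper15.Sub
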