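import Mathlib
import Pool.Agent.helper15.Sub.Num

/-! # The numerical inequalities used in the proof -/

namespace Pool.Agent.helper15.Sub

theorem cast_sum_gb (q n m : ℕ) :
    ((∑ j ∈ Finset.range m, gb q n j : ℕ) : ℚ) = ∑ j ∈ Finset.range m, (gb q n j : ℚ) := by
  push_cast; rfl

theorem absorb_et {q : ℕ} (hq : 2 ≤ q) (e t : ℕ) (ht : 1 ≤ t) :
    (gb q (e + t - 1) t : ℚ) * ((q : ℚ) ^ t - 1) =
      gb q (e + t - 1) (t - 1) * ((q : ℚ) ^ e - 1) := by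
  have h := gb_absorb hq (e + t - 1) (t - 1) (by omega)
  rw [show t - 1 + 1 = t by omega, show e + t - 1 - (t - 1) = e by omega] at h
  exact_mod_cast h

/-- inequality for the even case -/
theorem numA {q : ℕ} (hq : 2 ≤ q) (e t : ℕ) (he : 1 ≤ e) (ht : 2 ≤ t) :
    gb q (e + t - 1) t * ∑ j ∈ Finset.range e, gb q (2 * e) j ≤
      gb q (e + t - 1) (t - 1) * q ^ (e * (e + 1)) := by
  have hqq : (2 : ℚ) ≤ q := by exact_mod_cast hq
  have h1 := S1 hq e he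
  have h2 := absorb_et hq e t (by omega)
  set S : ℚ := (∑ j ∈ Finset.range e, gb q (2 * e) j : ℚ) with hS
  have hS0 : 0 ≤ S := by positivity
  have qt : (4 : ℚ) ≤ (q : ℚ) ^ t := by
    calc (4 : ℚ) = 2 ^ 2 := by norm_num
      _ ≤ (q : ℚ) ^ 2 := pow_le_pow_left₀ (by norm_num) hqq 2
      _ ≤ (q : ℚ) ^ t := pow_le_pow_right₀ (by linarith) ht
  have qe : (1 : ℚ) ≤ (q : ℚ) ^ e := one_le_pow₀ (by linarith)
  -- (q^e - 1) S ≤ 3 q^(e(e+1))
  have h3 : ((q : ℚ) ^ e - 1) * S ≤ ((q : ℚ) ^ t - 1) * (q : ℚ) ^ (e * (e + 1)) := by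
    have e1 : (q : ℚ) ^ (e * (e + 1)) = (q : ℚ) ^ e * (q : ℚ) ^ (e * e) := by
      rw [← pow_add]; congr 1; ring
    have h4 : S ≤ 3 * (q : ℚ) ^ (e * e) := by
      have : S * 2 ≤ S * q := mul_le_mul_of_nonneg_left hqq hS0
      have : (0 : ℚ) < (q : ℚ) ^ (e * e) := by positivity
      linarith
    calc ((q : ℚ) ^ e - 1) * S ≤ (q : ℚ) ^ e * S := by nlinarith
      _ ≤ (q : ℚ) ^ e * (3 * (q : ℚ) ^ (e * e)) := mul_le_mul_of_nonneg_left h4 (by linarith)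
      _ = 3 * ((q : ℚ) ^ e * (q : ℚ) ^ (e * e)) := by ring
      _ ≤ ((q : ℚ) ^ t - 1) * ((q : ℚ) ^ e * (q : ℚ) ^ (e * e)) := by
          apply mul_le_mul_of_nonneg_right (by linarith) (by positivity)
      _ = _ := by rw [e1]
  have h5 : (gb q (e + t - 1) t : ℚ) * S ≤ gb q (e + t - 1) (t - 1) * (q : ℚ) ^ (e * (e + 1)) := by
    have hp : (0 : ℚ) < (q : ℚ) ^ t - 1 := by linarith
    apply le_of_mul_le_mul_right _ hp
    calc (gb q (e + t - 1) t : ℚ) * S * ((q : ℚ) ^ t - 1)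
        = (gb q (e + t - 1) t : ℚ) * ((q : ℚ) ^ t - 1) * S := by ring
      _ = gb q (e + t - 1) (t - 1) * (((q : ℚ) ^ e - 1) * S) := by rw [h2]; ring
      _ ≤ gb q (e + t - 1) (t - 1) * (((q : ℚ) ^ t - 1) * (q : ℚ) ^ (e * (e + 1))) :=
          mul_le_mul_of_nonneg_left h3 (by positivity)
      _ = _ := by ring
  have : ((gb q (e + t - 1) t * ∑ j ∈ Finset.range e, gb q (2 * e) j : ℕ) : ℚ) ≤
      ((gb q (e + t - 1) (t - 1) * q ^ (e * (e + 1)) : ℕ) : ℚ) := by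
    push_cast
    exact h5
  exact_mod_cast this

theorem qt_ge_eight {q t : ℕ} (hq : 2 ≤ q) (ht : 2 ≤ t) (h : ¬ (q = 2 ∧ t = 2)) :
    (8 : ℚ) ≤ (q : ℚ) ^ t := by
  have hqq : (2 : ℚ) ≤ q := by exact_mod_cast hq
  rcases Nat.eq_or_lt_of_le hq with h1 | h1
  · have h3 : 3 ≤ t := by omega
    calc (8 : ℚ) = 2 ^ 3 := by norm_num
      _ ≤ (q : ℚ) ^ 3 := pow_le_pow_left₀ (by norm_num) hqq 3
      _ ≤ (q : ℚ) ^ t := pow_le_pow_right₀ (by linarith) h3
  · have h3 : (3 : ℚ) ≤ q := by exact_mod_cast h1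
    calc (8 : ℚ) ≤ 3 ^ 2 := by norm_num
      _ ≤ (q : ℚ) ^ 2 := pow_le_pow_left₀ (by norm_num) h3 2
      _ ≤ (q : ℚ) ^ t := pow_le_pow_right₀ (by linarith) ht

/-- inequality for the odd case, `(q, t) ≠ (2, 2)` -/
theorem numB {q : ℕ} (hq : 2 ≤ q) (e t : ℕ) (ht : 2 ≤ t) (hqt : ¬ (q = 2 ∧ t = 2)) :
    gb q (e + t - 1) t * ∑ j ∈ Finset.range (e + 1), gb q (2 * e + 1) j ≤
      gb q (e + t - 1) (t - 1) * q ^ (e * (e + 2)) := by
  have hqq : (2 : ℚ) ≤ q := by exact_mod_cast hq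
  have h1 := S2 hq e
  have h2 := absorb_et hq e t (by omega)
  set S : ℚ := (∑ j ∈ Finset.range (e + 1), gb q (2 * e + 1) j : ℚ) with hS
  have hS0 : 0 ≤ S := by positivity
  have qt := qt_ge_eight hq ht hqt
  have qe : (1 : ℚ) ≤ (q : ℚ) ^ e := one_le_pow₀ (by linarith)
  have h3 : ((q : ℚ) ^ e - 1) * S ≤ ((q : ℚ) ^ t - 1) * (q : ℚ) ^ (e * (e + 2)) := by
    have e1 : (q : ℚ) ^ (e * (e + 2)) = (q : ℚ) ^ e * (q : ℚ) ^ (e * (e + 1)) := by
      rw [← pow_add]; congr 1; ring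
    have h4 : S ≤ 7 * (q : ℚ) ^ (e * (e + 1)) := by
      have : (0 : ℚ) < (q : ℚ) ^ (e * (e + 1)) := by positivity
      linarith
    calc ((q : ℚ) ^ e - 1) * S ≤ (q : ℚ) ^ e * S := by nlinarith
      _ ≤ (q : ℚ) ^ e * (7 * (q : ℚ) ^ (e * (e + 1))) := mul_le_mul_of_nonneg_left h4 (by linarith)
      _ = 7 * ((q : ℚ) ^ e * (q : ℚ) ^ (e * (e + 1))) := by ring
      _ ≤ ((q : ℚ) ^ t - 1) * ((q : ℚ) ^ e * (q : ℚ) ^ (e * (e + 1))) := by
          apply mul_le_mul_of_nonneg_right (by linarith) (by positivity)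
      _ = _ := by rw [e1]
  have h5 : (gb q (e + t - 1) t : ℚ) * S ≤ gb q (e + t - 1) (t - 1) * (q : ℚ) ^ (e * (e + 2)) := by
    have hp : (0 : ℚ) < (q : ℚ) ^ t - 1 := by linarith
    apply le_of_mul_le_mul_right _ hp
    calc (gb q (e + t - 1) t : ℚ) * S * ((q : ℚ) ^ t - 1)
        = (gb q (e + t - 1) t : ℚ) * ((q : ℚ) ^ t - 1) * S := by ring
      _ = gb q (e + t - 1) (t - 1) * (((q : ℚ) ^ e - 1) * S) := by rw [h2]; ring
      _ ≤ gb q (e + t - 1) (t - 1) * (((q : ℚ) ^ t - 1) * (q : ℚ) ^ (e * (e + 2))) :=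
          mul_le_mul_of_nonneg_left h3 (by positivity)
      _ = _ := by ring
  have : ((gb q (e + t - 1) t * ∑ j ∈ Finset.range (e + 1), gb q (2 * e + 1) j : ℕ) : ℚ) ≤
      ((gb q (e + t - 1) (t - 1) * q ^ (e * (e + 2)) : ℕ) : ℚ) := by
    push_cast
    exact h5
  exact_mod_cast this

theorem gb_ge_pow (q n k s : ℕ) (hk : 1 ≤ k) : q ^ (k * s) * gb q n k ≤ gb q (n + s) k := by
  obtain ⟨j, rfl⟩ : ∃ j, k = j + 1 := ⟨k - 1, by omega⟩
  induction s with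
  | zero => simp
  | succ s ih =>
    rw [← add_assoc n s 1, gb_succ]
    calc q ^ ((j + 1) * (s + 1)) * gb q n (j + 1)
        = q ^ (j + 1) * (q ^ ((j + 1) * s) * gb q n (j + 1)) := by ring
      _ ≤ q ^ (j + 1) * gb q (n + s) (j + 1) := Nat.mul_le_mul_left _ ih
      _ ≤ _ := Nat.le_add_left _ _

/-- `[2e+t+1, e+1] ≥ q^(e+t) [2e+t, e]`. -/
theorem gb_last {q : ℕ} (hq : 2 ≤ q) (e t : ℕ) :
    q ^ (e + t) * gb q (2 * e + t) e ≤ gb q (2 * e + t + 1) (e + 1) := by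
  have h := gb_absorb' hq (2 * e + t) e
  have hqq : (2 : ℤ) ≤ q := by exact_mod_cast hq
  have hp := pow_sub_one_pos hq e
  have : ((q ^ (e + t) * gb q (2 * e + t) e : ℕ) : ℤ) ≤ (gb q (2 * e + t + 1) (e + 1) : ℤ) := by
    push_cast
    apply le_of_mul_le_mul_right _ hp
    rw [h]
    have e1 : (q : ℤ) ^ (2 * e + t + 1) = (q : ℤ) ^ (e + t) * (q : ℤ) ^ (e + 1) := by
      rw [← pow_add]; congr 1; ring
    rw [e1]
    have h1 : (1 : ℤ) ≤ (q : ℤ) ^ (e + t) := one_le_pow₀ (by linarith)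
    have h2 : (0 : ℤ) ≤ gb q (2 * e + t) e := by positivity
    nlinarith
  exact_mod_cast this

/-- inequality Z2, `(q, t) ≠ (2, 2)` -/
theorem numC {q : ℕ} (hq : 2 ≤ q) (e t : ℕ) (ht : 2 ≤ t) :
    gb q (e + t) t * ∑ j ∈ Finset.range (e + 1), gb q (2 * e + 1) j ≤
      gb q (2 * e + t + 1) (e + t) := by
  have hqq : (2 : ℚ) ≤ q := by exact_mod_cast hq
  have sym1 : gb q (e + t) t = gb q (e + t) e := by
    have := gb_symm hq (n := e + t) (k := e) (by omega)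
    rwa [show e + t - e = t by omega] at this
  have sym2 : gb q (2 * e + t + 1) (e + t) = gb q (2 * e + t + 1) (e + 1) := by
    have := gb_symm hq (n := 2 * e + t + 1) (k := e + 1) (by omega)
    rwa [show 2 * e + t + 1 - (e + 1) = e + t by omega] at this
  rw [sym1, sym2]
  rcases Nat.eq_zero_or_pos e with he | he
  · subst he
    simp
    exact gb_pos q (by omega)
  have hlast := gb_last hq e t
  by_cases hqt : q = 2 ∧ t = 2
  · obtain ⟨rfl, rfl⟩ := hqt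
    rcases Nat.lt_or_ge e 3 with h3 | h3
    · interval_cases e <;> decide +kernel
    · -- [e+3, e] ≥ (9/8) 2^e [e+2, e]
      have h1 : (9 * 2 ^ e * gb 2 (e + 2) e : ℚ) ≤ 8 * gb 2 (e + 3) e := by
        obtain ⟨m, rfl⟩ : ∃ m, e = m + 1 := ⟨e - 1, by omega⟩
        have h := gb_absorb (q := 2) le_rfl (m + 1 + 2) m (by omega)
        rw [show m + 1 + 2 - m = 3 by omega] at h
        have h' : (gb 2 (m + 1 + 2) (m + 1) : ℚ) * ((2 : ℚ) ^ (m + 1) - 1) =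
          gb 2 (m + 1 + 2) m * ((2 : ℚ) ^ 3 - 1) := by exact_mod_cast h
        rw [show m + 1 + 3 = m + 1 + 2 + 1 by ring, gb_succ 2 (m + 1 + 2) m]
        push_cast
        have h8 : (8 : ℚ) ≤ 2 ^ (m + 1) := by
          calc (8 : ℚ) = 2 ^ 3 := by norm_num
            _ ≤ 2 ^ (m + 1) := pow_le_pow_right₀ (by norm_num) h3
        have hg : (0 : ℚ) ≤ gb 2 (m + 1 + 2) (m + 1) := by positivity
        nlinarith
      have h2 : (2 : ℚ) ^ (e * (e - 1)) * gb 2 (e + 3) e ≤ gb 2 (2 * e + 2) e := by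
        have := gb_ge_pow 2 (e + 3) e (e - 1) he
        rw [show e + 3 + (e - 1) = 2 * e + 2 by omega] at this
        exact_mod_cast this
      have h4 : (2 : ℚ) ^ (e + 2) * gb 2 (2 * e + 2) e ≤ gb 2 (2 * e + 2 + 1) (e + 1) := by
        exact_mod_cast hlast
      have h5 := S2 (q := 2) le_rfl e
      set S : ℚ := (∑ j ∈ Finset.range (e + 1), gb 2 (2 * e + 1) j : ℚ) with hS
      have h6 : (gb 2 (e + 2) e : ℚ) * S ≤ gb 2 (2 * e + 2 + 1) (e + 1) := by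
        have e1 : (2 : ℚ) ^ (e * (e + 1)) = 2 ^ (e * (e - 1)) * 2 ^ e * 2 ^ e := by
          rw [← pow_add, ← pow_add]; congr 1
          obtain ⟨m, rfl⟩ : ∃ m, e = m + 1 := ⟨e - 1, by omega⟩
          rw [Nat.add_sub_cancel]; ring
        have h7 : (gb 2 (e + 2) e : ℚ) * S ≤ gb 2 (e + 2) e * (9 / 2 * 2 ^ (e * (e + 1))) := by
          apply mul_le_mul_of_nonneg_left _ (by positivity)
          have : (0 : ℚ) < 2 ^ (e * (e + 1)) := by positivity
          push_cast at h5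
          linarith
        calc (gb 2 (e + 2) e : ℚ) * S ≤ gb 2 (e + 2) e * (9 / 2 * 2 ^ (e * (e + 1))) := h7
          _ = (9 * 2 ^ e * gb 2 (e + 2) e) * (2 ^ (e * (e - 1)) * 2 ^ e / 2) := by rw [e1]; ring
          _ ≤ (8 * gb 2 (e + 3) e) * (2 ^ (e * (e - 1)) * 2 ^ e / 2) :=
              mul_le_mul_of_nonneg_right h1 (by positivity)
          _ = 2 ^ (e + 2) * (2 ^ (e * (e - 1)) * gb 2 (e + 3) e) := by rw [pow_add]; ring
          _ ≤ 2 ^ (e + 2) * gb 2 (2 * e + 2) e := mul_le_mul_of_nonneg_left h2 (by positivity)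
          _ ≤ _ := h4
      have : ((gb 2 (e + 2) e * ∑ j ∈ Finset.range (e + 1), gb 2 (2 * e + 1) j : ℕ) : ℚ) ≤
          (gb 2 (2 * e + 2 + 1) (e + 1) : ℚ) := by
        push_cast
        exact h6
      exact_mod_cast this
  · have h8 := qt_ge_eight hq ht hqt
    have h2 : (q : ℚ) ^ (e * e) * gb q (e + t) e ≤ gb q (2 * e + t) e := by
      have := gb_ge_pow q (e + t) e e he
      rw [show e + t + e = 2 * e + t by omega] at this
      exact_mod_cast this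
    have h4 : (q : ℚ) ^ (e + t) * gb q (2 * e + t) e ≤ gb q (2 * e + t + 1) (e + 1) := by
      exact_mod_cast hlast
    have h5 := S2 hq e
    set S : ℚ := (∑ j ∈ Finset.range (e + 1), gb q (2 * e + 1) j : ℚ) with hS
    have h6 : (gb q (e + t) e : ℚ) * S ≤ gb q (2 * e + t + 1) (e + 1) := by
      have e1 : (q : ℚ) ^ (e * (e + 1)) = (q : ℚ) ^ (e * e) * (q : ℚ) ^ e := by
        rw [← pow_add]; congr 1
      have h7 : (gb q (e + t) e : ℚ) * S ≤ gb q (e + t) e * ((q : ℚ) ^ t * (q : ℚ) ^ (e * (e + 1))) := by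
        apply mul_le_mul_of_nonneg_left _ (by positivity)
        have hp : (0 : ℚ) < (q : ℚ) ^ (e * (e + 1)) := by positivity
        have : 8 * (q : ℚ) ^ (e * (e + 1)) ≤ (q : ℚ) ^ t * (q : ℚ) ^ (e * (e + 1)) :=
          mul_le_mul_of_nonneg_right h8 hp.le
        linarith
      calc (gb q (e + t) e : ℚ) * S ≤ gb q (e + t) e * ((q : ℚ) ^ t * (q : ℚ) ^ (e * (e + 1))) := h7
        _ = (q : ℚ) ^ (e + t) * ((q : ℚ) ^ (e * e) * gb q (e + t) e) := by rw [e1, pow_add]; ring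
        _ ≤ (q : ℚ) ^ (e + t) * gb q (2 * e + t) e := mul_le_mul_of_nonneg_left h2 (by positivity)
        _ ≤ _ := h4
    have : ((gb q (e + t) e * ∑ j ∈ Finset.range (e + 1), gb q (2 * e + 1) j : ℕ) : ℚ) ≤
        (gb q (2 * e + t + 1) (e + 1) : ℚ) := by
      push_cast
      exact h6
    exact_mod_cast this

end Pool.Agent.helper15.Sub
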