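import Mathlib
import Pool.Agent.helper15.Sub.Num2

/-! # The numerical inequalities used in the proof, `q = 2`, `t = 2` -/

namespace Pool.Agent.helper15.Sub

theorem gb_two_one (n : ℕ) : (gb 2 n 1 : ℚ) = 2 ^ n - 1 := by
  have h := gb_absorb (q := 2) le_rfl n 0 (by omega)
  have h' : (gb 2 n 1 : ℚ) * ((2 : ℚ) ^ 1 - 1) = gb 2 n 0 * ((2 : ℚ) ^ n - 1) := by
    exact_mod_cast h
  simpa using (by linarith [h', (by simp : (gb 2 n 0 : ℚ) = 1)] : (gb 2 n 1 : ℚ) = gb 2 n 0 * (2 ^ n - 1))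

theorem gb_two_two (e : ℕ) : 3 * (gb 2 (e + 1) 2 : ℚ) = (2 ^ (e + 1) - 1) * (2 ^ e - 1) := by
  have h := gb_absorb (q := 2) le_rfl (e + 1) 1 (by omega)
  rw [show e + 1 - 1 = e by omega] at h
  have h' : (gb 2 (e + 1) 2 : ℚ) * ((2 : ℚ) ^ 2 - 1) = gb 2 (e + 1) 1 * ((2 : ℚ) ^ e - 1) := by
    exact_mod_cast h
  rw [gb_two_one] at h'
  linarith

theorem gb_two_two_le (e : ℕ) : (gb 2 (e + 1) 2 : ℚ) ≤ 2 / 3 * (2 ^ e) ^ 2 := by
  have h := gb_two_two e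
  have h1 : (1 : ℚ) ≤ 2 ^ e := one_le_pow₀ (by norm_num)
  rw [pow_succ] at h
  nlinarith

theorem gb_two_low (e : ℕ) (he : 4 ≤ e) :
    (3 : ℚ) * 2 ^ (e * (e + 3)) ≤ gb 2 (2 * e + 3) e := by
  induction e, he using Nat.le_induction with
  | base =>
    have : 3 * 2 ^ (4 * (4 + 3)) ≤ gb 2 (2 * 4 + 3) 4 := by decide +kernel
    exact_mod_cast this
  | succ e he ih =>
    have h1 := gb_last (q := 2) le_rfl e 4
    have h2 := gb_ge_pow 2 (2 * e + 3) e 1 (by omega)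
    have h1' : (2 : ℚ) ^ (e + 4) * gb 2 (2 * e + 4) e ≤ gb 2 (2 * e + 4 + 1) (e + 1) := by
      exact_mod_cast h1
    have h2' : (2 : ℚ) ^ (e * 1) * gb 2 (2 * e + 3) e ≤ gb 2 (2 * e + 3 + 1) e := by
      exact_mod_cast h2
    rw [show 2 * (e + 1) + 3 = 2 * e + 4 + 1 by ring]
    refine le_trans ?_ h1'
    calc (3 : ℚ) * 2 ^ ((e + 1) * (e + 1 + 3))
        = 2 ^ (e + 4) * (2 ^ (e * 1) * (3 * 2 ^ (e * (e + 3)))) := by
          have : (2 : ℚ) ^ ((e + 1) * (e + 1 + 3)) = 2 ^ (e + 4) * (2 ^ (e * 1) * 2 ^ (e * (e + 3))) := by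
            rw [← pow_add, ← pow_add]; congr 1; ring
          rw [this]; ring
      _ ≤ 2 ^ (e + 4) * (2 ^ (e * 1) * gb 2 (2 * e + 3) e) := by
          apply mul_le_mul_of_nonneg_left _ (by positivity)
          exact mul_le_mul_of_nonneg_left ih (by positivity)
      _ ≤ 2 ^ (e + 4) * gb 2 (2 * e + 3 + 1) e := mul_le_mul_of_nonneg_left h2' (by positivity)

/-- N3 -/
theorem numN3 (e : ℕ) (he : 1 ≤ e) :
    gb 2 (2 * e + 3) (e + 2) + gb 2 (e + 1) 2 * ∑ j ∈ Finset.range (e - 1), gb 2 (2 * e + 1) j ≤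
      gb 2 (e + 1) 1 * 2 ^ (e * (e + 2)) + 2 ^ ((e + 1) * (e + 2)) +
        gb 2 (e + 1) 1 * (2 ^ (e * (e + 1)) * gb 2 (e + 2) (e + 1)) := by
  rcases Nat.lt_or_ge e 7 with h7 | h7
  · interval_cases e <;> decide +kernel
  · have s1 : gb 2 (2 * e + 3) (e + 2) = gb 2 (2 * e + 3) (e + 1) := by
      have := gb_symm (q := 2) le_rfl (n := 2 * e + 3) (k := e + 1) (by omega)
      rwa [show 2 * e + 3 - (e + 1) = e + 2 by omega] at this
    have s2 : gb 2 (e + 2) (e + 1) = gb 2 (e + 2) 1 := by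
      have := gb_symm (q := 2) le_rfl (n := e + 2) (k := 1) (by omega)
      rwa [show e + 2 - 1 = e + 1 by omega] at this
    rw [s1, s2]
    have h1 := gb_le (q := 2) le_rfl (2 * e + 3) (e + 1) (by omega)
    rw [show 2 * e + 3 - (e + 1) = e + 2 by omega] at h1
    have h2 := gb_two_two_le e
    have h3 := sum_gb_le (q := 2) le_rfl (2 * e + 1) 6 (e - 2) (by omega) (by norm_num)
    rw [show e - 2 + 1 = e - 1 by omega, show 2 * e + 1 - (e - 2) = e + 3 by omega] at h3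
    set p : ℚ := 2 ^ e with hp
    set X : ℚ := 2 ^ ((e + 1) * (e + 2)) with hX
    have hp128 : (128 : ℚ) ≤ p := by
      calc (128 : ℚ) = 2 ^ 7 := by norm_num
        _ ≤ 2 ^ e := pow_le_pow_right₀ (by norm_num) h7
    have hX0 : 0 < X := by positivity
    have e1 : (2 : ℚ) ^ (e * (e + 2)) = X / (4 * p) := by
      rw [eq_div_iff (by positivity), hX, hp]
      rw [show (4 : ℚ) = 2 ^ 2 by norm_num, ← pow_add, ← pow_add]; congr 1; ring
    have e2 : (2 : ℚ) ^ (e * (e + 1)) = X / (4 * p ^ 2) := by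
      rw [eq_div_iff (by positivity), hX, hp]
      rw [show (4 : ℚ) = 2 ^ 2 by norm_num, ← pow_mul, ← pow_add, ← pow_add]; congr 1; ring
    have e3 : (2 : ℚ) ^ ((e - 2) * (e + 3)) = X / (256 * p ^ 2) := by
      rw [eq_div_iff (by positivity), hX, hp]
      rw [show (256 : ℚ) = 2 ^ 8 by norm_num, ← pow_mul, ← pow_add, ← pow_add]; congr 1
      obtain ⟨m, rfl⟩ : ∃ m, e = m + 2 := ⟨e - 2, by omega⟩
      rw [Nat.add_sub_cancel]; ring
    set S : ℚ := (∑ j ∈ Finset.range (e - 1), gb 2 (2 * e + 1) j : ℚ) with hS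
    have hS0 : 0 ≤ S := by positivity
    have h3' : S ≤ 16384 / 4725 * (64 / 63) * (X / (256 * p ^ 2)) := by
      push_cast at h3
      rw [e3] at h3
      have : (2 : ℚ) ^ 6 = 64 := by norm_num
      rw [this] at h3
      linarith
    have h4 : (gb 2 (e + 1) 2 : ℚ) * S ≤ 16384 / 4725 / 378 * X := by
      calc (gb 2 (e + 1) 2 : ℚ) * S
          ≤ (2 / 3 * p ^ 2) * (16384 / 4725 * (64 / 63) * (X / (256 * p ^ 2))) :=
            mul_le_mul h2 h3' hS0 (by positivity)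
        _ = 16384 / 4725 / 378 * X := by field_simp; ring
    have g1 := gb_two_one (e + 1)
    have g2 := gb_two_one (e + 2)
    rw [pow_succ, ← hp] at g1
    rw [show e + 2 = e + 1 + 1 by ring, pow_succ, pow_succ, ← hp] at g2
    have h1' : (gb 2 (2 * e + 3) (e + 1) : ℚ) ≤ 16384 / 4725 * X := by
      rw [hX]; exact_mod_cast h1
    have key : (gb 2 (2 * e + 3) (e + 1) : ℚ) + gb 2 (e + 1) 2 * S ≤
        gb 2 (e + 1) 1 * 2 ^ (e * (e + 2)) + X +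
        gb 2 (e + 1) 1 * (2 ^ (e * (e + 1)) * gb 2 (e + 2) 1) := by
      rw [e1, e2, g1, show e + 2 = e + 1 + 1 by ring, g2]
      have : (p * 2 - 1) * (X / (4 * p)) + X + (p * 2 - 1) * (X / (4 * p ^ 2) * (p * 2 * 2 - 1)) =
          X * (7 / 2 - 7 / (4 * p) + 1 / (4 * p ^ 2)) := by
        field_simp; ring
      rw [this]
      have h5 : 7 / (4 * p) ≤ 7 / 512 := by
        apply div_le_div_of_nonneg_left (by norm_num) (by norm_num) (by linarith)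
      have h6 : 0 < 1 / (4 * p ^ 2) := by positivity
      have h7 : X * (7 / 2 - 7 / 512) ≤ X * (7 / 2 - 7 / (4 * p) + 1 / (4 * p ^ 2)) :=
        mul_le_mul_of_nonneg_left (by linarith) hX0.le
      linarith
    have : ((gb 2 (2 * e + 3) (e + 1) + gb 2 (e + 1) 2 *
        ∑ j ∈ Finset.range (e - 1), gb 2 (2 * e + 1) j : ℕ) : ℚ) ≤
      ((gb 2 (e + 1) 1 * 2 ^ (e * (e + 2)) + 2 ^ ((e + 1) * (e + 2)) +
        gb 2 (e + 1) 1 * (2 ^ (e * (e + 1)) * gb 2 (e + 2) 1) : ℕ) : ℚ) := by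
      push_cast
      exact key
    exact_mod_cast this

theorem aux2 (e : ℕ) (he : 1 ≤ e) :
    (gb 2 (e + 1) 2 : ℚ) ^ 2 * (∑ j ∈ Finset.range e, gb 2 (2 * e - 1) j : ℚ) ≤
      4 / 9 * (16384 / 4725 * (19 / 15)) * 2 ^ (e * (e + 3)) := by
  have h2 := gb_two_two_le e
  have h3 := S2 (q := 2) le_rfl (e - 1)
  rw [show e - 1 + 1 = e by omega, show 2 * (e - 1) + 1 = 2 * e - 1 by omega] at h3
  push_cast at h3
  set S : ℚ := (∑ j ∈ Finset.range e, gb 2 (2 * e - 1) j : ℚ) with hS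
  have hS0 : 0 ≤ S := by positivity
  have e1 : (2 : ℚ) ^ (e * (e + 3)) = 2 ^ ((e - 1) * e) * (2 ^ e) ^ 4 := by
    rw [← pow_mul, ← pow_add]; congr 1
    obtain ⟨m, rfl⟩ : ∃ m, e = m + 1 := ⟨e - 1, by omega⟩
    rw [Nat.add_sub_cancel]; ring
  calc (gb 2 (e + 1) 2 : ℚ) ^ 2 * S
      ≤ (2 / 3 * (2 ^ e) ^ 2) ^ 2 * (16384 / 4725 * (19 / 15) * 2 ^ ((e - 1) * e)) :=
        mul_le_mul (pow_le_pow_left₀ (by positivity) h2 2) h3 hS0 (by positivity)
    _ = _ := by rw [e1]; ring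

/-- N2 -/
theorem numN2 (e : ℕ) (he : 1 ≤ e) :
    gb 2 (e + 1) 2 ^ 2 * ∑ j ∈ Finset.range e, gb 2 (2 * e - 1) j ≤ gb 2 (2 * e + 3) (e + 3) := by
  have s1 : gb 2 (2 * e + 3) (e + 3) = gb 2 (2 * e + 3) e := by
    have := gb_symm (q := 2) le_rfl (n := 2 * e + 3) (k := e) (by omega)
    rwa [show 2 * e + 3 - e = e + 3 by omega] at this
  rw [s1]
  rcases Nat.lt_or_ge e 4 with h4 | h4
  · interval_cases e <;> decide +kernel
  · have h1 := gb_two_low e h4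
    have h2 := aux2 e he
    have hY : (0 : ℚ) < 2 ^ (e * (e + 3)) := by positivity
    have h3 : (gb 2 (e + 1) 2 : ℚ) ^ 2 * (∑ j ∈ Finset.range e, gb 2 (2 * e - 1) j : ℚ) ≤
      gb 2 (2 * e + 3) e := by linarith
    have : ((gb 2 (e + 1) 2 ^ 2 * ∑ j ∈ Finset.range e, gb 2 (2 * e - 1) j : ℕ) : ℚ) ≤
      (gb 2 (2 * e + 3) e : ℚ) := by
      push_cast
      exact h3
    exact_mod_cast this

/-- Nsum -/
theorem numNs (e : ℕ) (he : 1 ≤ e) :
    gb 2 (e + 1) 2 * ∑ j ∈ Finset.range (e + 1), gb 2 (2 * e + 1) j +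
      gb 2 (e + 1) 2 ^ 2 * ∑ j ∈ Finset.range e, gb 2 (2 * e - 1) j ≤
      gb 2 (2 * e + 3) (e + 3) + gb 2 (e + 1) 1 * 2 ^ (e * (e + 2)) := by
  have s1 : gb 2 (2 * e + 3) (e + 3) = gb 2 (2 * e + 3) e := by
    have := gb_symm (q := 2) le_rfl (n := 2 * e + 3) (k := e) (by omega)
    rwa [show 2 * e + 3 - e = e + 3 by omega] at this
  rw [s1]
  rcases Nat.lt_or_ge e 4 with h4 | h4
  · interval_cases e <;> decide +kernel
  · have h1 := gb_two_low e h4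
    have h2 := aux2 e he
    have h3 := gb_two_two_le e
    have h5 := S2 (q := 2) le_rfl e
    push_cast at h5
    set S : ℚ := (∑ j ∈ Finset.range (e + 1), gb 2 (2 * e + 1) j : ℚ) with hS
    set Y : ℚ := 2 ^ (e * (e + 3)) with hYd
    set p : ℚ := 2 ^ e with hp
    have hp16 : (16 : ℚ) ≤ p := by
      calc (16 : ℚ) = 2 ^ 4 := by norm_num
        _ ≤ 2 ^ e := pow_le_pow_right₀ (by norm_num) h4
    have hY : (0 : ℚ) < Y := by positivity
    have e1 : (2 : ℚ) ^ (e * (e + 1)) = Y / p ^ 2 := by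
      rw [eq_div_iff (by positivity), hYd, hp, ← pow_mul, ← pow_add]; congr 1; ring
    have e2 : (2 : ℚ) ^ (e * (e + 2)) = Y / p := by
      rw [eq_div_iff (by positivity), hYd, hp, ← pow_add]; congr 1
    have hS0 : 0 ≤ S := by positivity
    have h6 : (gb 2 (e + 1) 2 : ℚ) * S ≤ 2 / 3 * (16384 / 4725 * (19 / 15)) * Y := by
      calc (gb 2 (e + 1) 2 : ℚ) * S ≤ (2 / 3 * p ^ 2) * (16384 / 4725 * (19 / 15) * 2 ^ (e * (e + 1))) :=
            mul_le_mul h3 h5 hS0 (by positivity)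
        _ = _ := by rw [e1]; field_simp
    have g1 := gb_two_one (e + 1)
    rw [pow_succ, ← hp] at g1
    have h7 : (gb 2 (e + 1) 1 : ℚ) * 2 ^ (e * (e + 2)) = (2 - 1 / p) * Y := by
      rw [g1, e2]; field_simp
    have h8 : 1 / p ≤ 1 / 16 := one_div_le_one_div_of_le (by norm_num) hp16
    have h9 : (31 / 16) * Y ≤ (2 - 1 / p) * Y := mul_le_mul_of_nonneg_right (by linarith) hY.le
    have key : (gb 2 (e + 1) 2 : ℚ) * S + (gb 2 (e + 1) 2 : ℚ) ^ 2 *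
        (∑ j ∈ Finset.range e, gb 2 (2 * e - 1) j : ℚ) ≤
      gb 2 (2 * e + 3) e + gb 2 (e + 1) 1 * 2 ^ (e * (e + 2)) := by
      rw [h7]; linarith
    have : ((gb 2 (e + 1) 2 * ∑ j ∈ Finset.range (e + 1), gb 2 (2 * e + 1) j +
      gb 2 (e + 1) 2 ^ 2 * ∑ j ∈ Finset.range e, gb 2 (2 * e - 1) j : ℕ) : ℚ) ≤
      ((gb 2 (2 * e + 3) e + gb 2 (e + 1) 1 * 2 ^ (e * (e + 2)) : ℕ) : ℚ) := by
      push_cast
      exact key
    exact_mod_cast this

end Pool.Agent.helper15.Sub
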