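import Mathlib
import Pool.Agent.helper15.Sub.LemmaY
import Pool.Agent.helper15.Sub.Num3

/-! # The two-family theorem for `t ≥ 2` -/

namespace Pool.Agent.helper15.Sub

open Module
open scoped Classical

variable {K V : Type} [Field K] [Finite K] [AddCommGroup V] [Module K V] [Finite V]

theorem exists_low {A : Finset (Submodule K V)} (hUp : Up A) {m : ℕ} (hm : m ≤ finrank K V)
    (h : ∃ X ∈ A, finrank K X ≤ m) : ∃ W ∈ A, finrank K W = m := by
  obtain ⟨X, hX, hXm⟩ := h
  obtain ⟨Y, hXY, hY⟩ := exists_sup X m hXm hm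
  exact ⟨Y, hUp X hX Y hXY, hY⟩

theorem swap_bound {a b c R : ℕ} (hc : 1 ≤ c) (hba : b ≤ a) (h : b + c * a ≤ R) :
    a + c * b ≤ R := by
  obtain ⟨k, rfl⟩ : ∃ k, c = 1 + k := ⟨c - 1, by omega⟩
  have : k * b ≤ k * a := Nat.mul_le_mul_left _ hba
  nlinarith

theorem even_case (t d c : ℕ) (ht : 2 ≤ t) (htn : t ≤ finrank K V) (hn : finrank K V + t = 2 * d)
    (hc : 1 ≤ c) (A B : Finset (Submodule K V)) (hAu : Up A) (hBu : Up B) (hA : A.Nonempty)
    (hB : B.Nonempty) (hX : Cross t A B) (hBA : B.card ≤ A.card) :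
    A.card + c * B.card ≤ max (tail (Nat.card K) (finrank K V) t + c)
      ((1 + c) * tail (Nat.card K) (finrank K V) d) := by
  have hq := two_le_card K
  by_cases h1 : ∀ Y ∈ B, d ≤ finrank K Y
  · have := weight_bound t d c (by omega) (by omega) (by omega) A B hAu hA hB hX
      (fun Y hY => by have := h1 Y hY; omega)
    rw [show finrank K V + t - d = d by omega] at this
    refine this.trans ?_
    apply max_le
    · apply le_max_of_le_right; linarith
    · exact le_max_left _ _
  by_cases h2 : ∀ X ∈ A, d ≤ finrank K X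
  · apply swap_bound hc hBA
    have := weight_bound t d c (by omega) (by omega) (by omega) B A hBu hB hA hX.symm
      (fun Y hY => by have := h2 Y hY; omega)
    rw [show finrank K V + t - d = d by omega] at this
    refine this.trans ?_
    apply max_le
    · apply le_max_of_le_right; linarith
    · exact le_max_left _ _
  push Not at h1 h2
  have key : ∀ (A B : Finset (Submodule K V)), Up B → A.Nonempty → Cross t A B →
      (∃ X ∈ B, finrank K X < d) → A.card ≤ tail (Nat.card K) (finrank K V) d := by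
    intro A B hBu hA hX hl
    obtain ⟨X, hXB, hXd⟩ := hl
    obtain ⟨W, hWB, hW⟩ := exists_low hBu (m := d - 1) (by omega) ⟨X, hXB, by omega⟩
    have htW := hX.symm.le_finrank hA W hWB
    have hb := hits_bound t (by omega) W A (hX.hits hWB) d (by omega) (by omega) (by omega)
    obtain ⟨e, rfl⟩ : ∃ e, d = e + t := ⟨d - t, by omega⟩
    rw [hW, show e + t - 1 - (t - 1) = e by omega, show e + t - (t - 1) = e + 1 by omega,
      show e + t - t = e by omega, show finrank K V - t = 2 * e by omega] at hb
    have hnum := numA hq e t (by omega) ht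
    omega
  have hAle := key A B hBu hA hX h1
  have hBle := key B A hAu hB hX.symm h2
  apply le_max_of_le_right
  have := Nat.mul_le_mul_left c hBle
  linarith

/-- odd case, `(q, t) ≠ (2, 2)` -/
theorem hits_odd (t d : ℕ) (ht : 2 ≤ t) (hn : finrank K V + t = 2 * d + 1)
    (hqt : ¬ (Nat.card K = 2 ∧ t = 2)) (A : Finset (Submodule K V))
    (W : Submodule K V) (hW : finrank K W = d - 1) (htW : t ≤ finrank K W) (h : Hits t W A) :
    A.card ≤ tail (Nat.card K) (finrank K V) (d + 1) := by
  have hq := two_le_card K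
  have hb := hits_bound t (by omega) W A h (d + 1) (by omega) (by omega) (by omega)
  obtain ⟨e, rfl⟩ : ∃ e, d = e + t := ⟨d - t, by omega⟩
  rw [hW, show e + t - 1 - (t - 1) = e by omega, show e + t + 1 - (t - 1) = e + 2 by omega,
    show e + t + 1 - t = e + 1 by omega, show finrank K V - t = 2 * e + 1 by omega] at hb
  have hnum := numB hq e t ht hqt
  omega

/-- the number of `d`-dimensional members of a family hitting `W` in dimension at least two -/
theorem cnt_two (d : ℕ) (W : Submodule K V) (A : Finset (Submodule K V)) (h : Hits 2 W A)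
    (hd : 1 ≤ d) :
    cnt A d + (gb (Nat.card K) (finrank K W) 0 * ((Nat.card K) ^ ((finrank K W - 0) * (d - 0)) *
        gb (Nat.card K) (finrank K V - finrank K W) (d - 0)) +
      gb (Nat.card K) (finrank K W) 1 * ((Nat.card K) ^ ((finrank K W - 1) * (d - 1)) *
        gb (Nat.card K) (finrank K V - finrank K W) (d - 1))) ≤
      gb (Nat.card K) (finrank K V) d := by
  rw [← card_finrank_inf W d 0 (by omega), ← card_finrank_inf W d 1 hd, ← card_filter_eq,
    ← card_filter_eq, ← lev_card (K := K) (V := V) d]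
  unfold cnt
  rw [← Finset.card_union_of_disjoint, ← Finset.card_union_of_disjoint]
  · apply Finset.card_le_card
    intro U hU
    simp only [Finset.mem_union, Finset.mem_inter, Finset.mem_filter, Finset.mem_univ,
      true_and] at hU
    rcases hU with hU | hU | hU
    · exact hU.2
    · exact mem_lev.2 hU.1
    · exact mem_lev.2 hU.1
  · rw [Finset.disjoint_left]
    intro U hU hU'
    simp only [Finset.mem_union, Finset.mem_inter, Finset.mem_filter, Finset.mem_univ,
      true_and] at hU hU'
    have := h U hU.1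
    omega
  · rw [Finset.disjoint_left]
    intro U hU hU'
    simp only [Finset.mem_filter, Finset.mem_univ, true_and] at hU hU'
    omega

/-- data for `q = 2`, `t = 2` at the levels `d` and `d + 1` -/
theorem cnt_22 (e : ℕ) (hK : Nat.card K = 2) (hn : finrank K V = 2 * e + 3)
    (A : Finset (Submodule K V)) (W : Submodule K V) (hW : finrank K W = e + 1) (h : Hits 2 W A) :
    cnt A (e + 2) + (2 ^ ((e + 1) * (e + 2)) +
      gb 2 (e + 1) 1 * (2 ^ (e * (e + 1)) * gb 2 (e + 2) (e + 1))) ≤ gb 2 (2 * e + 3) (e + 2) ∧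
    cnt A (e + 3) + gb 2 (e + 1) 1 * 2 ^ (e * (e + 2)) ≤ gb 2 (2 * e + 3) (e + 3) := by
  have h1 := cnt_two (e + 2) W A h (by omega)
  have h2 := cnt_compl 2 (by norm_num) W A h (e + 3) (by omega) (by omega)
  rw [hK, hn, hW] at h1 h2
  rw [show 2 * e + 3 - (e + 1) = e + 2 by omega, show e + 1 - 0 = e + 1 by omega,
    show e + 2 - 0 = e + 2 by omega, show e + 1 - 1 = e by omega, show e + 2 - 1 = e + 1 by omega,
    gb_self, gb_zero, mul_one, one_mul] at h1
  rw [show 2 - 1 = 1 by norm_num, show e + 1 - 1 = e by omega, show e + 3 - 1 = e + 2 by omega] at h2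
  exact ⟨h1, h2⟩

theorem high_22 (e : ℕ) (he : 1 ≤ e) (hK : Nat.card K = 2) (hn : finrank K V = 2 * e + 3)
    (A : Finset (Submodule K V)) (W : Submodule K V) (hW : finrank K W = e + 1) (h : Hits 2 W A)
    (hA : ∀ X ∈ A, e + 2 ≤ finrank K X) :
    A.card ≤ tail (Nat.card K) (finrank K V) (e + 3) := by
  obtain ⟨h1, h2⟩ := cnt_22 e hK hn A W hW h
  have h3 := numN3 e he
  rw [card_eq_sum_Ico A (e + 2) (by omega) hA,
    Finset.sum_eq_sum_Ico_succ_bot (by omega : e + 2 < finrank K V + 1),
    Finset.sum_eq_sum_Ico_succ_bot (by omega : e + 2 + 1 < finrank K V + 1),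
    tail_succ _ _ _ (by omega : e + 3 ≤ finrank K V)]
  have h4 := sum_cnt_le_tail A (e + 3 + 1)
  rw [show e + 2 + 1 = e + 3 by ring] at *
  rw [hK, hn] at *
  omega

theorem int_22 (e : ℕ) (he : 1 ≤ e) (hK : Nat.card K = 2) (hn : finrank K V = 2 * e + 3)
    (A : Finset (Submodule K V)) (W : Submodule K V) (hW : finrank K W = e + 1) (h : Hits 2 W A)
    (hI : ∀ X ∈ A, finrank K X = e + 1 → ∀ Y ∈ A, finrank K Y = e + 1 → X ⊓ Y ≠ ⊥) :
    A.card ≤ tail (Nat.card K) (finrank K V) (e + 3) + gb (Nat.card K) (finrank K V - 1) (e + 2) := by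
  obtain ⟨h1, h2⟩ := cnt_22 e hK hn A W hW h
  have h3 := numN3 e he
  have hA : ∀ X ∈ A, 2 ≤ finrank K X := fun X hX =>
    (h X hX).trans (Submodule.finrank_mono inf_le_left)
  have h5 : cnt A (e + 1) ≤ gb (Nat.card K) (finrank K V - 1) (e + 2) := by
    have h6 := ekr (K := K) (V := V) (e + 1) (by omega) (by omega) (A ∩ lev K V (e + 1))
      Finset.inter_subset_right (by
        intro X hX Y hY
        rw [Finset.mem_inter, mem_lev] at hX hY
        exact hI X hX.1 hX.2 Y hY.1 hY.2)
    have h7 := gb_symm (two_le_card K) (n := finrank K V - 1) (k := e + 1 - 1) (by omega)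
    rw [show finrank K V - 1 - (e + 1 - 1) = e + 2 by omega] at h7
    rw [h7]; exact h6
  have h8 : ∑ k ∈ Finset.Ico 2 (e + 1), cnt A k ≤ gb 2 (e + 1) 2 *
      ∑ j ∈ Finset.range (e - 1), gb 2 (2 * e + 1) j := by
    have h9 : ∑ k ∈ Finset.Ico 2 (2 + (e - 1)), gb 2 (2 * e + 1) (k - 2) =
      ∑ j ∈ Finset.range (e - 1), gb 2 (2 * e + 1) j := sum_shift _ _ _
    rw [← h9, show 2 + (e - 1) = e + 1 by omega, Finset.mul_sum]
    apply Finset.sum_le_sum
    intro k hk
    rw [Finset.mem_Ico] at hk
    have := cnt_union 2 W A h k hk.1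
    rw [hK, hW, hn, show 2 * e + 3 - 2 = 2 * e + 1 by omega] at this
    exact this
  have h4 := sum_cnt_le_tail A (e + 3 + 1)
  rw [card_eq_sum_Ico A 2 (by omega) hA,
    ← Finset.sum_Ico_consecutive _ (by omega : 2 ≤ e + 1) (by omega : e + 1 ≤ finrank K V + 1),
    Finset.sum_eq_sum_Ico_succ_bot (by omega : e + 1 < finrank K V + 1),
    Finset.sum_eq_sum_Ico_succ_bot (by omega : e + 1 + 1 < finrank K V + 1),
    Finset.sum_eq_sum_Ico_succ_bot (by omega : e + 1 + 1 + 1 < finrank K V + 1),
    tail_succ _ _ _ (by omega : e + 3 ≤ finrank K V)]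
  rw [show e + 1 + 1 = e + 2 by ring, show e + 2 + 1 = e + 3 by ring]
  rw [hK, hn] at *
  omega

/-- the level bound for two disjoint subspaces -/
theorem cnt_pair (W₁ W₂ : Submodule K V) (hW : W₁ ⊓ W₂ = ⊥) (A : Finset (Submodule K V))
    (h₁ : Hits 2 W₁ A) (h₂ : Hits 2 W₂ A) (k : ℕ) :
    cnt A k ≤ if 4 ≤ k then gb (Nat.card K) (finrank K W₁) 2 * gb (Nat.card K) (finrank K W₂) 2 *
      gb (Nat.card K) (finrank K V - 4) (k - 4) else 0 := by
  let T₁ : Finset (Submodule K V) := Finset.univ.filter (fun I => finrank K I = 2 ∧ I ≤ W₁)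
  let T₂ : Finset (Submodule K V) := Finset.univ.filter (fun I => finrank K I = 2 ∧ I ≤ W₂)
  have hT₁ : T₁.card = gb (Nat.card K) (finrank K W₁) 2 := by
    rw [card_filter_eq, card_le]
  have hT₂ : T₂.card = gb (Nat.card K) (finrank K W₂) 2 := by
    rw [card_filter_eq, card_le]
  have hdim : ∀ P ∈ T₁, ∀ Q ∈ T₂, finrank K (P ⊔ Q : Submodule K V) = 4 := by
    intro P hP Q hQ
    simp only [T₁, T₂, Finset.mem_filter, Finset.mem_univ, true_and] at hP hQ
    have h3 : P ⊓ Q = ⊥ := by
      rw [eq_bot_iff, ← hW]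
      exact inf_le_inf hP.2 hQ.2
    have := Submodule.finrank_sup_add_finrank_inf_eq P Q
    rw [h3, finrank_bot] at this
    omega
  have hex : ∀ U ∈ A ∩ lev K V k, ∃ P ∈ T₁, ∃ Q ∈ T₂, P ⊔ Q ≤ U := by
    intro U hU
    rw [Finset.mem_inter, mem_lev] at hU
    obtain ⟨P, hP, hP2⟩ := exists_sub (U ⊓ W₁) 2 (h₁ U hU.1)
    obtain ⟨Q, hQ, hQ2⟩ := exists_sub (U ⊓ W₂) 2 (h₂ U hU.1)
    refine ⟨P, ?_, Q, ?_, ?_⟩
    · simp only [T₁, Finset.mem_filter, Finset.mem_univ, true_and]
      exact ⟨hP2, hP.trans inf_le_right⟩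
    · simp only [T₂, Finset.mem_filter, Finset.mem_univ, true_and]
      exact ⟨hQ2, hQ.trans inf_le_right⟩
    · exact sup_le (hP.trans inf_le_left) (hQ.trans inf_le_left)
  split_ifs with hk
  · have hsub : A ∩ lev K V k ⊆ (T₁ ×ˢ T₂).biUnion (fun p => Finset.univ.filter
        (fun U => finrank K U = k ∧ p.1 ⊔ p.2 ≤ U)) := by
      intro U hU
      obtain ⟨P, hP, Q, hQ, hPQ⟩ := hex U hU
      rw [Finset.mem_inter, mem_lev] at hU
      rw [Finset.mem_biUnion]
      refine ⟨(P, Q), Finset.mem_product.2 ⟨hP, hQ⟩, ?_⟩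
      simp only [Finset.mem_filter, Finset.mem_univ, true_and]
      exact ⟨hU.2, hPQ⟩
    unfold cnt
    refine (Finset.card_le_card hsub).trans ?_
    refine Finset.card_biUnion_le.trans ?_
    rw [← hT₁, ← hT₂, ← Finset.card_product]
    have : ∀ p ∈ T₁ ×ˢ T₂, (Finset.univ.filter (fun U : Submodule K V => finrank K U = k ∧
        p.1 ⊔ p.2 ≤ U)).card ≤ gb (Nat.card K) (finrank K V - 4) (k - 4) := by
      intro p hp
      rw [Finset.mem_product] at hp
      have h4 := hdim p.1 hp.1 p.2 hp.2
      rw [card_filter_eq, card_ge (p.1 ⊔ p.2) k (by omega), h4]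
    exact (Finset.sum_le_sum this).trans (by simp)
  · rw [Nat.le_zero]
    apply cnt_eq_zero
    intro U hU hUk
    obtain ⟨P, hP, Q, hQ, hPQ⟩ := hex U (Finset.mem_inter.2 ⟨hU, mem_lev.2 hUk⟩)
    have h4 := hdim P hP Q hQ
    have := Submodule.finrank_mono hPQ
    omega

theorem pair_22 (e : ℕ) (he : 1 ≤ e) (hK : Nat.card K = 2) (hn : finrank K V = 2 * e + 3)
    (A : Finset (Submodule K V)) (W₁ W₂ : Submodule K V) (hW : W₁ ⊓ W₂ = ⊥)
    (hW₁ : finrank K W₁ = e + 1) (hW₂ : finrank K W₂ = e + 1)
    (h₁ : Hits 2 W₁ A) (h₂ : Hits 2 W₂ A) :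
    A.card ≤ gb 2 (e + 1) 2 ^ 2 * ∑ j ∈ Finset.range e, gb 2 (2 * e - 1) j +
      tail (Nat.card K) (finrank K V) (e + 4) := by
  have hc := cnt_pair W₁ W₂ hW A h₁ h₂
  have hA : ∀ X ∈ A, 4 ≤ finrank K X := by
    intro X hX
    by_contra hlt
    have := hc (finrank K X)
    rw [if_neg hlt, Nat.le_zero] at this
    unfold cnt at this
    rw [Finset.card_eq_zero] at this
    have h3 : X ∈ A ∩ lev K V (finrank K X) := Finset.mem_inter.2 ⟨hX, mem_lev.2 rfl⟩
    rw [this] at h3
    exact absurd h3 (Finset.notMem_empty _)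
  rw [card_eq_sum_Ico A 4 (by omega) hA,
    ← Finset.sum_Ico_consecutive _ (by omega : 4 ≤ e + 4) (by omega : e + 4 ≤ finrank K V + 1)]
  apply Nat.add_le_add
  · have h9 : ∑ k ∈ Finset.Ico 4 (4 + e), gb 2 (2 * e - 1) (k - 4) =
      ∑ j ∈ Finset.range e, gb 2 (2 * e - 1) j := sum_shift _ _ _
    rw [← h9, show 4 + e = e + 4 by omega, Finset.mul_sum]
    apply Finset.sum_le_sum
    intro k hk
    rw [Finset.mem_Ico] at hk
    have := hc k
    rw [if_pos hk.1, hK, hW₁, hW₂, hn, show 2 * e + 3 - 4 = 2 * e - 1 by omega] at this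
    rw [sq]; exact this
  · exact sum_cnt_le_tail A (e + 4)

theorem odd_case (t d c : ℕ) (ht : 2 ≤ t) (htn : t ≤ finrank K V)
    (hn : finrank K V + t = 2 * d + 1)
    (hc : 1 ≤ c) (A B : Finset (Submodule K V)) (hAu : Up A) (hBu : Up B) (hA : A.Nonempty)
    (hB : B.Nonempty) (hX : Cross t A B) (hBA : B.card ≤ A.card) :
    A.card + c * B.card ≤ max (max (tail (Nat.card K) (finrank K V) t + c)
      (gb (Nat.card K) (finrank K V) d + (1 + c) * tail (Nat.card K) (finrank K V) (d + 1)))
      ((1 + c) * (tail (Nat.card K) (finrank K V) (d + 1) +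
        gb (Nat.card K) (finrank K V - 1) d)) := by
  have hq := two_le_card K
  have htail := tail_succ (Nat.card K) (finrank K V) d (by omega)
  -- case a
  by_cases h1 : ∀ Y ∈ B, d + 1 ≤ finrank K Y
  · have := weight_bound t d c (by omega) (by omega) (by omega) A B hAu hA hB hX
      (fun Y hY => by have := h1 Y hY; omega)
    rw [show finrank K V + t - d = d + 1 by omega, htail] at this
    refine this.trans ?_
    apply le_max_of_le_left
    apply max_le
    · apply le_max_of_le_right; linarith
    · exact le_max_left _ _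
  -- case b
  by_cases h2 : ∀ X ∈ A, d + 1 ≤ finrank K X
  · apply swap_bound hc hBA
    have := weight_bound t d c (by omega) (by omega) (by omega) B A hBu hB hA hX.symm
      (fun Y hY => by have := h2 Y hY; omega)
    rw [show finrank K V + t - d = d + 1 by omega, htail] at this
    refine this.trans ?_
    apply le_max_of_le_left
    apply max_le
    · apply le_max_of_le_right; linarith
    · exact le_max_left _ _
  push Not at h1 h2
  obtain ⟨YB, hYB, hYBd⟩ := exists_low hBu (m := d) (by omega)
    (by obtain ⟨Y, hY, hY'⟩ := h1; exact ⟨Y, hY, by omega⟩)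
  have hcU : ∀ (a b T : ℕ), a ≤ T → b ≤ T → a + c * b ≤ (1 + c) * T := by
    intro a b T ha hb
    have := Nat.mul_le_mul_left c hb
    linarith
  have hlow : ∀ C D : Finset (Submodule K V), C.Nonempty → Cross t D C → Up D →
      (∃ X ∈ D, finrank K X < d) → ∃ W ∈ D, finrank K W = d - 1 ∧ t ≤ finrank K W := by
    intro C D hC hDC hD hl
    obtain ⟨W, hW, hWd⟩ := exists_low hD (m := d - 1) (by omega)
      (by obtain ⟨Y, hY, hY'⟩ := hl; exact ⟨Y, hY, by omega⟩)
    exact ⟨W, hW, hWd, hDC.le_finrank hC W hW⟩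
  -- members of dimension `≥ d` only, against a `(d-1)`-dimensional subspace
  have hhigh : ∀ (A : Finset (Submodule K V)) (W : Submodule K V), finrank K W = d - 1 →
      t ≤ finrank K W → Hits t W A → (∀ X ∈ A, d ≤ finrank K X) →
      A.card ≤ tail (Nat.card K) (finrank K V) (d + 1) := by
    intro A W hW htW hH hAd
    by_cases hqt : Nat.card K = 2 ∧ t = 2
    · obtain ⟨hK, rfl⟩ := hqt
      obtain ⟨e, rfl⟩ : ∃ e, d = e + 2 := ⟨d - 2, by omega⟩
      exact high_22 e (by omega) hK (by omega) A W (by omega) hH hAd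
    · exact hits_odd t d ht hn hqt A W hW htW hH
  by_cases h3 : ∀ X ∈ A, d ≤ finrank K X
  · by_cases h4 : ∀ Y ∈ B, d ≤ finrank K Y
    · -- case c1
      have hAc : A.card ≤ cnt A d + tail (Nat.card K) (finrank K V) (d + 1) := by
        rw [card_eq_sum_Ico A d (by omega) h3, Finset.sum_eq_sum_Ico_succ_bot (by omega)]
        exact Nat.add_le_add_left (sum_cnt_le_tail A (d + 1)) _
      have hBc : B.card ≤ cnt B d + tail (Nat.card K) (finrank K V) (d + 1) := by
        rw [card_eq_sum_Ico B d (by omega) h4, Finset.sum_eq_sum_Ico_succ_bot (by omega)]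
        exact Nat.add_le_add_left (sum_cnt_le_tail B (d + 1)) _
      have hcr : Cross t (A ∩ lev K V d) (B ∩ lev K V d) := fun X hX' Y hY =>
        hX X (Finset.mem_inter.1 hX').1 Y (Finset.mem_inter.1 hY).1
      rcases le_total (cnt B d) (cnt A d) with h5 | h5
      · have h6 := (lemmaY t d c (by omega) htn hn _ _ Finset.inter_subset_right
          Finset.inter_subset_right hcr h5).1
        have h7 := Nat.mul_le_mul_left c hBc
        have h8 : A.card + c * B.card ≤
            (cnt A d + c * cnt B d) + (1 + c) * tail (Nat.card K) (finrank K V) (d + 1) := by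
          linarith
        refine h8.trans ?_
        have h9 : cnt A d + c * cnt B d ≤ max (gb (Nat.card K) (finrank K V) d)
          ((1 + c) * gb (Nat.card K) (finrank K V - 1) d) := h6
        rcases le_max_iff.1 h9 with h10 | h10
        · apply le_max_of_le_left; apply le_max_of_le_right; linarith
        · apply le_max_of_le_right; linarith
      · have h6 := (lemmaY t d c (by omega) htn hn _ _ Finset.inter_subset_right
          Finset.inter_subset_right hcr.symm h5).2
        have h7 : cnt A d ≤ gb (Nat.card K) (finrank K V - 1) d := h6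
        apply le_max_of_le_right
        apply hcU
        · omega
        · omega
    · -- case c3
      push Not at h4
      obtain ⟨W, hWB, hWd, htW⟩ := hlow A B hA hX.symm hBu h4
      have h5 := hhigh A W hWd htW (hX.hits hWB) h3
      apply le_max_of_le_right
      apply hcU
      · omega
      · omega
  · push Not at h3
    obtain ⟨WA, hWA, hWAd, htWA⟩ := hlow B A hB hX hAu h3
    by_cases h4 : ∀ Y ∈ B, d ≤ finrank K Y
    · -- case c2
      have h5 := hhigh B WA hWAd htWA (hX.symm.hits hWA) h4
      have h6 : A.card ≤ gb (Nat.card K) (finrank K V) d +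
          tail (Nat.card K) (finrank K V) (d + 1) := by
        have hH := hX.hits hYB
        obtain ⟨e, rfl⟩ : ∃ e, d = e + t := ⟨d - t, by omega⟩
        rw [card_eq_sum_Ico A t (by omega) (hX.le_finrank hB),
          ← Finset.sum_Ico_consecutive _ (by omega : t ≤ e + t + 1) (by omega)]
        apply Nat.add_le_add
        · have hnum := numC hq e t ht
          have h9 : ∑ k ∈ Finset.Ico t (t + (e + 1)), gb (Nat.card K) (2 * e + 1) (k - t) =
            ∑ j ∈ Finset.range (e + 1), gb (Nat.card K) (2 * e + 1) j := sum_shift _ _ _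
          rw [show finrank K V = 2 * e + t + 1 by omega]
          refine le_trans ?_ hnum
          rw [← h9, show t + (e + 1) = e + t + 1 by omega, Finset.mul_sum]
          apply Finset.sum_le_sum
          intro k hk
          rw [Finset.mem_Ico] at hk
          have := cnt_union t YB A hH k hk.1
          rw [hYBd, show finrank K V - t = 2 * e + 1 by omega] at this
          exact this
        · exact sum_cnt_le_tail A (e + t + 1)
      apply le_max_of_le_left; apply le_max_of_le_right
      have := Nat.mul_le_mul_left c h5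
      linarith
    · -- case c4
      push Not at h4
      obtain ⟨WB, hWB, hWBd, htWB⟩ := hlow A B hA hX.symm hBu h4
      apply le_max_of_le_right
      by_cases hqt : Nat.card K = 2 ∧ t = 2
      · obtain ⟨hK, rfl⟩ := hqt
        obtain ⟨e, rfl⟩ : ∃ e, d = e + 2 := ⟨d - 2, by omega⟩
        have he : 1 ≤ e := by omega
        have hn' : finrank K V = 2 * e + 3 := by omega
        have hWAe : finrank K WA = e + 1 := by omega
        have hWBe : finrank K WB = e + 1 := by omega
        have htl := tail_succ (Nat.card K) (finrank K V) (e + 3) (by omega)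
        have hN2 := numN2 e he
        have hNs := numNs e he
        -- bound for all families
        have hall : ∀ (A : Finset (Submodule K V)) (W : Submodule K V), finrank K W = e + 1 →
            Hits 2 W A → A.card + gb 2 (e + 1) 1 * 2 ^ (e * (e + 2)) ≤
            gb 2 (e + 1) 2 * ∑ j ∈ Finset.range (e + 1), gb 2 (2 * e + 1) j +
            tail (Nat.card K) (finrank K V) (e + 3) := by
          intro A W hW hH
          have hb := hits_bound 2 (by omega) W A hH (e + 3) (by omega) (by omega) (by omega)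
          rw [hW, hK, hn', show 2 - 1 = 1 by norm_num, show e + 1 - 1 = e by omega,
            show e + 3 - 1 = e + 2 by omega, show e + 3 - 2 = e + 1 by omega,
            show 2 * e + 3 - 2 = 2 * e + 1 by omega] at hb
          rw [hK, hn']
          exact hb
        by_cases hIA : ∀ X ∈ A, finrank K X = e + 1 → ∀ Y ∈ A, finrank K Y = e + 1 → X ⊓ Y ≠ ⊥
        · by_cases hIB : ∀ X ∈ B, finrank K X = e + 1 → ∀ Y ∈ B, finrank K Y = e + 1 → X ⊓ Y ≠ ⊥
          · have h5 := int_22 e he hK hn' A WB hWBe (hX.hits hWB) hIA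
            have h6 := int_22 e he hK hn' B WA hWAe (hX.symm.hits hWA) hIB
            exact hcU _ _ _ h5 h6
          · push Not at hIB
            obtain ⟨X, hXB, hXd, Y, hYB', hYd, hXY⟩ := hIB
            have h5 := pair_22 e he hK hn' A X Y hXY hXd hYd (hX.hits hXB) (hX.hits hYB')
            have h6 : A.card ≤ tail (Nat.card K) (finrank K V) (e + 3) := by
              rw [htl, show e + 3 + 1 = e + 4 by ring]
              rw [hK, hn'] at *
              omega
            apply hcU
            · rw [show e + 2 + 1 = e + 3 by ring]; omega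
            · rw [show e + 2 + 1 = e + 3 by ring]; omega
        · push Not at hIA
          obtain ⟨X, hXA, hXd, Y, hYA', hYd, hXY⟩ := hIA
          have h5 := pair_22 e he hK hn' B X Y hXY hXd hYd (hX.symm.hits hXA) (hX.symm.hits hYA')
          have h7 := hall A WB hWBe (hX.hits hWB)
          have h6 : B.card ≤ tail (Nat.card K) (finrank K V) (e + 3) := by
            rw [htl, show e + 3 + 1 = e + 4 by ring]
            rw [hK, hn'] at *
            omega
          have h8 : A.card + B.card ≤ 2 * tail (Nat.card K) (finrank K V) (e + 3) := by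
            rw [show e + 3 + 1 = e + 4 by ring] at htl
            rw [hK, hn'] at *
            omega
          obtain ⟨k, rfl⟩ : ∃ k, c = 1 + k := ⟨c - 1, by omega⟩
          rw [show e + 2 + 1 = e + 3 by ring]
          have h9 := Nat.mul_le_mul_left k h6
          have h10 : A.card + (1 + k) * B.card ≤
              (1 + (1 + k)) * tail (Nat.card K) (finrank K V) (e + 3) := by linarith
          refine h10.trans ?_
          exact Nat.mul_le_mul_left _ (Nat.le_add_right _ _)
      · have h5 := hits_odd t d ht hn hqt A WB hWBd htWB (hX.hits hWB)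
        have h6 := hits_odd t d ht hn hqt B WA hWAd htWA (hX.symm.hits hWA)
        apply hcU
        · omega
        · omega

end Pool.Agent.helper15.Sub
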