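import Mathlib
import Pool.Agent.helper15.Sub.Two

/-! # The upper bound for `m` families, and the constructions -/

namespace Pool.Agent.helper15.Sub

open Module
open scoped Classical

variable {K V : Type} [Field K] [Finite K] [AddCommGroup V] [Module K V] [Finite V]

/-- upward closure -/
noncomputable def upc (A : Finset (Submodule K V)) : Finset (Submodule K V) :=
  Finset.univ.filter (fun Y => ∃ X ∈ A, X ≤ Y)

theorem mem_upc {A : Finset (Submodule K V)} {Y : Submodule K V} :
    Y ∈ upc A ↔ ∃ X ∈ A, X ≤ Y := by simp [upc]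

theorem subset_upc (A : Finset (Submodule K V)) : A ⊆ upc A := fun X hX =>
  mem_upc.2 ⟨X, hX, le_rfl⟩

theorem up_upc (A : Finset (Submodule K V)) : Up (upc A) := by
  intro X hX Y hXY
  obtain ⟨Z, hZ, hZX⟩ := mem_upc.1 hX
  exact mem_upc.2 ⟨Z, hZ, hZX.trans hXY⟩

theorem cross_upc {t : ℕ} {A B : Finset (Submodule K V)} (h : Cross t A B) :
    Cross t (upc A) (upc B) := by
  intro X hX Y hY
  obtain ⟨X', hX', hXX⟩ := mem_upc.1 hX
  obtain ⟨Y', hY', hYY⟩ := mem_upc.1 hY
  exact (h X' hX' Y' hY').trans (Submodule.finrank_mono (inf_le_inf hXX hYY))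

/-- the sum is at most the largest plus `m - 1` times the second largest term -/
theorem sum_le_two {m : ℕ} (hm : 2 ≤ m) (f : Fin m → ℕ) :
    ∃ i j : Fin m, i ≠ j ∧ f j ≤ f i ∧ ∑ k, f k ≤ f i + (m - 1) * f j := by
  have : Nonempty (Fin m) := ⟨⟨0, by omega⟩⟩
  obtain ⟨i, -, hi⟩ := Finset.exists_max_image Finset.univ f Finset.univ_nonempty
  have hne : (Finset.univ.erase i).Nonempty := by
    rw [← Finset.card_pos, Finset.card_erase_of_mem (Finset.mem_univ i)]
    simp; omega
  obtain ⟨j, hj, hjm⟩ := Finset.exists_max_image (Finset.univ.erase i) f hne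
  refine ⟨i, j, (Finset.ne_of_mem_erase hj).symm, hi j (Finset.mem_univ j), ?_⟩
  rw [← Finset.add_sum_erase _ f (Finset.mem_univ i)]
  apply Nat.add_le_add_left
  calc ∑ k ∈ Finset.univ.erase i, f k ≤ ∑ _k ∈ Finset.univ.erase i, f j := Finset.sum_le_sum hjm
    _ = (m - 1) * f j := by simp

theorem sum_pair_le {m : ℕ} (hm : 2 ≤ m) (a b : Fin m → ℕ) (N : ℕ)
    (h : ∀ i j, i ≠ j → a i + b j ≤ N) : ∑ i, (a i + b i) ≤ m * N := by
  obtain ⟨l, rfl⟩ : ∃ l, m = l + 2 := ⟨m - 2, by omega⟩
  have h1 : ∑ i, b (finRotate (l + 2) i) = ∑ i, b i := Equiv.sum_comp _ _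
  rw [Finset.sum_add_distrib, ← h1, ← Finset.sum_add_distrib]
  calc ∑ i, (a i + b (finRotate (l + 2) i)) ≤ ∑ _i : Fin (l + 2), N := by
        apply Finset.sum_le_sum
        intro i _
        apply h
        intro h2
        rw [finRotate_apply] at h2
        have := Fin.add_one_le_iff (k := i)
        simp at h2
    _ = (l + 2) * N := by simp

/-- explicit value -/
def mx (q n t m : ℕ) : ℕ :=
  if (n + t) % 2 = 0 then max (tail q n t + (m - 1)) (m * tail q n ((n + t) / 2))
  else max (max (tail q n t + (m - 1)) (gb q n ((n + t) / 2) + m * tail q n ((n + t) / 2 + 1)))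
    (m * (tail q n ((n + t) / 2 + 1) + gb q (n - 1) ((n + t) / 2)))

theorem upper_two_le (t m : ℕ) (ht : 2 ≤ t) (htn : t ≤ finrank K V) (hm : 2 ≤ m)
    (A : Fin m → Finset (Submodule K V)) (hne : ∀ i, (A i).Nonempty)
    (hX : ∀ i j, i ≠ j → Cross t (A i) (A j)) :
    ∑ i, (A i).card ≤ mx (Nat.card K) (finrank K V) t m := by
  have h0 : ∑ i, (A i).card ≤ ∑ i, (upc (A i)).card :=
    Finset.sum_le_sum fun i _ => Finset.card_le_card (subset_upc _)
  refine h0.trans ?_
  obtain ⟨i, j, hij, hji, hsum⟩ := sum_le_two hm (fun i => (upc (A i)).card)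
  refine hsum.trans ?_
  have hnei : (upc (A i)).Nonempty := (hne i).mono (subset_upc _)
  have hnej : (upc (A j)).Nonempty := (hne j).mono (subset_upc _)
  have hc := cross_upc (hX i j hij)
  unfold mx
  split_ifs with hpar
  · have := even_case t ((finrank K V + t) / 2) (m - 1) ht htn (by omega) (by omega) _ _
      (up_upc _) (up_upc _) hnei hnej hc hji
    rw [show 1 + (m - 1) = m by omega] at this
    exact this
  · have := odd_case t ((finrank K V + t) / 2) (m - 1) ht htn (by omega) (by omega) _ _
      (up_upc _) (up_upc _) hnei hnej hc hji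
    rw [show 1 + (m - 1) = m by omega] at this
    exact this

theorem upper_one (m : ℕ) (htn : 1 ≤ finrank K V) (hm : 2 ≤ m)
    (A : Fin m → Finset (Submodule K V))
    (hX : ∀ i j, i ≠ j → Cross 1 (A i) (A j)) :
    ∑ i, (A i).card ≤ mx (Nat.card K) (finrank K V) 1 m := by
  have hq := two_le_card K
  have hpair : ∀ k ≤ finrank K V, ∑ i, (cnt (A i) k + cnt (A i) (finrank K V - k)) ≤
      m * gb (Nat.card K) (finrank K V) k := by
    intro k hk
    apply sum_pair_le hm
    intro i j hij
    have h1 := cross_pair 1 le_rfl (A i) (A j) (hX i j hij) k (finrank K V - k) hk (by omega)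
      (by omega)
    rw [gb_symm hq hk, ← add_mul] at h1
    exact Nat.le_of_mul_le_mul_right h1 (gb_pos _ hk)
  have hrefl : ∀ (f : ℕ → ℕ) (s : ℕ), s ≤ finrank K V + 1 →
      ∑ k ∈ Finset.Ico s (finrank K V + 1), f (finrank K V - k) =
      ∑ k ∈ Finset.range (finrank K V + 1 - s), f k := by
    intro f s _
    rw [Finset.sum_Ico_reflect f s le_rfl, Nat.sub_self, Finset.range_eq_Ico]
  unfold mx
  split_ifs with hpar
  · apply le_max_of_le_right
    obtain ⟨d, hd⟩ : ∃ d, finrank K V + 1 = 2 * d := ⟨(finrank K V + 1) / 2, by omega⟩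
    rw [show (finrank K V + 1) / 2 = d by omega]
    have h1 : ∀ i, (A i).card = ∑ k ∈ Finset.Ico d (finrank K V + 1),
        (cnt (A i) k + cnt (A i) (finrank K V - k)) := by
      intro i
      rw [Finset.sum_add_distrib, hrefl _ d (by omega), show finrank K V + 1 - d = d by omega,
        card_eq_sum_cnt, Finset.range_eq_Ico,
        ← Finset.sum_Ico_consecutive _ (Nat.zero_le d) (by omega : d ≤ finrank K V + 1),
        ← Finset.range_eq_Ico, add_comm]
    rw [Finset.sum_congr rfl (fun i _ => h1 i), Finset.sum_comm]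
    unfold tail
    rw [Finset.mul_sum]
    apply Finset.sum_le_sum
    intro k hk
    rw [Finset.mem_Ico] at hk
    exact hpair k (by omega)
  · obtain ⟨d, hd⟩ : ∃ d, finrank K V = 2 * d := ⟨finrank K V / 2, by omega⟩
    rw [show (finrank K V + 1) / 2 = d by omega]
    have h1 : ∀ i, (A i).card = ∑ k ∈ Finset.Ico (d + 1) (finrank K V + 1),
        (cnt (A i) k + cnt (A i) (finrank K V - k)) + cnt (A i) d := by
      intro i
      rw [Finset.sum_add_distrib, hrefl _ (d + 1) (by omega),
        show finrank K V + 1 - (d + 1) = d by omega,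
        card_eq_sum_cnt, Finset.range_eq_Ico,
        ← Finset.sum_Ico_consecutive _ (Nat.zero_le d) (by omega : d ≤ finrank K V + 1),
        Finset.sum_eq_sum_Ico_succ_bot (by omega : d < finrank K V + 1),
        ← Finset.range_eq_Ico]
      ring
    rw [Finset.sum_congr rfl (fun i _ => h1 i), Finset.sum_add_distrib, Finset.sum_comm]
    have h2 : ∑ k ∈ Finset.Ico (d + 1) (finrank K V + 1),
        ∑ i, (cnt (A i) k + cnt (A i) (finrank K V - k)) ≤
        m * tail (Nat.card K) (finrank K V) (d + 1) := by
      unfold tail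
      rw [Finset.mul_sum]
      apply Finset.sum_le_sum
      intro k hk
      rw [Finset.mem_Ico] at hk
      exact hpair k (by omega)
    obtain ⟨i, j, hij, hji, hsum⟩ := sum_le_two hm (fun i => cnt (A i) d)
    have h3 := (lemmaY 1 d (m - 1) le_rfl htn (by omega) _ _ Finset.inter_subset_right
          Finset.inter_subset_right (fun X hX' Y hY => hX i j hij X
            (Finset.mem_inter.1 hX').1 Y (Finset.mem_inter.1 hY).1) hji).1
    have h4 : cnt (A i) d + (m - 1) * cnt (A j) d ≤ max (gb (Nat.card K) (finrank K V) d)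
      ((1 + (m - 1)) * gb (Nat.card K) (finrank K V - 1) d) := h3
    rw [show 1 + (m - 1) = m by omega] at h4
    rcases le_max_iff.1 h4 with h5 | h5
    · apply le_max_of_le_left; apply le_max_of_le_right
      have := hsum.trans h5
      have := Nat.add_le_add h2 this
      linarith
    · apply le_max_of_le_right
      have := hsum.trans h5
      have := Nat.add_le_add h2 this
      linarith

theorem upper (t m : ℕ) (ht : 1 ≤ t) (htn : t ≤ finrank K V) (hm : 2 ≤ m)
    (A : Fin m → Finset (Submodule K V)) (hne : ∀ i, (A i).Nonempty)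
    (hX : ∀ i j, i ≠ j → Cross t (A i) (A j)) :
    ∑ i, (A i).card ≤ mx (Nat.card K) (finrank K V) t m := by
  rcases Nat.eq_or_lt_of_le ht with h | h
  · subst h
    exact upper_one m htn hm A hX
  · exact upper_two_le t m h htn hm A hne hX

/-! ## Constructions -/

variable (K V) in
/-- all subspaces of dimension at least `s` -/
noncomputable def above (s : ℕ) : Finset (Submodule K V) :=
  Finset.univ.filter (fun X => s ≤ finrank K X)

@[simp] theorem mem_above {s : ℕ} {X : Submodule K V} : X ∈ above K V s ↔ s ≤ finrank K X := by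
  simp [above]

theorem above_card (s : ℕ) (hs : s ≤ finrank K V + 1) :
    (above K V s).card = tail (Nat.card K) (finrank K V) s := by
  rw [card_eq_sum_Ico _ s hs (fun X hX => mem_above.1 hX)]
  unfold tail
  apply Finset.sum_congr rfl
  intro k hk
  rw [Finset.mem_Ico] at hk
  unfold cnt
  rw [← lev_card]
  congr 1
  ext X
  simp only [Finset.mem_inter, mem_above, mem_lev]
  constructor
  · exact fun h => h.2
  · intro h; exact ⟨by omega, h⟩

theorem inf_ge (X Y : Submodule K V) :
    finrank K X + finrank K Y ≤ finrank K V + finrank K (X ⊓ Y : Submodule K V) := by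
  have h1 := Submodule.finrank_sup_add_finrank_inf_eq X Y
  have h2 := Submodule.finrank_le (X ⊔ Y)
  omega

theorem lower (t m : ℕ) (ht : 1 ≤ t) (htn : t ≤ finrank K V) (hm : 2 ≤ m) :
    ∃ A : Fin m → Finset (Submodule K V), (∀ i, (A i).Nonempty) ∧
      (∀ i j, i ≠ j → Cross t (A i) (A j)) ∧
      ∑ i, (A i).card = mx (Nat.card K) (finrank K V) t m := by
  obtain ⟨l, rfl⟩ : ∃ l, m = l + 1 := ⟨m - 1, by omega⟩
  have htop : finrank K (⊤ : Submodule K V) = finrank K V := finrank_top K V
  -- construction 1
  have c1 : ∃ A : Fin (l + 1) → Finset (Submodule K V), (∀ i, (A i).Nonempty) ∧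
      (∀ i j, i ≠ j → Cross t (A i) (A j)) ∧
      ∑ i, (A i).card = tail (Nat.card K) (finrank K V) t + (l + 1 - 1) := by
    refine ⟨fun i => if i = 0 then above K V t else {⊤}, ?_, ?_, ?_⟩
    · intro i
      refine ⟨⊤, ?_⟩
      dsimp only
      split_ifs
      · rw [mem_above, htop]; exact htn
      · simp
    · intro i j hij X hX Y hY
      dsimp only at hX hY
      split_ifs at hX hY with h1 h2
      · exact absurd (h1.trans h2.symm) hij
      · rw [Finset.mem_singleton] at hY
        subst hY
        rw [inf_top_eq]; exact mem_above.1 hX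
      · rw [Finset.mem_singleton] at hX
        subst hX
        rw [top_inf_eq]; exact mem_above.1 hY
      · rw [Finset.mem_singleton] at hX hY
        subst hX; subst hY
        rw [top_inf_eq, htop]; exact htn
    · have ha := above_card (K := K) (V := V) t (by omega)
      rw [Fin.sum_univ_succ]
      simp [Fin.succ_ne_zero, ha]
  -- two-threshold construction
  have c2 : ∀ s u : ℕ, s ≤ finrank K V → u ≤ finrank K V → finrank K V + t ≤ s + u →
      finrank K V + t ≤ u + u → ∃ A : Fin (l + 1) → Finset (Submodule K V), (∀ i, (A i).Nonempty) ∧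
      (∀ i j, i ≠ j → Cross t (A i) (A j)) ∧
      ∑ i, (A i).card = tail (Nat.card K) (finrank K V) s +
        l * tail (Nat.card K) (finrank K V) u := by
    intro s u hs hu h1 h2
    refine ⟨fun i => if i = 0 then above K V s else above K V u, ?_, ?_, ?_⟩
    · intro i
      refine ⟨⊤, ?_⟩
      dsimp only
      split_ifs
      · rw [mem_above, htop]; exact hs
      · rw [mem_above, htop]; exact hu
    · intro i j hij X hX Y hY
      have h3 := inf_ge X Y
      dsimp only at hX hY
      split_ifs at hX hY with h4 h5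
      · exact absurd (h4.trans h5.symm) hij
      · rw [mem_above] at hX hY; omega
      · rw [mem_above] at hX hY; omega
      · rw [mem_above] at hX hY; omega
    · have ha := above_card (K := K) (V := V) s (by omega)
      have hb := above_card (K := K) (V := V) u (by omega)
      rw [Fin.sum_univ_succ]
      simp [Fin.succ_ne_zero, ha, hb]
  unfold mx
  split_ifs with hpar
  · obtain ⟨d, hd⟩ : ∃ d, finrank K V + t = 2 * d := ⟨(finrank K V + t) / 2, by omega⟩
    rw [show (finrank K V + t) / 2 = d by omega]
    rcases max_choice (tail (Nat.card K) (finrank K V) t + (l + 1 - 1))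
      ((l + 1) * tail (Nat.card K) (finrank K V) d) with h | h
    · rw [h]; exact c1
    · rw [h]
      obtain ⟨A, hA1, hA2, hA3⟩ := c2 d d (by omega) (by omega) (by omega) (by omega)
      exact ⟨A, hA1, hA2, by rw [hA3]; ring⟩
  · obtain ⟨d, hd⟩ : ∃ d, finrank K V + t = 2 * d + 1 := ⟨(finrank K V + t) / 2, by omega⟩
    rw [show (finrank K V + t) / 2 = d by omega]
    rcases max_choice (max (tail (Nat.card K) (finrank K V) t + (l + 1 - 1))
        (gb (Nat.card K) (finrank K V) d + (l + 1) * tail (Nat.card K) (finrank K V) (d + 1)))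
      ((l + 1) * (tail (Nat.card K) (finrank K V) (d + 1) +
        gb (Nat.card K) (finrank K V - 1) d)) with h | h
    · rw [h]
      rcases max_choice (tail (Nat.card K) (finrank K V) t + (l + 1 - 1))
        (gb (Nat.card K) (finrank K V) d + (l + 1) * tail (Nat.card K) (finrank K V) (d + 1))
        with h' | h'
      · rw [h']; exact c1
      · rw [h']
        obtain ⟨A, hA1, hA2, hA3⟩ := c2 d (d + 1) (by omega) (by omega) (by omega) (by omega)
        refine ⟨A, hA1, hA2, ?_⟩
        rw [hA3, tail_succ _ _ d (by omega)]; ring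
    · rw [h]
      obtain ⟨H, -, hH⟩ := exists_sub (⊤ : Submodule K V) (finrank K V - 1) (by rw [htop]; omega)
      let D : Finset (Submodule K V) := Finset.univ.filter (fun X => finrank K X = d ∧ X ≤ H)
      have hDc : D.card = gb (Nat.card K) (finrank K V - 1) d := by
        rw [card_filter_eq, card_le, hH]
      have hdisj : Disjoint (above K V (d + 1)) D := by
        rw [Finset.disjoint_left]
        intro X hX hX'
        simp only [D, Finset.mem_filter, Finset.mem_univ, true_and] at hX'
        rw [mem_above] at hX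
        omega
      refine ⟨fun _ => above K V (d + 1) ∪ D, ?_, ?_, ?_⟩
      · intro i
        refine ⟨⊤, ?_⟩
        rw [Finset.mem_union, mem_above, htop]
        left; omega
      · intro i j _ X hX Y hY
        have h3 := inf_ge X Y
        simp only [D, Finset.mem_union, mem_above, Finset.mem_filter, Finset.mem_univ,
          true_and] at hX hY
        rcases hX with hX | hX <;> rcases hY with hY | hY
        · omega
        · omega
        · omega
        · have h4 := Submodule.finrank_sup_add_finrank_inf_eq X Y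
          have h5 := Submodule.finrank_mono (sup_le hX.2 hY.2)
          omega
      · simp only [Finset.sum_const, Finset.card_univ, Fintype.card_fin, smul_eq_mul]
        rw [Finset.card_union_of_disjoint hdisj, above_card (d + 1) (by omega), hDc]

end Pool.Agent.helper15.Sub
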